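import Pool.Agent.J4.H4.ML.Poly

/-!
Homogeneous components of the vector field of the path `f (t x) / t` are liftable.
-/

namespace Pool.Agent.J4.H4.ML

open MvPolynomial Matrix

variable {F : Type*} [Field F] {n : ℕ}

/-- homogeneous component of a vector -/
noncomputable def hcv (k : ℕ) (v : Fin n → MvPolynomial (Fin n) F) :
    Fin n → MvPolynomial (Fin n) F := fun i => homogeneousComponent k (v i)

theorem components_mem [CharZero F]
    (𝔰 : Submodule (MvPolynomial (Fin n) F) (Fin n → MvPolynomial (Fin n) F))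
    (𝔓 : Set (Fin n → MvPolynomial (Fin n) F))
    (hd : ∀ γ ∈ 𝔓, ∀ j, (fun i => pderiv j (γ i)) ∈ 𝔓)
    (hs : ∀ γ ∈ 𝔓, (fun i => γ i - homogeneousComponent 0 (γ i)) ∈ 𝔰) (m : ℕ) :
    ∀ γ ∈ 𝔓, (∀ k, m < k → ∀ i, homogeneousComponent k (γ i) = 0) → ∀ k, 1 ≤ k →
      hcv k γ ∈ 𝔰 := by
  induction m with
  | zero =>
    intro γ _ h k hk
    have : hcv k γ = 0 := funext fun i => h k hk i
    rw [this]
    exact 𝔰.zero_mem
  | succ m ih =>
    intro γ hγ h
    have h2 : ∀ k, 2 ≤ k → hcv k γ ∈ 𝔰 := by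
      intro k hk
      obtain ⟨k, rfl⟩ : ∃ l, k = l + 1 := ⟨k - 1, by omega⟩
      have e1 : ((k + 1 : ℕ) : MvPolynomial (Fin n) F) • hcv (k + 1) γ =
          ∑ j, (X j : MvPolynomial (Fin n) F) • hcv k (fun i => pderiv j (γ i)) := by
        funext i
        rw [Finset.sum_apply]
        simp only [Pi.smul_apply, hcv, hc_pderiv, smul_eq_mul]
        rw [euler_hc, nsmul_eq_mul]
      have e2 : ((k + 1 : ℕ) : MvPolynomial (Fin n) F) • hcv (k + 1) γ ∈ 𝔰 := by
        rw [e1]
        refine Submodule.sum_mem _ fun j _ => Submodule.smul_mem _ _ ?_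
        refine ih _ (hd γ hγ j) ?_ k (by omega)
        intro l hl i
        rw [hc_pderiv, h (l + 1) (by omega), map_zero]
      have e3 : (C (((k + 1 : ℕ) : F)⁻¹) : MvPolynomial (Fin n) F) •
          (((k + 1 : ℕ) : MvPolynomial (Fin n) F) • hcv (k + 1) γ) = hcv (k + 1) γ := by
        rw [smul_smul, ← map_natCast (C : F →+* MvPolynomial (Fin n) F), ← map_mul,
          inv_mul_cancel₀ (Nat.cast_ne_zero.2 (Nat.succ_ne_zero k)), map_one, one_smul]
      rw [← e3]
      exact Submodule.smul_mem _ _ e2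
    intro k hk
    rcases Nat.lt_or_ge 1 k with h1 | h1
    · exact h2 k h1
    · have hk1 : k = 1 := by omega
      subst hk1
      obtain ⟨M, hM⟩ : ∃ M, ∀ i, (γ i).totalDegree < M + 2 := by
        refine ⟨Finset.univ.sup fun i => (γ i).totalDegree, fun i => ?_⟩
        have := Finset.le_sup (f := fun i => (γ i).totalDegree) (Finset.mem_univ i)
        omega
      have e : hcv 1 γ = (fun i => γ i - homogeneousComponent 0 (γ i)) -
          ∑ k ∈ Finset.range M, hcv (k + 2) γ := by
        funext i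
        rw [Pi.sub_apply, Finset.sum_apply]
        have := sum_hc (γ i) (hM i)
        rw [Finset.sum_range_succ', Finset.sum_range_succ'] at this
        simp only [hcv]
        have h3 : ∀ k, k + 1 + 1 = k + 2 := fun k => rfl
        simp only [h3, zero_add] at this
        linear_combination this
      rw [e]
      exact Submodule.sub_mem _ (hs γ hγ) (Submodule.sum_mem _ fun k _ => h2 (k + 2) (by omega))

/-- homogeneous component of a matrix -/
noncomputable def hcm (k : ℕ) (M : Matrix (Fin n) (Fin n) (MvPolynomial (Fin n) F)) :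
    Matrix (Fin n) (Fin n) (MvPolynomial (Fin n) F) := M.map (homogeneousComponent k)

theorem hcm_mul (k : ℕ) (M N : Matrix (Fin n) (Fin n) (MvPolynomial (Fin n) F)) :
    hcm k (M * N) = ∑ ab ∈ Finset.HasAntidiagonal.antidiagonal k, hcm ab.1 M * hcm ab.2 N := by
  ext1 i j
  rw [hcm, Matrix.map_apply, Matrix.mul_apply, map_sum, Matrix.sum_apply]
  simp only [Matrix.mul_apply, hcm, Matrix.map_apply, hc_mul]
  rw [Finset.sum_comm]

theorem hcv_mulVec (k : ℕ) (M : Matrix (Fin n) (Fin n) (MvPolynomial (Fin n) F))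
    (v : Fin n → MvPolynomial (Fin n) F) :
    hcv k (M *ᵥ v) = ∑ ab ∈ Finset.HasAntidiagonal.antidiagonal k, hcm ab.1 M *ᵥ hcv ab.2 v := by
  funext i
  rw [hcv, mulVec, dotProduct, map_sum, Finset.sum_apply]
  simp only [mulVec, dotProduct, hcm, hcv, Matrix.map_apply, hc_mul]
  rw [Finset.sum_comm]

theorem hcm_one (k : ℕ) : hcm k (1 : Matrix (Fin n) (Fin n) (MvPolynomial (Fin n) F)) =
    if k = 0 then 1 else 0 := by
  ext1 i j
  rw [hcm, Matrix.map_apply, Matrix.one_apply]
  by_cases h : i = j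
  · rw [if_pos h, homogeneousComponent_of_mem (isHomogeneous_one (Fin n) F)]
    by_cases h' : k = 0
    · rw [if_pos h', if_pos h', Matrix.one_apply, if_pos h]
    · rw [if_neg h', if_neg h', Matrix.zero_apply]
  · rw [if_neg h, map_zero]
    by_cases h' : k = 0
    · rw [if_pos h', Matrix.one_apply, if_neg h]
    · rw [if_neg h', Matrix.zero_apply]

/-- The main result on polynomials. -/
theorem vector_field [CharZero F]
    (𝔰 : Submodule (MvPolynomial (Fin n) F) (Fin n → MvPolynomial (Fin n) F))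
    (𝔓 : Set (Fin n → MvPolynomial (Fin n) F))
    (hd : ∀ γ ∈ 𝔓, ∀ j, (fun i => pderiv j (γ i)) ∈ 𝔓)
    (hs : ∀ γ ∈ 𝔓, (fun i => γ i - homogeneousComponent 0 (γ i)) ∈ 𝔰)
    (f : Fin n → MvPolynomial (Fin n) F) (hf0 : ∀ i, homogeneousComponent 0 (f i) = 0)
    (E G : Matrix (Fin n) (Fin n) (MvPolynomial (Fin n) F))
    (hE : ∀ i j, E i j = pderiv j (f i)) (hEG : E * G = 1) (hG : ∀ j, (fun i => G i j) ∈ 𝔓) :
    ∃ h : Fin n → MvPolynomial (Fin n) F,
      (∀ i, homogeneousComponent 0 (h i) = 0) ∧ (∀ i, homogeneousComponent 1 (h i) = 0) ∧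
      (∀ i, ∑ j, h j * pderiv j (f i) = ∑ j, X j * pderiv j (f i) - f i) ∧
      ∀ k, 2 ≤ k → hcv k h ∈ 𝔰 := by
  have hGE : G * E = 1 := mul_eq_one_comm.1 hEG
  have hcol : ∀ k, 1 ≤ k → ∀ v, hcm k G *ᵥ v ∈ 𝔰 := by
    intro k hk v
    have e : hcm k G *ᵥ v = ∑ j, v j • hcv k (fun i => G i j) := by
      funext i
      rw [Finset.sum_apply, mulVec, dotProduct]
      refine Finset.sum_congr rfl fun j _ => ?_
      rw [Pi.smul_apply, hcv, hcm, Matrix.map_apply, smul_eq_mul, mul_comm]
    rw [e]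
    refine Submodule.sum_mem _ fun j _ => Submodule.smul_mem _ _ ?_
    refine components_mem 𝔰 𝔓 hd hs (Finset.univ.sup fun i => (G i j).totalDegree) _ (hG j) ?_ k hk
    intro l hl i
    apply homogeneousComponent_eq_zero
    exact lt_of_le_of_lt (Finset.le_sup (f := fun i => (G i j).totalDegree) (Finset.mem_univ i)) hl
  have hG0E : ∀ m, 1 ≤ m → ∀ v, (hcm 0 G * hcm m E) *ᵥ v ∈ 𝔰 := by
    intro m hm v
    have h1 := hcm_mul m G E
    rw [hGE, hcm_one, if_neg (by omega)] at h1
    obtain ⟨m, rfl⟩ : ∃ l, m = l + 1 := ⟨m - 1, by omega⟩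
    rw [Finset.Nat.antidiagonal_succ, Finset.sum_cons] at h1
    have h2 : hcm 0 G * hcm (m + 1) E = - ∑ x ∈ Finset.map
        (Function.Embedding.prodMap ⟨Nat.succ, Nat.succ_injective⟩ (Function.Embedding.refl ℕ))
        (Finset.HasAntidiagonal.antidiagonal m), hcm x.1 G * hcm x.2 E := by
      rw [eq_neg_iff_add_eq_zero]
      exact h1.symm
    rw [h2, neg_mulVec]
    refine Submodule.neg_mem _ ?_
    rw [Matrix.sum_mulVec]
    refine Submodule.sum_mem _ fun x hx => ?_
    rw [← mulVec_mulVec]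
    apply hcol
    rw [Finset.mem_map] at hx
    obtain ⟨y, _, rfl⟩ := hx
    exact Nat.succ_le_succ (Nat.zero_le _)
  have heul : ∀ k, hcm k E *ᵥ (fun j => X j) = (k + 1) • hcv (k + 1) f := by
    intro k
    funext i
    rw [mulVec, dotProduct, Pi.smul_apply, hcv, ← euler_hc]
    refine Finset.sum_congr rfl fun j _ => ?_
    rw [hcm, Matrix.map_apply, hE, hc_pderiv, mul_comm]
  have hf0' : hcv 0 f = 0 := funext hf0
  refine ⟨fun i => X i - (G *ᵥ f) i, ?_, ?_, ?_, ?_⟩
  · intro i
    have h1 := congrFun (hcv_mulVec 0 G f) i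
    rw [Finset.Nat.antidiagonal_zero, Finset.sum_singleton] at h1
    simp only [hf0', mulVec_zero, Pi.zero_apply] at h1
    rw [map_sub]
    change _ - hcv 0 (G *ᵥ f) i = 0
    rw [h1, homogeneousComponent_of_mem (isHomogeneous_X F i), if_neg (by norm_num), sub_zero]
  · intro i
    have h1 := congrFun (hcv_mulVec 1 G f) i
    rw [Finset.Nat.antidiagonal_succ, Finset.sum_cons, Finset.Nat.antidiagonal_zero,
      Finset.map_singleton, Finset.sum_singleton] at h1
    simp only [Function.Embedding.prodMap, Function.Embedding.coeFn_mk, Prod.map] at h1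
    have h2 : hcm 0 G *ᵥ hcv (0 + 1) f = fun j => X j := by
      have h3 := heul 0
      rw [zero_add, one_smul] at h3
      rw [zero_add, ← h3, mulVec_mulVec]
      have h4 := hcm_mul 0 G E
      rw [Finset.Nat.antidiagonal_zero, Finset.sum_singleton, hGE, hcm_one, if_pos rfl] at h4
      simp only at h4
      rw [← h4, one_mulVec]
    rw [h2] at h1
    simp only [Function.Embedding.refl_apply, hf0', mulVec_zero, add_zero] at h1
    rw [map_sub]
    change _ - hcv 1 (G *ᵥ f) i = 0
    rw [h1, homogeneousComponent_of_mem (isHomogeneous_X F i), if_pos rfl, sub_self]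
  · intro i
    have h1 : ∑ j, (G *ᵥ f) j * pderiv j (f i) = f i := by
      have h2 : (E *ᵥ (G *ᵥ f)) i = f i := by rw [mulVec_mulVec, hEG, one_mulVec]
      rw [mulVec, dotProduct] at h2
      rw [← h2]
      refine Finset.sum_congr rfl fun j _ => ?_
      rw [hE, mul_comm, h2]
    simp only [sub_mul, Finset.sum_sub_distrib]
    rw [h1]
  · intro k hk
    have e0 : hcv k (fun i => X i - (G *ᵥ f) i) = - hcv k (G *ᵥ f) := by
      funext i
      rw [hcv, map_sub, homogeneousComponent_of_mem (isHomogeneous_X F i), if_neg (by omega),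
        zero_sub]
      rfl
    rw [e0, hcv_mulVec]
    refine Submodule.neg_mem _ (Submodule.sum_mem _ fun x hx => ?_)
    rw [Finset.HasAntidiagonal.mem_antidiagonal] at hx
    rcases Nat.eq_zero_or_pos x.1 with h1 | h1
    · rw [h1]
      have hx2 : x.2 = (k - 1) + 1 := by omega
      rw [hx2]
      have h3 := heul (k - 1)
      have h4 := hG0E (k - 1) (by omega) (fun j => X j)
      rw [← mulVec_mulVec, h3] at h4
      have h5 : hcm 0 G *ᵥ ((k - 1 + 1) • hcv (k - 1 + 1) f) =
          ((k - 1 + 1 : ℕ) : MvPolynomial (Fin n) F) • (hcm 0 G *ᵥ hcv (k - 1 + 1) f) := by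
        rw [← mulVec_smul]
        congr 1
        funext i
        rw [Pi.smul_apply, Pi.smul_apply, nsmul_eq_mul, smul_eq_mul]
      rw [h5] at h4
      have h6 := Submodule.smul_mem 𝔰 (C (((k - 1 + 1 : ℕ) : F)⁻¹)) h4
      rw [smul_smul, ← map_natCast (C : F →+* MvPolynomial (Fin n) F), ← map_mul,
          inv_mul_cancel₀ (Nat.cast_ne_zero.2 (Nat.succ_ne_zero _)), map_one, one_smul] at h6
      exact h6
    · exact hcol x.1 h1 _

end Pool.Agent.J4.H4.ML
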