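import Pool.Agent.J4.H4.ML.Family
import Pool.Agent.J4.H4.ML.Vec

/-!
The core theorem: a change of the polynomial generators of an algebra with square-zero kernel.
-/

namespace Pool.Agent.J4.H4.ML

open MvPolynomial Matrix

variable {F : Type*} [Field F] {n : ℕ} {Q : Type*} [Ring Q] [Algebra F Q]

/-- The derivation `D` of `Q` lifts the vector field `ξ`. -/
def Lifts (π : Q →ₐ[F] MvPolynomial (Fin n) F) (D : Q →ₗ[F] Q)
    (ξ : Fin n → MvPolynomial (Fin n) F) : Prop :=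
  IsDer D ∧ ∀ u, π (D u) = ∑ i, ξ i * pderiv i (π u)

/-- The module of liftable vector fields vanishing at the origin. -/
noncomputable def liftable (π : Q →ₐ[F] MvPolynomial (Fin n) F) (hπ : Function.Surjective π)
    (hA : ∀ u a : Q, homogeneousComponent 0 (π u) = 0 → π a = 0 → u * a = 0) :
    Submodule (MvPolynomial (Fin n) F) (Fin n → MvPolynomial (Fin n) F) where
  carrier := {ξ | (∀ i, homogeneousComponent 0 (ξ i) = 0) ∧ ∃ D, Lifts π D ξ}
  add_mem' := by
    rintro ξ ξ' ⟨h1, D, hD, h2⟩ ⟨h1', D', hD', h2'⟩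
    refine ⟨fun i => by rw [Pi.add_apply, map_add, h1, h1', add_zero], D + D', hD.add hD', ?_⟩
    intro u
    rw [LinearMap.add_apply, map_add, h2, h2', ← Finset.sum_add_distrib]
    refine Finset.sum_congr rfl fun i _ => ?_
    rw [Pi.add_apply, add_mul]
  zero_mem' := by
    refine ⟨fun i => by rw [Pi.zero_apply, map_zero], 0, IsDer.zero, ?_⟩
    intro u
    rw [LinearMap.zero_apply, map_zero]
    symm
    exact Finset.sum_eq_zero fun i _ => by rw [Pi.zero_apply, zero_mul]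
  smul_mem' := by
    rintro g ξ ⟨h1, D, hD, h2⟩
    obtain ⟨g', hg'⟩ := hπ g
    have h3 : ∀ p : MvPolynomial (Fin n) F, homogeneousComponent 0 p = 0 →
        ∀ q, homogeneousComponent 0 (p * q) = 0 := by
      intro p hp q
      rw [hc_mul, Finset.Nat.antidiagonal_zero, Finset.sum_singleton, hp, zero_mul]
    refine ⟨fun i => ?_, LinearMap.mulRight F g' ∘ₗ D, ?_, ?_⟩
    · rw [Pi.smul_apply, smul_eq_mul, mul_comm, h3 _ (h1 i)]
    · intro u v
      simp only [LinearMap.comp_apply, LinearMap.mulRight_apply]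
      rw [hD u v]
      have h4 : D u * (v * g' - g' * v) = 0 := by
        apply hA
        · rw [h2, map_sum]
          refine Finset.sum_eq_zero fun i _ => h3 _ (h1 i) _
        · rw [map_sub, map_mul, map_mul, mul_comm, sub_self]
      rw [mul_sub, sub_eq_zero] at h4
      rw [add_mul, mul_assoc, h4, mul_assoc, mul_assoc]
    · intro u
      simp only [LinearMap.comp_apply, LinearMap.mulRight_apply]
      rw [map_mul, h2, hg', Finset.sum_mul]
      refine Finset.sum_congr rfl fun i _ => ?_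
      rw [Pi.smul_apply, smul_eq_mul]
      ring

theorem core [CharZero F] (π : Q →ₐ[F] MvPolynomial (Fin n) F) (hπ : Function.Surjective π)
    (A : Submodule F Q) [FiniteDimensional F A] (hAπ : ∀ u, u ∈ A ↔ π u = 0)
    (ε : Q →ₐ[F] F) (hε : ∀ u, C (ε u) = homogeneousComponent 0 (π u))
    (hA : ∀ (u : Q), ∀ a ∈ A, u * a = ε u • a)
    (hA' : ∀ u a : Q, homogeneousComponent 0 (π u) = 0 → π a = 0 → u * a = 0)
    (𝔓 : Set (Fin n → MvPolynomial (Fin n) F))
    (hd : ∀ γ ∈ 𝔓, ∀ j, (fun i => pderiv j (γ i)) ∈ 𝔓)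
    (hs : ∀ γ ∈ 𝔓, (fun i => γ i - homogeneousComponent 0 (γ i)) ∈ liftable π hπ hA')
    (P : Fin n → Q) (hP0 : ∀ i, homogeneousComponent 0 (π (P i)) = 0)
    (E G : Matrix (Fin n) (Fin n) (MvPolynomial (Fin n) F))
    (hE : ∀ i j, E i j = pderiv j (π (P i))) (hEG : E * G = 1) (hG : ∀ j, (fun i => G i j) ∈ 𝔓) :
    ∃ (Ψ : Q →ₗ[F] Q) (Z : Fin n → Q),
      (∀ i, π (Z i) = homogeneousComponent 1 (π (P i))) ∧
      (∀ a ∈ A, Ψ a ∈ A) ∧ (∀ a ∈ A, Ψ a = 0 → a = 0) ∧
      (∀ i, ∀ a ∈ A, Ψ (P i * a - a * P i) = Z i * Ψ a - Ψ a * Z i) ∧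
      ∀ i j, Ψ (P i * P j - P j * P i) = Z i * Z j - Z j * Z i := by
  classical
  obtain ⟨h, hh0, hh1, hh, hmem⟩ := vector_field (liftable π hπ hA') 𝔓 hd hs (fun i => π (P i))
    hP0 E G hE hEG hG
  obtain ⟨M, hM1, hMf, hMh⟩ : ∃ M, 1 ≤ M ∧ (∀ i, (π (P i)).totalDegree < M + 1) ∧
      (∀ i, (h i).totalDegree < M + 2) := by
    refine ⟨(Finset.univ.sup fun i => (π (P i)).totalDegree) +
      (Finset.univ.sup fun i => (h i).totalDegree) + 1, by omega, fun i => ?_, fun i => ?_⟩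
    · have := Finset.le_sup (f := fun i => (π (P i)).totalDegree) (Finset.mem_univ i)
      omega
    · have := Finset.le_sup (f := fun i => (h i).totalDegree) (Finset.mem_univ i)
      omega
  choose D hD using fun k : ℕ => (hmem (k + 2) (by omega)).2
  have hπ' := hπ
  choose σ hσ using hπ'
  -- the coefficients of the family
  let p : Fin n → ℕ → Q := fun i k =>
    if k = 0 then P i - ∑ l ∈ Finset.range (M - 1), σ (homogeneousComponent (l + 2) (π (P i)))
    else σ (homogeneousComponent (k + 1) (π (P i)))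
  have hpk : ∀ i k, π (p i k) = homogeneousComponent (k + 1) (π (P i)) := by
    intro i k
    rcases Nat.eq_zero_or_pos k with hk | hk
    · subst hk
      simp only [p, if_true, map_sub, map_sum, hσ]
      have h1 := sum_hc (π (P i)) (hMf i)
      obtain ⟨M', rfl⟩ : ∃ M', M = M' + 1 := ⟨M - 1, by omega⟩
      rw [Finset.sum_range_succ', Finset.sum_range_succ', hP0] at h1
      rw [Nat.add_sub_cancel]
      have h3 : ∀ k, k + 1 + 1 = k + 2 := fun k => rfl
      simp only [h3] at h1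
      linear_combination (-1 : MvPolynomial (Fin n) F) * h1
    · simp only [p, if_neg hk.ne', hσ]
  have hsum : ∀ i, ∑ k ∈ Finset.range M, p i k = P i := by
    intro i
    obtain ⟨M', rfl⟩ : ∃ M', M = M' + 1 := ⟨M - 1, by omega⟩
    rw [Finset.sum_range_succ']
    simp only [p, if_true, if_neg (Nat.succ_ne_zero _), Nat.add_sub_cancel]
    abel
  let Pt : Fin n → Polynomial Q := fun i => ∑ k ∈ Finset.range M, Polynomial.monomial k (p i k)
  have hev : ∀ (τ : F) i, evq τ (Pt i) = ∑ k ∈ Finset.range M, τ ^ k • p i k := by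
    intro τ i
    simp only [Pt, map_sum, evq_monomial]
  have hevd : ∀ (τ : F) i, evq τ (Polynomial.derivative (Pt i)) =
      ∑ k ∈ Finset.range M, ((k : F) * τ ^ (k - 1)) • p i k := by
    intro τ i
    simp only [Pt, map_sum, Polynomial.derivative_monomial, evq_monomial]
    refine Finset.sum_congr rfl fun k _ => ?_
    rw [← nsmul_eq_mul', ← Nat.cast_smul_eq_nsmul F, smul_smul, mul_comm]
  have hev1 : ∀ i, evq (1 : F) (Pt i) = P i := by
    intro i
    rw [hev]
    simp only [one_pow, one_smul]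
    exact hsum i
  have hev0 : ∀ i, evq (0 : F) (Pt i) = p i 0 := by
    intro i
    rw [hev, Finset.sum_eq_single 0]
    · rw [pow_zero, one_smul]
    · intro k _ hk
      rw [zero_pow hk, zero_smul]
    · intro h1
      exact absurd (Finset.mem_range.2 hM1) h1
  have hεA : ∀ a ∈ A, ε a = 0 := by
    intro a ha
    have h1 := hε a
    rw [(hAπ a).1 ha, map_zero, ← C_0] at h1
    exact C_injective _ _ h1
  have hcomm : ∀ u v : Q, u * v - v * u ∈ A := by
    intro u v
    rw [hAπ, map_sub, map_mul, map_mul, mul_comm, sub_self]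
  obtain ⟨Θ, Λ, hΘA, hΘ0, hΛ, h1, h2⟩ := family A ε hεA hA hcomm M D (fun k => (hD k).1) (by
    intro k a ha
    rw [hAπ, (hD k).2, (hAπ a).1 ha]
    refine Finset.sum_eq_zero fun i _ => ?_
    rw [map_zero, mul_zero]) Pt (by
    intro i τ hτ
    rw [hAπ, map_sub, sub_eq_zero, hev, hevd, dval, LinearMap.sum_apply, map_sum, map_sum]
    simp only [LinearMap.smul_apply, map_smul]
    have h3 := flow_identity (fun i => π (P i)) h M hMf hMh hP0 hh0 hh1 hh τ hτ i
    simp only [hpk]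
    rw [← h3]
    refine Finset.sum_congr rfl fun k _ => ?_
    congr 1
    rw [(hD k).2]
    refine Finset.sum_congr rfl fun j _ => ?_
    rw [hcv, map_sum]
    simp only [map_smul, hpk])
  simp only [hev0, hev1] at h1 h2
  -- invert `Θ` on `A`
  let ΘA : A →ₗ[F] A := (Θ.restrict hΘA)
  have hinj : Function.Injective ΘA := by
    rw [injective_iff_map_eq_zero]
    intro a ha
    apply Subtype.ext
    exact hΘ0 a a.2 (congrArg Subtype.val ha)
  let eA : A ≃ₗ[F] A := LinearEquiv.ofInjectiveEndo ΘA hinj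
  obtain ⟨g, hg⟩ := LinearMap.exists_leftInverse_of_injective A.subtype (by
    rw [Submodule.ker_subtype])
  have hg' : ∀ a : A, g a = a := fun a => LinearMap.congr_fun hg a
  let Ψ : Q →ₗ[F] Q := A.subtype ∘ₗ eA.symm.toLinearMap ∘ₗ g
  have hΨA : ∀ u, Ψ u ∈ A := fun u => (eA.symm (g u)).2
  have hΘΨ : ∀ a ∈ A, Θ (Ψ a) = a := by
    intro a ha
    have h3 : eA (eA.symm (g a)) = g a := eA.apply_symm_apply _
    have h4 := congrArg Subtype.val h3
    rw [show g a = ⟨a, ha⟩ from hg' ⟨a, ha⟩] at h4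
    change Θ (eA.symm (g a)).1 = a
    rw [show g a = ⟨a, ha⟩ from hg' ⟨a, ha⟩]
    exact h4
  have hΨΘ : ∀ a ∈ A, Ψ (Θ a) = a := by
    intro a ha
    have h3 := hΘΨ (Θ a) (hΘA a ha)
    have h4 : Θ (Ψ (Θ a) - a) = 0 := by rw [map_sub, h3, sub_self]
    exact sub_eq_zero.1 (hΘ0 _ (A.sub_mem (hΨA _) ha) h4)
  have hbr : ∀ u v w : Q, (u - v) * w - w * (u - v) = (u * w - w * u) - (v * w - w * v) := by
    intro u v w
    noncomm_ring
  have hAA : ∀ a ∈ A, ∀ b ∈ A, a * b - b * a = 0 := by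
    intro a ha b hb
    rw [hA a b hb, hεA a ha, zero_smul, hA b a ha, hεA b hb, zero_smul, sub_zero]
  refine ⟨Ψ, fun i => p i 0 - Ψ (Λ i), ?_, fun a _ => hΨA a, ?_, ?_, ?_⟩
  · intro i
    rw [map_sub, hpk, (hAπ _).1 (hΨA _), sub_zero]
  · intro a ha h3
    rw [← hΘΨ a ha, h3, map_zero]
  · intro i a ha
    rw [hbr, hAA _ (hΨA _) _ (hΨA _), sub_zero]
    rw [← hΨΘ _ (hcomm (p i 0) (Ψ a)), h1 i _ (hΨA a), hΘΨ a ha]
  · intro i j
    have h3 : Θ ((p i 0 - Ψ (Λ i)) * (p j 0 - Ψ (Λ j)) - (p j 0 - Ψ (Λ j)) * (p i 0 - Ψ (Λ i))) =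
        P i * P j - P j * P i := by
      have e1 : (p i 0 - Ψ (Λ i)) * (p j 0 - Ψ (Λ j)) - (p j 0 - Ψ (Λ j)) * (p i 0 - Ψ (Λ i)) =
          (p i 0 * p j 0 - p j 0 * p i 0) - (p i 0 * Ψ (Λ j) - Ψ (Λ j) * p i 0) +
          (p j 0 * Ψ (Λ i) - Ψ (Λ i) * p j 0) + (Ψ (Λ i) * Ψ (Λ j) - Ψ (Λ j) * Ψ (Λ i)) := by
        noncomm_ring
      rw [e1, hAA _ (hΨA _) _ (hΨA _), add_zero, map_add, map_sub, h2, h1 i _ (hΨA _),
        h1 j _ (hΨA _), hΘΨ _ (hΛ i), hΘΨ _ (hΛ j)]
      have e2 := hAA _ (hΛ i) _ (hΛ j)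
      have e3 : (P i + Λ i) * (P j + Λ j) - (P j + Λ j) * (P i + Λ i) =
          (P i * P j - P j * P i) + (P i * Λ j - Λ j * P i) - (P j * Λ i - Λ i * P j) +
          (Λ i * Λ j - Λ j * Λ i) := by
        noncomm_ring
      rw [e3, e2]
      abel
    rw [← h3, hΨΘ _ (hcomm _ _)]

end Pool.Agent.J4.H4.ML
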