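import Mathlib

/-!
The Poincaré–Birkhoff–Witt basis, for all universes. This is the proof in the starting files
`Pool/Agent/H67/OL/PBW2.lean`, `DOM.lean`, `SORT.lean` and `Pool/Agent/R693/R/PBW.lean`, with
the restriction to `Type` removed.
-/

set_option autoImplicit false
set_option linter.unusedSectionVars false

namespace Pool.Agent.J4.H4.ML.PBWU

/-- weight of a word -/
def wl {α : Type*} (f : α → ℕ) (w : List α) : ℕ := (w.map f).sum

section PBW2

open MvPolynomial

variable {K : Type*} [Field K] {L : Type*} [LieRing L] [LieAlgebra K L] {I : Type*} [LinearOrder I]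

/-- the monomial with coefficient one -/
noncomputable abbrev mo (K : Type*) [Field K] {I : Type*} (m : I →₀ ℕ) : MvPolynomial I K :=
  monomial m 1

/-- degree of a monomial -/
noncomputable def dg (m : I →₀ ℕ) : ℕ := m.sum (fun _ e => e)

lemma dg_add (m : I →₀ ℕ) (j : I) : dg (m + Finsupp.single j 1) = dg m + 1 := by
  unfold dg
  rw [Finsupp.sum_add_index' (by simp) (by simp), Finsupp.sum_single_index (by simp)]

lemma td_mo (m : I →₀ ℕ) : (mo K m).totalDegree = dg m :=
  totalDegree_monomial m one_ne_zero

lemma X_mul_mo (i : I) (m : I →₀ ℕ) : X i * mo K m = mo K (m + Finsupp.single i 1) := by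
  rw [mo, X, monomial_mul, one_mul, add_comm]

/-- the minimum of `i` and the support of `m` -/
noncomputable def mn (i : I) (m : I →₀ ℕ) : I :=
  (insert i m.support).min' (Finset.insert_nonempty _ _)

lemma mn_of_le {i : I} {m : I →₀ ℕ} (h : ∀ k ∈ m.support, i ≤ k) : mn i m = i := by
  apply le_antisymm
  · exact Finset.min'_le _ _ (Finset.mem_insert_self _ _)
  · apply Finset.le_min'
    intro k hk
    rw [Finset.mem_insert] at hk
    rcases hk with rfl | hk
    · exact le_rfl
    · exact h k hk

lemma supp_add (m : I →₀ ℕ) (j k : I) :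
    k ∈ (m + Finsupp.single j 1).support ↔ k = j ∨ k ∈ m.support := by
  rw [Finsupp.mem_support_iff, Finsupp.mem_support_iff, Finsupp.add_apply, Finsupp.single_apply]
  by_cases h : j = k
  · subst h; simp
  · rw [if_neg h]
    have : ¬ k = j := fun hh => h hh.symm
    simp [this]

lemma mn_of_lt {i j : I} {m : I →₀ ℕ} (h : ∀ k ∈ m.support, j ≤ k) (hji : j < i) :
    mn i (m + Finsupp.single j 1) = j := by
  apply le_antisymm
  · exact Finset.min'_le _ _ (Finset.mem_insert_of_mem ((supp_add m j j).2 (Or.inl rfl)))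
  · apply Finset.le_min'
    intro k hk
    rw [Finset.mem_insert, supp_add] at hk
    rcases hk with rfl | rfl | hk
    · exact hji.le
    · exact le_rfl
    · exact h k hk

/-- decomposition of a monomial -/
lemma dec (i : I) (m : I →₀ ℕ) : (∀ k ∈ m.support, i ≤ k) ∨
    ∃ (j : I) (m' : I →₀ ℕ), m = m' + Finsupp.single j 1 ∧ j < i ∧ (∀ k ∈ m'.support, j ≤ k) := by
  by_cases h : ∀ k ∈ m.support, i ≤ k
  · exact Or.inl h
  · right
    push Not at h
    obtain ⟨k, hk, hki⟩ := h
    have hne : m.support.Nonempty := ⟨k, hk⟩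
    set j := m.support.min' hne with hj
    have hjm : j ∈ m.support := Finset.min'_mem _ _
    have hle : Finsupp.single j 1 ≤ m := by
      rw [Finsupp.single_le_iff]
      exact Nat.one_le_iff_ne_zero.2 (Finsupp.mem_support_iff.1 hjm)
    refine ⟨j, m - Finsupp.single j 1, (tsub_add_cancel_of_le hle).symm,
      (Finset.min'_le _ _ hk).trans_lt hki, ?_⟩
    intro k' hk'
    apply Finset.min'_le
    have : k' ∈ (m - Finsupp.single j 1 + Finsupp.single j 1).support :=
      (supp_add _ _ _).2 (Or.inr hk')
    rwa [tsub_add_cancel_of_le hle] at this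

lemma lin_ext {W : Type*} [AddCommGroup W] [Module K W] (φ ψ : MvPolynomial I K →ₗ[K] W) (n : ℕ)
    (h : ∀ m : I →₀ ℕ, dg m ≤ n → φ (mo K m) = ψ (mo K m)) (p : MvPolynomial I K)
    (hp : p.totalDegree ≤ n) : φ p = ψ p := by
  rw [p.as_sum, map_sum, map_sum]
  apply Finset.sum_congr rfl
  intro m hm
  have h1 : dg m ≤ n := (le_totalDegree hm).trans hp
  have h2 : monomial m (coeff m p) = coeff m p • mo K m := by
    rw [mo, smul_monomial, smul_eq_mul, mul_one]
  rw [h2, map_smul, map_smul, h m h1]

lemma deg_ext (φ : MvPolynomial I K →ₗ[K] MvPolynomial I K) (n N : ℕ)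
    (h : ∀ m : I →₀ ℕ, dg m ≤ n → (φ (mo K m)).totalDegree ≤ N) (p : MvPolynomial I K)
    (hp : p.totalDegree ≤ n) : (φ p).totalDegree ≤ N := by
  rw [p.as_sum, map_sum]
  apply totalDegree_finsetSum_le
  intro m hm
  have h1 : dg m ≤ n := (le_totalDegree hm).trans hp
  have h2 : monomial m (coeff m p) = coeff m p • mo K m := by
    rw [mo, smul_monomial, smul_eq_mul, mul_one]
  rw [h2, map_smul]
  exact (totalDegree_smul_le _ _).trans (h m h1)

variable (b : Module.Basis I K L)

/-- the stages of the action -/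
noncomputable def R : ℕ → (L →ₗ[K] Module.End K (MvPolynomial I K))
  | 0 => b.constr K (fun i => LinearMap.mulLeft K (X i))
  | n + 1 => b.constr K (fun i => (basisMonomials I K).constr K (fun m =>
      if mn i m = i then X i * mo K m else
        X i * mo K m +
          R n (b (mn i m)) (R n (b i) (mo K (m - Finsupp.single (mn i m) 1)) -
            X i * mo K (m - Finsupp.single (mn i m) 1)) +
          R n ⁅b i, b (mn i m)⁆ (mo K (m - Finsupp.single (mn i m) 1))))

lemma R_zero (i : I) (p : MvPolynomial I K) : R b 0 (b i) p = X i * p := by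
  simp [R]

lemma R_succ (n : ℕ) (i : I) (m : I →₀ ℕ) : R b (n + 1) (b i) (mo K m) =
    if mn i m = i then X i * mo K m else
        X i * mo K m +
          R b n (b (mn i m)) (R b n (b i) (mo K (m - Finsupp.single (mn i m) 1)) -
            X i * mo K (m - Finsupp.single (mn i m) 1)) +
          R b n ⁅b i, b (mn i m)⁆ (mo K (m - Finsupp.single (mn i m) 1)) := by
  have h : mo K m = basisMonomials I K m := by rw [coe_basisMonomials]
  conv_lhs => rw [h]
  rw [R, Module.Basis.constr_basis, Module.Basis.constr_basis]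

lemma R_le (n : ℕ) {i : I} {m : I →₀ ℕ} (h : ∀ k ∈ m.support, i ≤ k) :
    R b n (b i) (mo K m) = X i * mo K m := by
  cases n with
  | zero => exact R_zero b i _
  | succ n => rw [R_succ, if_pos (mn_of_le h)]

lemma R_lt (n : ℕ) {i j : I} {m : I →₀ ℕ} (h : ∀ k ∈ m.support, j ≤ k) (hji : j < i) :
    R b (n + 1) (b i) (mo K (m + Finsupp.single j 1)) =
      X i * mo K (m + Finsupp.single j 1) +
        R b n (b j) (R b n (b i) (mo K m) - X i * mo K m) + R b n ⁅b i, b j⁆ (mo K m) := by
  rw [R_succ, mn_of_lt h hji, if_neg hji.ne, add_tsub_cancel_right]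

lemma ind (C : L → Prop) (hb : ∀ i, C (b i)) (h0 : C 0) (ha : ∀ x y, C x → C y → C (x + y))
    (hs : ∀ (c : K) x, C x → C (c • x)) (x : L) : C x := by
  have hx : x ∈ Submodule.span K (Set.range b) := by rw [b.span_eq]; trivial
  induction hx using Submodule.span_induction with
  | mem x h => obtain ⟨i, rfl⟩ := h; exact hb i
  | zero => exact h0
  | add x y _ _ hx hy => exact ha x y hx hy
  | smul c x _ hx => exact hs c x hx

lemma degB_of (n : ℕ) (h : ∀ i p, (R b n (b i) p - X i * p).totalDegree ≤ p.totalDegree) (x : L)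
    (p : MvPolynomial I K) : (R b n x p).totalDegree ≤ p.totalDegree + 1 := by
  refine ind b (fun x => (R b n x p).totalDegree ≤ p.totalDegree + 1) ?_ ?_ ?_ ?_ x
  · intro i
    have h1 := h i p
    have h2 : R b n (b i) p = (R b n (b i) p - X i * p) + X i * p := by ring
    rw [h2]
    refine (totalDegree_add _ _).trans (max_le (h1.trans (Nat.le_succ _)) ?_)
    refine (totalDegree_mul _ _).trans ?_
    rw [totalDegree_X]; omega
  · simp
  · intro x y hx hy
    rw [map_add, LinearMap.add_apply]
    exact (totalDegree_add _ _).trans (max_le hx hy)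
  · intro c x hx
    rw [map_smul, LinearMap.smul_apply]
    exact (totalDegree_smul_le _ _).trans hx

lemma degA (n : ℕ) : ∀ i p, (R b n (b i) p - X i * p).totalDegree ≤ p.totalDegree := by
  induction n with
  | zero => intro i p; rw [R_zero]; simp
  | succ n ih =>
    intro i p
    refine deg_ext (R b (n + 1) (b i) - LinearMap.mulLeft K (X i)) p.totalDegree p.totalDegree ?_ p le_rfl
    intro m hm
    refine le_trans ?_ hm
    rw [LinearMap.sub_apply, LinearMap.mulLeft_apply]
    rcases dec i m with h | ⟨j, m', rfl, hj, h⟩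
    · rw [R_le b _ h, sub_self]; simp
    · rw [R_lt b n h hj, dg_add]
      have e : X i * mo K (m' + Finsupp.single j 1) +
          R b n (b j) (R b n (b i) (mo K m') - X i * mo K m') + R b n ⁅b i, b j⁆ (mo K m') -
          X i * mo K (m' + Finsupp.single j 1) =
          R b n (b j) (R b n (b i) (mo K m') - X i * mo K m') + R b n ⁅b i, b j⁆ (mo K m') := by
        ring
      rw [e]
      refine (totalDegree_add _ _).trans (max_le ?_ ?_)
      · refine (degB_of b n ih _ _).trans ?_
        have := ih i (mo K m')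
        rw [td_mo] at this
        omega
      · refine (degB_of b n ih _ _).trans ?_
        rw [td_mo]

lemma stage (n : ℕ) : ∀ (x : L) (p : MvPolynomial I K), p.totalDegree ≤ n →
    R b (n + 1) x p = R b n x p := by
  have red : ∀ n : ℕ, (∀ (i : I) (m : I →₀ ℕ), dg m ≤ n →
      R b (n + 1) (b i) (mo K m) = R b n (b i) (mo K m)) →
      ∀ (x : L) (p : MvPolynomial I K), p.totalDegree ≤ n → R b (n + 1) x p = R b n x p := by
    intro n h x p hp
    refine ind b (fun x => R b (n + 1) x p = R b n x p) ?_ ?_ ?_ ?_ x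
    · intro i
      exact lin_ext _ _ n (fun m hm => h i m hm) p hp
    · simp
    · intro x y hx hy
      rw [map_add, map_add, LinearMap.add_apply, LinearMap.add_apply, hx, hy]
    · intro c x hx
      rw [map_smul, map_smul, LinearMap.smul_apply, LinearMap.smul_apply, hx]
  induction n with
  | zero =>
    apply red
    intro i m hm
    rcases dec i m with h | ⟨j, m', rfl, hj, h⟩
    · rw [R_le b _ h, R_le b _ h]
    · rw [dg_add] at hm; omega
  | succ n ih =>
    apply red
    intro i m hm
    rcases dec i m with h | ⟨j, m', rfl, hj, h⟩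
    · rw [R_le b _ h, R_le b _ h]
    · rw [dg_add] at hm
      have hm' : (mo K m').totalDegree ≤ n := by rw [td_mo]; omega
      rw [R_lt b _ h hj, R_lt b _ h hj, ih (b i) _ hm', ih ⁅b i, b j⁆ _ hm',
        ih (b j) _ ((degA b n i _).trans hm')]

lemma stage' {n k : ℕ} (hnk : n ≤ k) (x : L) (p : MvPolynomial I K) (hp : p.totalDegree ≤ n) :
    R b k x p = R b n x p := by
  induction k, hnk using Nat.le_induction with
  | base => rfl
  | succ k hk ih => rw [stage b k x p (hp.trans hk), ih]

/-- the action -/
noncomputable def rho : L →ₗ[K] Module.End K (MvPolynomial I K) :=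
  b.constr K (fun i => (basisMonomials I K).constr K (fun m => R b (dg m) (b i) (mo K m)))

lemma rho_eq (n : ℕ) (x : L) (p : MvPolynomial I K) (hp : p.totalDegree ≤ n) :
    rho b x p = R b n x p := by
  refine ind b (fun x => rho b x p = R b n x p) ?_ ?_ ?_ ?_ x
  · intro i
    refine lin_ext _ _ n (fun m hm => ?_) p hp
    have h : mo K m = basisMonomials I K m := by rw [coe_basisMonomials]
    conv_lhs => rw [h]
    rw [rho, Module.Basis.constr_basis, Module.Basis.constr_basis]
    exact (stage' b hm _ _ (td_mo m).le).symm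
  · simp
  · intro x y hx hy
    rw [map_add, map_add, LinearMap.add_apply, LinearMap.add_apply, hx, hy]
  · intro c x hx
    rw [map_smul, map_smul, LinearMap.smul_apply, LinearMap.smul_apply, hx]

lemma rho_deg (i : I) (p : MvPolynomial I K) :
    (rho b (b i) p - X i * p).totalDegree ≤ p.totalDegree := by
  rw [rho_eq b p.totalDegree _ p le_rfl]
  exact degA b _ i p

lemma rho_le {i : I} {m : I →₀ ℕ} (h : ∀ k ∈ m.support, i ≤ k) :
    rho b (b i) (mo K m) = X i * mo K m := by
  rw [rho_eq b _ _ _ le_rfl, R_le b _ h]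

lemma rho_lt {i j : I} {m : I →₀ ℕ} (h : ∀ k ∈ m.support, j ≤ k) (hji : j < i) :
    rho b (b i) (mo K (m + Finsupp.single j 1)) =
      X i * mo K (m + Finsupp.single j 1) +
        rho b (b j) (rho b (b i) (mo K m) - X i * mo K m) + rho b ⁅b i, b j⁆ (mo K m) := by
  have h1 : (mo K m).totalDegree ≤ dg m := (td_mo m).le
  rw [rho_eq b (dg m + 1) _ _ (by rw [td_mo, dg_add]), R_lt b _ h hji,
    rho_eq b (dg m) (b i) _ h1, rho_eq b (dg m) ⁅b i, b j⁆ _ h1,
    rho_eq b (dg m) (b j) _ ((degA b _ i _).trans h1)]

/-- commutation on a monomial, first case -/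
lemma com1 {i j : I} {m : I →₀ ℕ} (h : ∀ k ∈ m.support, j ≤ k) (hji : j < i) :
    rho b (b i) (rho b (b j) (mo K m)) - rho b (b j) (rho b (b i) (mo K m)) =
      rho b ⁅b i, b j⁆ (mo K m) := by
  rw [rho_le b h, X_mul_mo, rho_lt b h hji, map_sub, X_mul_mo i m]
  have h2 : rho b (b j) (mo K (m + Finsupp.single i 1)) = X j * mo K (m + Finsupp.single i 1) := by
    apply rho_le
    intro k hk
    rw [supp_add] at hk
    rcases hk with rfl | hk
    · exact hji.le
    · exact h k hk
  rw [h2, ← X_mul_mo i m, ← X_mul_mo j m]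
  ring

lemma com (n : ℕ) : ∀ (x y : L) (p : MvPolynomial I K), p.totalDegree < n →
    rho b x (rho b y p) - rho b y (rho b x p) = rho b ⁅x, y⁆ p := by
  induction n with
  | zero => intro x y p hp; omega
  | succ n ih =>
    -- second case
    have com2 : ∀ (i j k : I) (P : I →₀ ℕ), k < i → k < j → (∀ l ∈ P.support, k ≤ l) → dg P < n →
        rho b (b i) (rho b (b j) (mo K (P + Finsupp.single k 1))) =
        rho b (b k) (rho b (b i) (rho b (b j) (mo K P))) + rho b ⁅b i, b k⁆ (rho b (b j) (mo K P)) +
        rho b ⁅b j, b k⁆ (rho b (b i) (mo K P)) + rho b ⁅b i, ⁅b j, b k⁆⁆ (mo K P) := by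
      intro i j k P hki hkj hP hd
      have hP' : (mo K P).totalDegree < n := by rw [td_mo]; exact hd
      have e1 : mo K (P + Finsupp.single k 1) = rho b (b k) (mo K P) := by
        rw [rho_le b hP, X_mul_mo]
      have e2 := ih (b j) (b k) (mo K P) hP'
      have e3 := ih (b i) ⁅b j, b k⁆ (mo K P) hP'
      -- the case (i, k) on X_j P
      have e4 : rho b (b i) (rho b (b k) (X j * mo K P)) - rho b (b k) (rho b (b i) (X j * mo K P)) =
          rho b ⁅b i, b k⁆ (X j * mo K P) := by
        rw [X_mul_mo]
        apply com1 b _ hki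
        intro l hl
        rw [supp_add] at hl
        rcases hl with rfl | hl
        · exact hkj.le
        · exact hP l hl
      have e5 := ih (b i) (b k) (rho b (b j) (mo K P) - X j * mo K P)
        ((rho_deg b j _).trans_lt hP')
      have e6 : rho b (b i) (rho b (b k) (rho b (b j) (mo K P))) -
          rho b (b k) (rho b (b i) (rho b (b j) (mo K P))) =
          rho b ⁅b i, b k⁆ (rho b (b j) (mo K P)) := by
        have e7 := congrArg₂ (· + ·) e4 e5
        simp only [map_sub] at e7
        linear_combination e7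
      rw [e1]
      have e8 : rho b (b j) (rho b (b k) (mo K P)) =
          rho b (b k) (rho b (b j) (mo K P)) + rho b ⁅b j, b k⁆ (mo K P) := by
        linear_combination e2
      rw [e8, map_add]
      linear_combination e6 + e3
    -- basis elements and monomials
    have com3 : ∀ (i j : I) (m : I →₀ ℕ), dg m < n + 1 →
        rho b (b i) (rho b (b j) (mo K m)) - rho b (b j) (rho b (b i) (mo K m)) =
          rho b ⁅b i, b j⁆ (mo K m) := by
      intro i j m hm
      have two : ∀ (k : I) (P : I →₀ ℕ), m = P + Finsupp.single k 1 → k < i → k < j →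
          (∀ l ∈ P.support, k ≤ l) →
          rho b (b i) (rho b (b j) (mo K m)) - rho b (b j) (rho b (b i) (mo K m)) =
          rho b ⁅b i, b j⁆ (mo K m) := by
        rintro k P rfl hki hkj hP
        rw [dg_add] at hm
        have hd : dg P < n := by omega
        have hP' : (mo K P).totalDegree < n := by rw [td_mo]; exact hd
        rw [com2 i j k P hki hkj hP hd, com2 j i k P hkj hki hP hd]
        have e1 : mo K (P + Finsupp.single k 1) = rho b (b k) (mo K P) := by
          rw [rho_le b hP, X_mul_mo]
        have e2 := congrArg (rho b (b k)) (ih (b i) (b j) (mo K P) hP')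
        have e3 := ih (b k) ⁅b i, b j⁆ (mo K P) hP'
        rw [e1]
        have e4 : rho b ⁅b k, ⁅b i, b j⁆⁆ (mo K P) + rho b ⁅b i, ⁅b j, b k⁆⁆ (mo K P) -
            rho b ⁅b j, ⁅b i, b k⁆⁆ (mo K P) = 0 := by
          rw [← LinearMap.add_apply, ← LinearMap.sub_apply, ← map_add, ← map_sub]
          have : ⁅b k, ⁅b i, b j⁆⁆ + ⁅b i, ⁅b j, b k⁆⁆ - ⁅b j, ⁅b i, b k⁆⁆ = 0 := by
            have hj := lie_jacobi (b i) (b j) (b k)
            rw [← lie_skew (b i) (b k), lie_neg, sub_neg_eq_add, ← hj]
            abel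
          rw [this]; simp
        rw [map_sub] at e2
        linear_combination e2 + e3 + e4
      rcases lt_trichotomy i j with hij | rfl | hij
      · rcases dec i m with h | ⟨k, P, hm', hk, hP⟩
        · have := com1 b h hij
          rw [← lie_skew, map_neg, LinearMap.neg_apply, ← this]
          ring
        · exact two k P hm' hk (hk.trans hij) hP
      · simp
      · rcases dec j m with h | ⟨k, P, hm', hk, hP⟩
        · exact com1 b h hij
        · exact two k P hm' (hk.trans hij) hk hP
    intro x y p hp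
    refine lin_ext (rho b x ∘ₗ rho b y - rho b y ∘ₗ rho b x) (rho b ⁅x, y⁆) n ?_ p (by omega)
    intro m hm
    rw [LinearMap.sub_apply, LinearMap.comp_apply, LinearMap.comp_apply]
    refine ind b (fun x => rho b x (rho b y (mo K m)) - rho b y (rho b x (mo K m)) =
      rho b ⁅x, y⁆ (mo K m)) ?_ ?_ ?_ ?_ x
    · intro i
      refine ind b (fun y => rho b (b i) (rho b y (mo K m)) - rho b y (rho b (b i) (mo K m)) =
        rho b ⁅b i, y⁆ (mo K m)) ?_ ?_ ?_ ?_ y
      · intro j
        exact com3 i j m (by omega)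
      · simp
      · intro y z hy hz
        simp only [map_add, lie_add, LinearMap.add_apply]
        rw [← hy, ← hz]; ring
      · intro c y hy
        simp only [map_smul, lie_smul, LinearMap.smul_apply]
        rw [← hy, smul_sub]
    · simp
    · intro y z hy hz
      simp only [map_add, add_lie, LinearMap.add_apply]
      rw [← hy, ← hz]; ring
    · intro c y hy
      simp only [map_smul, smul_lie, LinearMap.smul_apply]
      rw [← hy, smul_sub]

theorem t_PBW2 (K : Type*) [Field K] (L : Type*) [LieRing L] [LieAlgebra K L] (I : Type*)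
    [LinearOrder I] (b : Module.Basis I K L) :
    ∃ ρ : L →ₗ[K] Module.End K (MvPolynomial I K),
    (∀ x y : L, ρ ⁅x, y⁆ = ρ x * ρ y - ρ y * ρ x) ∧
    ∀ (i : I) (p : MvPolynomial I K),
      (ρ (b i) p - MvPolynomial.X i * p).totalDegree ≤ p.totalDegree := by
  refine ⟨rho b, ?_, rho_deg b⟩
  intro x y
  refine LinearMap.ext fun p => ?_
  rw [LinearMap.sub_apply, Module.End.mul_apply, Module.End.mul_apply]
  exact (com b (p.totalDegree + 1) x y p (Nat.lt_succ_self _)).symm

end PBW2



section DOMaux

open MvPolynomial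

/-- polynomials of total degree less than `k` -/
noncomputable def Lt (K : Type*) [Field K] (I : Type*) : ℕ → Submodule K (MvPolynomial I K)
  | 0 => ⊥
  | k + 1 => restrictTotalDegree I K k

variable {K : Type*} [Field K] {I : Type*}

lemma mem_Lt_succ {k : ℕ} {p : MvPolynomial I K} : p ∈ Lt K I (k + 1) ↔ p.totalDegree ≤ k :=
  mem_restrictTotalDegree _ _ _

lemma mem_Lt_zero {p : MvPolynomial I K} : p ∈ Lt K I 0 ↔ p = 0 := Submodule.mem_bot K

lemma Lt_mono {k l : ℕ} (h : k ≤ l) : Lt K I k ≤ Lt K I l := by
  intro p hp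
  cases l with
  | zero =>
    have : k = 0 := by omega
    subst this
    exact hp
  | succ l =>
    rw [mem_Lt_succ]
    cases k with
    | zero =>
      rw [mem_Lt_zero] at hp
      subst hp
      simp
    | succ k =>
      rw [mem_Lt_succ] at hp
      omega

lemma not_mem_Lt {k : ℕ} {p : MvPolynomial I K} (hp : p ≠ 0) (h : k ≤ p.totalDegree) :
    p ∉ Lt K I k := by
  intro hm
  cases k with
  | zero => exact hp (mem_Lt_zero.1 hm)
  | succ k =>
    rw [mem_Lt_succ] at hm
    omega

variable {L : Type*} [LieRing L] [LieAlgebra K L] (b : Module.Basis I K L)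
  (ρ : L →ₗ[K] Module.End K (MvPolynomial I K))

lemma step1 (hρ : ∀ (i : I) (p : MvPolynomial I K),
      (ρ (b i) p - X i * p).totalDegree ≤ p.totalDegree) (i : I) {k : ℕ}
    {p : MvPolynomial I K} (hp : p ∈ Lt K I k) : ρ (b i) p ∈ Lt K I (k + 1) := by
  cases k with
  | zero =>
    rw [mem_Lt_zero] at hp
    subst hp
    rw [map_zero]
    exact Submodule.zero_mem _
  | succ k =>
    rw [mem_Lt_succ] at hp ⊢
    have e : ρ (b i) p = (ρ (b i) p - X i * p) + X i * p := by ring
    rw [e]
    refine (totalDegree_add _ _).trans (max_le ((hρ i p).trans (by omega)) ?_)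
    refine (totalDegree_mul _ _).trans ?_
    rw [totalDegree_X]
    omega

lemma step2 (hρ : ∀ (i : I) (p : MvPolynomial I K),
      (ρ (b i) p - X i * p).totalDegree ≤ p.totalDegree) (i : I) {n : ℕ}
    {p : MvPolynomial I K} (hp : p.totalDegree ≤ n) : ρ (b i) p - X i * p ∈ Lt K I (n + 1) := by
  rw [mem_Lt_succ]
  exact (hρ i p).trans hp

lemma deg_prod (l : List I) :
    ((l.map (fun i => (X i : MvPolynomial I K))).prod).totalDegree ≤ l.length := by
  induction l with
  | nil => simp
  | cons i l ih =>
    rw [List.map_cons, List.prod_cons, List.length_cons]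
    refine (totalDegree_mul _ _).trans ?_
    rw [totalDegree_X]
    omega

/-- action of a product of elements of the basis -/
lemma act_prod {U : Type*} [Ring U] [Algebra K U] (g : I → U)
    (Φ : U →ₐ[K] Module.End K (MvPolynomial I K)) (hΦ : ∀ i, Φ (g i) = ρ (b i))
    (hρ : ∀ (i : I) (p : MvPolynomial I K),
      (ρ (b i) p - X i * p).totalDegree ≤ p.totalDegree) (l : List I) {n : ℕ}
    {p : MvPolynomial I K} (hp : p.totalDegree ≤ n) :
    Φ ((l.map g).prod) p - (l.map (fun i => (X i : MvPolynomial I K))).prod * p ∈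
      Lt K I (l.length + n) := by
  induction l with
  | nil => simp
  | cons i l ih =>
    rw [List.map_cons, List.prod_cons, List.map_cons, List.prod_cons, List.length_cons, map_mul,
      hΦ]
    set q := Φ ((l.map g).prod) p with hq
    set q0 := (l.map (fun i => (X i : MvPolynomial I K))).prod * p with hq0
    have hd0 : q0.totalDegree ≤ l.length + n := by
      refine (totalDegree_mul _ _).trans ?_
      have := deg_prod (K := K) l
      omega
    have e : (ρ (b i) * Φ ((l.map g).prod)) p -
        X i * (l.map (fun i => (X i : MvPolynomial I K))).prod * p =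
        ρ (b i) (q - q0) + (ρ (b i) q0 - X i * q0) := by
      rw [map_sub, Module.End.mul_apply, ← hq, mul_assoc, ← hq0]
      ring
    rw [e]
    have h1 := step1 b ρ hρ i ih
    have h2 := step2 b ρ hρ i hd0
    have e2 : l.length + 1 + n = l.length + n + 1 := by ring
    rw [e2]
    exact Submodule.add_mem _ h1 h2

/-- the sorted list of a monomial -/
noncomputable def lst [LinearOrder I] (s : I →₀ ℕ) : List I := (Finsupp.toMultiset s).sort (· ≤ ·)

lemma lst_length [LinearOrder I] (s : I →₀ ℕ) : (lst s).length = s.sum fun _ e => e := by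
  unfold lst
  rw [← Multiset.coe_card, Multiset.sort_eq, Finsupp.card_toMultiset]
  rfl

lemma lst_prod [LinearOrder I] (s : I →₀ ℕ) :
    ((lst s).map (fun i => (X i : MvPolynomial I K))).prod = monomial s 1 := by
  have h1 : ((lst s).map (fun i => (X i : MvPolynomial I K))).prod =
      ((Finsupp.toMultiset s).map (fun i => (X i : MvPolynomial I K))).prod := by
    rw [← Multiset.sort_eq (Finsupp.toMultiset s) (· ≤ ·)]
    rw [Multiset.map_coe, Multiset.prod_coe]
    rfl
  rw [h1, monomial_eq, C_1, one_mul]
  rw [Finsupp.toMultiset_map, Finsupp.prod_toMultiset]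
  rw [Finsupp.prod_mapDomain_index (by simp) (by intro a m n; rw [pow_add])]

lemma lst_of_sorted [LinearOrder I] {inst : DecidableEq I} (m : List I)
    (hm : m.Pairwise (· ≤ ·)) :
    lst (@Multiset.toFinsupp I inst (m : Multiset I)) = m := by
  unfold lst
  rw [Multiset.toFinsupp_toMultiset]
  have h1 : (Multiset.sort (m : Multiset I) (· ≤ ·)).Perm m := by
    rw [← Multiset.coe_eq_coe, Multiset.sort_eq]
  exact h1.eq_of_pairwise' (Multiset.pairwise_sort _ _) hm

/-- the symmetrisation-free PBW map -/
noncomputable def Psi [LinearOrder I] {U : Type*} [Ring U] [Algebra K U] (g : I → U) :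
    MvPolynomial I K →ₗ[K] U :=
  (basisMonomials I K).constr K fun s => ((lst s).map g).prod

lemma Psi_monomial [LinearOrder I] {U : Type*} [Ring U] [Algebra K U] (g : I → U) (s : I →₀ ℕ)
    (c : K) : Psi (K := K) g (monomial s c) = c • ((lst s).map g).prod := by
  have e : (monomial s c : MvPolynomial I K) = c • basisMonomials I K s := by
    rw [coe_basisMonomials, smul_monomial, smul_eq_mul, mul_one]
  rw [e, map_smul, Psi, Module.Basis.constr_basis]

lemma act_Psi [LinearOrder I] {U : Type*} [Ring U] [Algebra K U] (g : I → U)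
    (Φ : U →ₐ[K] Module.End K (MvPolynomial I K)) (hΦ : ∀ i, Φ (g i) = ρ (b i))
    (hρ : ∀ (i : I) (p : MvPolynomial I K),
      (ρ (b i) p - X i * p).totalDegree ≤ p.totalDegree) {m n : ℕ} {σ p : MvPolynomial I K}
    (hσ : σ.totalDegree ≤ m) (hp : p.totalDegree ≤ n) :
    Φ (Psi (K := K) g σ) p - σ * p ∈ Lt K I (m + n) := by
  have e : Φ (Psi (K := K) g σ) p - σ * p = ∑ s ∈ σ.support, coeff s σ •
      (Φ (((lst s).map g).prod) p - ((lst s).map (fun i => (X i : MvPolynomial I K))).prod * p) := by
    conv_lhs => rw [as_sum σ]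
    rw [map_sum, map_sum, LinearMap.sum_apply, Finset.sum_mul, ← Finset.sum_sub_distrib]
    refine Finset.sum_congr rfl fun s _ => ?_
    rw [Psi_monomial, map_smul, LinearMap.smul_apply, smul_sub, lst_prod]
    congr 1
    rw [← smul_mul_assoc, smul_monomial, smul_eq_mul, mul_one]
  rw [e]
  refine Submodule.sum_mem _ fun s hs => Submodule.smul_mem _ _ ?_
  have h1 := act_prod b ρ g Φ hΦ hρ (lst s) hp
  refine Lt_mono ?_ h1
  have h2 := le_totalDegree hs
  rw [lst_length]
  omega

lemma act_ne [LinearOrder I] {U : Type*} [Ring U] [Algebra K U] (g : I → U)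
    (Φ : U →ₐ[K] Module.End K (MvPolynomial I K)) (hΦ : ∀ i, Φ (g i) = ρ (b i))
    (hρ : ∀ (i : I) (p : MvPolynomial I K),
      (ρ (b i) p - X i * p).totalDegree ≤ p.totalDegree) {σ p : MvPolynomial I K}
    (hσ : σ ≠ 0) (hp : p ≠ 0) : Φ (Psi (K := K) g σ) p ≠ 0 := by
  intro h0
  have h1 := act_Psi b ρ g Φ hΦ hρ (le_refl σ.totalDegree) (le_refl p.totalDegree)
  rw [h0, zero_sub, Submodule.neg_mem_iff] at h1
  refine not_mem_Lt (mul_ne_zero hσ hp) ?_ h1
  rw [totalDegree_mul_of_isDomain hσ hp]

section Gen

variable {L : Type*} [LieRing L] [LieAlgebra K L]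

/-- the enveloping algebra is generated by the images of a basis -/
lemma adjoin_top {I : Type*} (b : Module.Basis I K L) :
    Algebra.adjoin K (Set.range fun i => UniversalEnvelopingAlgebra.ι K (b i)) = ⊤ := by
  set A0 := Algebra.adjoin K (Set.range fun i => UniversalEnvelopingAlgebra.ι K (b i)) with hA0
  have hι : ∀ x : L, UniversalEnvelopingAlgebra.ι K x ∈ A0 := by
    intro x
    rw [← b.linearCombination_repr x, Finsupp.linearCombination_apply, Finsupp.sum, map_sum]
    refine Subalgebra.sum_mem _ fun i _ => ?_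
    rw [map_smul]
    exact Subalgebra.smul_mem _ (Algebra.subset_adjoin (Set.mem_range_self (f := fun i =>
      UniversalEnvelopingAlgebra.ι K (b i)) i)) _
  have key : ∀ t : TensorAlgebra K L, UniversalEnvelopingAlgebra.mkAlgHom K L t ∈ A0 := by
    intro t
    refine TensorAlgebra.induction
      (C := fun t => UniversalEnvelopingAlgebra.mkAlgHom K L t ∈ A0) ?_ ?_ ?_ ?_ t
    · intro r
      rw [AlgHom.commutes]
      exact Subalgebra.algebraMap_mem _ _
    · intro x
      exact hι x
    · intro x y hx hy
      rw [map_mul]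
      exact Subalgebra.mul_mem _ hx hy
    · intro x y hx hy
      rw [map_add]
      exact Subalgebra.add_mem _ hx hy
  have hsurj : Function.Surjective (UniversalEnvelopingAlgebra.mkAlgHom K L) := by
    intro u
    obtain ⟨t, ht⟩ := Quotient.exists_rep u
    exact ⟨t, ht⟩
  rw [eq_top_iff]
  intro u _
  obtain ⟨t, rfl⟩ := hsurj u
  exact key t

lemma mem_closure_range {U : Type*} [Ring U] {I : Type*} (g : I → U) {z : U}
    (hz : z ∈ Submonoid.closure (Set.range g)) : ∃ l : List I, z = (l.map g).prod := by
  induction hz using Submonoid.closure_induction with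
  | mem x hx =>
    obtain ⟨i, rfl⟩ := hx
    exact ⟨[i], by simp⟩
  | one => exact ⟨[], by simp⟩
  | mul x y _ _ hx hy =>
    obtain ⟨l, rfl⟩ := hx
    obtain ⟨l', rfl⟩ := hy
    exact ⟨l ++ l', by simp⟩

end Gen

end DOMaux

section sort

variable {K : Type*} [Field K] {A : Type*} [Ring A] [Algebra K A] {B : Type*} [LinearOrder B]

/-- the span of the products of lists of length less than `k` and weight at most `n` -/
def SORT_P (K : Type*) [Field K] {A : Type*} [Ring A] [Algebra K A] {B : Type*}
    (g : B → A) (f : B → ℕ) (k n : ℕ) : Submodule K A :=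
  Submodule.span K {z | ∃ m : List B, m.length < k ∧ wl f m ≤ n ∧ z = (m.map g).prod}

theorem SORT_mul_left (g : B → A) (f : B → ℕ) (a : B) (k n : ℕ) (z : A)
    (hz : z ∈ SORT_P K g f k n) : g a * z ∈ SORT_P K g f (k + 1) (f a + n) := by
  unfold SORT_P at hz
  induction hz using Submodule.span_induction with
  | mem z h =>
    obtain ⟨m, h1, h2, rfl⟩ := h
    apply Submodule.subset_span
    refine ⟨a :: m, ?_, ?_, ?_⟩
    · simp only [List.length_cons]; omega
    · simp only [wl, List.map_cons, List.sum_cons] at h2 ⊢; omega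
    · simp
  | zero => rw [mul_zero]; exact Submodule.zero_mem _
  | add x y _ _ hx hy => rw [mul_add]; exact Submodule.add_mem _ hx hy
  | smul c x _ hx => rw [mul_smul_comm]; exact Submodule.smul_mem _ _ hx

theorem SORT_mul_right (g : B → A) (f : B → ℕ) (l : List B) (n : ℕ) (z : A)
    (hz : z ∈ Submodule.span K {z | ∃ δ, f δ ≤ n ∧ z = g δ}) :
    z * (l.map g).prod ∈ SORT_P K g f (l.length + 2) (n + wl f l) := by
  induction hz using Submodule.span_induction with
  | mem z h =>
    obtain ⟨δ, h1, rfl⟩ := h
    apply Submodule.subset_span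
    refine ⟨δ :: l, ?_, ?_, ?_⟩
    · simp only [List.length_cons]; omega
    · simp only [wl, List.map_cons, List.sum_cons]; omega
    · simp
  | zero => rw [zero_mul]; exact Submodule.zero_mem _
  | add x y _ _ hx hy => rw [add_mul]; exact Submodule.add_mem _ hx hy
  | smul c x _ hx => rw [smul_mul_assoc]; exact Submodule.smul_mem _ _ hx

theorem SORT_wl_perm (f : B → ℕ) {l l' : List B} (h : l.Perm l') : wl f l = wl f l' := by
  unfold wl
  exact (h.map f).sum_eq

theorem SORT_perm (g : B → A) (f : B → ℕ)
    (hg : ∀ β γ, g β * g γ - g γ * g β ∈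
      Submodule.span K {z | ∃ δ, f δ ≤ f β + f γ ∧ z = g δ}) {l l' : List B} (h : l.Perm l') :
    (l.map g).prod - (l'.map g).prod ∈ SORT_P K g f l.length (wl f l) := by
  induction h with
  | nil => simp
  | cons a _ ih =>
    rename_i l₁ l₂ _
    have h1 := SORT_mul_left g f a _ _ _ ih
    rw [mul_sub] at h1
    simpa [wl] using h1
  | swap a b l =>
    have h1 := SORT_mul_right g f l _ _ (hg b a)
    have e1 : (((b :: a :: l).map g).prod - ((a :: b :: l).map g).prod) =
        (g b * g a - g a * g b) * (l.map g).prod := by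
      simp only [List.map_cons, List.prod_cons]
      rw [sub_mul, mul_assoc, mul_assoc]
    rw [e1]
    have e2 : wl f (b :: a :: l) = f b + f a + wl f l := by
      simp only [wl, List.map_cons, List.sum_cons]; omega
    rw [e2]
    exact h1
  | trans h1 h2 ih1 ih2 =>
    rename_i l₁ l₂ l₃
    rw [← h1.length_eq, ← SORT_wl_perm f h1] at ih2
    have := Submodule.add_mem _ ih1 ih2
    rwa [sub_add_sub_cancel] at this

end sort

theorem t_SORT (K : Type*) [Field K] (A : Type*) [Ring A] [Algebra K A] (B : Type*)
    [LinearOrder B] (g : B → A) (f : B → ℕ)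
    (hg : ∀ β γ, g β * g γ - g γ * g β ∈ Submodule.span K {z | ∃ δ, f δ ≤ f β + f γ ∧ z = g δ})
    (l : List B) : (l.map g).prod ∈ Submodule.span K
      {z | ∃ m : List B, m.Pairwise (· ≤ ·) ∧ wl f m ≤ wl f l ∧ z = (m.map g).prod} := by
  have key : ∀ (n : ℕ) (l : List B), l.length = n → (l.map g).prod ∈
      Submodule.span K {z | ∃ m : List B, m.Pairwise (· ≤ ·) ∧ wl f m ≤ wl f l ∧
        z = (m.map g).prod} := by
    intro n
    induction n using Nat.strong_induction_on with
    | _ n ih =>
      intro l hl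
      have hp : l.Perm (l.insertionSort (· ≤ ·)) := (List.perm_insertionSort (· ≤ ·) l).symm
      have h1 := SORT_perm (K := K) g f hg hp
      have h2 : SORT_P K g f l.length (wl f l) ≤
          Submodule.span K {z | ∃ m : List B, m.Pairwise (· ≤ ·) ∧ wl f m ≤ wl f l ∧
            z = (m.map g).prod} := by
        apply Submodule.span_le.mpr
        rintro z ⟨m, h3, h4, rfl⟩
        have h5 := ih m.length (by omega) m rfl
        refine Submodule.span_mono ?_ h5
        rintro z ⟨m', h6, h7, h8⟩
        exact ⟨m', h6, h7.trans h4, h8⟩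
      have h3 : ((l.insertionSort (· ≤ ·)).map g).prod ∈
          Submodule.span K {z | ∃ m : List B, m.Pairwise (· ≤ ·) ∧ wl f m ≤ wl f l ∧
            z = (m.map g).prod} := by
        apply Submodule.subset_span
        refine ⟨l.insertionSort (· ≤ ·), ?_, (SORT_wl_perm f hp).ge, rfl⟩
        exact List.pairwise_insertionSort (· ≤ ·) l
      have h4 := Submodule.add_mem _ (h2 h1) h3
      rwa [sub_add_cancel] at h4
  exact key l.length l rfl


/-- The Poincaré–Birkhoff–Witt basis. -/
theorem exists_basis (K : Type*) [Field K] (L : Type*) [LieRing L] [LieAlgebra K L] (I : Type*)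
    [LinearOrder I] (b : Module.Basis I K L) :
    ∃ β : Module.Basis {l : List I // l.Pairwise (· ≤ ·)} K (UniversalEnvelopingAlgebra K L),
      ∀ l, β l = (l.1.map (fun i => UniversalEnvelopingAlgebra.ι K (b i))).prod := by
  classical
  obtain ⟨ρ, hlie, hρ⟩ := t_PBW2 K L I b
  obtain ⟨Φ, hΦ'⟩ : ∃ Φ : UniversalEnvelopingAlgebra K L →ₐ[K]
      Module.End K (MvPolynomial I K), ∀ x, Φ (UniversalEnvelopingAlgebra.ι K x) = ρ x := by
    let _ : LieRing (Module.End K (MvPolynomial I K)) := LieRing.ofAssociativeRing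
    let ρ' : L →ₗ⁅K⁆ Module.End K (MvPolynomial I K) :=
      { ρ with
        map_lie' := by
          intro x y
          rw [LieRing.of_associative_ring_bracket]
          exact hlie x y }
    exact ⟨UniversalEnvelopingAlgebra.lift K ρ', fun x =>
      UniversalEnvelopingAlgebra.lift_ι_apply K ρ' x⟩
  set g : I → UniversalEnvelopingAlgebra K L := fun i => UniversalEnvelopingAlgebra.ι K (b i)
    with hg
  have hΦ : ∀ i, Φ (g i) = ρ (b i) := fun i => hΦ' (b i)
  have hne : ∀ {σ p : MvPolynomial I K}, σ ≠ 0 → p ≠ 0 → Φ (Psi (K := K) g σ) p ≠ 0 :=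
    fun hσ hp => act_ne b ρ g Φ hΦ hρ hσ hp
  have hspan : ∀ x : L, UniversalEnvelopingAlgebra.ι K x ∈ Submodule.span K (Set.range g) := by
    intro x
    rw [← b.linearCombination_repr x, Finsupp.linearCombination_apply, Finsupp.sum, map_sum]
    refine Submodule.sum_mem _ fun i _ => ?_
    rw [map_smul]
    exact Submodule.smul_mem _ _ (Submodule.subset_span ⟨i, rfl⟩)
  have hcomm : ∀ β γ, g β * g γ - g γ * g β ∈ Submodule.span K
      {z | ∃ δ, (fun _ : I => 1) δ ≤ (fun _ : I => 1) β + (fun _ : I => 1) γ ∧ z = g δ} := by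
    intro β γ
    have e : g β * g γ - g γ * g β = UniversalEnvelopingAlgebra.ι K ⁅b β, b γ⁆ := by
      let _ : LieRing (UniversalEnvelopingAlgebra K L) := LieRing.ofAssociativeRing
      rw [LieHom.map_lie, LieRing.of_associative_ring_bracket]
    rw [e]
    refine Submodule.span_mono ?_ (hspan _)
    rintro _ ⟨i, rfl⟩
    exact ⟨i, by simp, rfl⟩
  have hrange : ∀ l : List I, (l.map g).prod ∈ LinearMap.range (Psi (K := K) g) := by
    intro l
    have h3 := t_SORT K (UniversalEnvelopingAlgebra K L) I g (fun _ => 1) hcomm l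
    refine Submodule.span_le.2 ?_ h3
    rintro _ ⟨m, hm, _, rfl⟩
    refine ⟨MvPolynomial.monomial (Multiset.toFinsupp (m : Multiset I)) 1, ?_⟩
    rw [Psi_monomial, one_smul, lst_of_sorted m hm]
  have hsurj : Function.Surjective (Psi (K := K) g) := by
    intro u
    have h4 : u ∈ Algebra.adjoin K (Set.range g) := by
      have := adjoin_top b
      change Algebra.adjoin K (Set.range g) = ⊤ at this
      rw [this]
      exact Algebra.mem_top
    rw [← Subalgebra.mem_toSubmodule, Algebra.adjoin_eq_span] at h4
    have h5 : Submodule.span K (Submonoid.closure (Set.range g) : Set _) ≤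
        LinearMap.range (Psi (K := K) g) := by
      rw [Submodule.span_le]
      intro z hz
      obtain ⟨l, rfl⟩ := mem_closure_range g hz
      exact hrange l
    exact h5 h4
  have hinj : Function.Injective (Psi (K := K) g) := by
    rw [injective_iff_map_eq_zero]
    intro σ h0
    by_contra hσ
    refine hne hσ (one_ne_zero (α := MvPolynomial I K)) ?_
    rw [h0, map_zero]
    rfl
  let e : MvPolynomial I K ≃ₗ[K] UniversalEnvelopingAlgebra K L :=
    LinearEquiv.ofBijective (Psi (K := K) g) ⟨hinj, hsurj⟩
  let eq : (I →₀ ℕ) ≃ {l : List I // l.Pairwise (· ≤ ·)} :=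
    { toFun := fun s => ⟨lst s, Multiset.pairwise_sort _ _⟩
      invFun := fun l => Multiset.toFinsupp (l.1 : Multiset I)
      left_inv := by
        intro s
        change Multiset.toFinsupp ((lst s : List I) : Multiset I) = s
        unfold lst
        rw [Multiset.sort_eq, Finsupp.toMultiset_toFinsupp]
      right_inv := fun l => Subtype.ext (lst_of_sorted l.1 l.2) }
  refine ⟨((MvPolynomial.basisMonomials I K).map e).reindex eq, ?_⟩
  intro l
  rw [Module.Basis.reindex_apply, Module.Basis.map_apply, MvPolynomial.coe_basisMonomials]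
  change Psi (K := K) g (MvPolynomial.monomial (Multiset.toFinsupp (l.1 : Multiset I)) 1) = _
  rw [Psi_monomial, one_smul, lst_of_sorted l.1 l.2]


end Pool.Agent.J4.H4.ML.PBWU
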