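import Pool.Agent.J4.H4.ML.Kid
import Pool.Agent.J4.H4.ML.PBWU

/-!
For a metabelian Lie algebra the derived algebra meets `ω J` trivially.
-/

namespace Pool.Agent.J4.H4.ML

open MvPolynomial

variable {F : Type*} [Field F] {L : Type*} [LieRing L] [LieAlgebra F L] {n : ℕ}

theorem comm_prod {I U : Type*} [Ring U] (g : I → U) (t : U) (l : List I)
    (h : ∀ k ∈ l, g k * t = t * g k) : (l.map g).prod * t = t * (l.map g).prod := by
  induction l with
  | nil => simp
  | cons i l ih =>
    rw [List.map_cons, List.prod_cons, mul_assoc, ih (fun k hk => h k (List.mem_cons_of_mem _ hk)),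
      ← mul_assoc, h i (List.mem_cons_self), mul_assoc]

theorem insert_prod {α β U : Type*} [LinearOrder α] [LinearOrder β] [Ring U]
    (g : Lex (α ⊕ β) → U)
    (hc : ∀ s t : β, g (toLex (Sum.inr s)) * g (toLex (Sum.inr t)) =
      g (toLex (Sum.inr t)) * g (toLex (Sum.inr s)))
    (t : β) (l : List (Lex (α ⊕ β))) (hl : l.Pairwise (· ≤ ·)) :
    (l.map g).prod * g (toLex (Sum.inr t)) =
      ((l.orderedInsert (· ≤ ·) (toLex (Sum.inr t))).map g).prod := by
  induction l with
  | nil => simp
  | cons i l ih =>
    rw [List.orderedInsert_cons]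
    by_cases h : toLex (Sum.inr t) ≤ i
    · rw [if_pos h]
      rw [comm_prod g (g (toLex (Sum.inr t))) (i :: l)]
      · rw [List.map_cons (l := i :: l), List.prod_cons]
      · intro k hk
        have hk' : toLex (Sum.inr t) ≤ k := by
          rcases List.mem_cons.1 hk with rfl | hk
          · exact h
          · exact h.trans ((List.pairwise_cons.1 hl).1 k hk)
        rcases h2 : ofLex k with s | s
        · have h3 : k = toLex (Sum.inl s) := by rw [← h2]; rfl
          rw [h3] at hk'
          exact absurd hk' Sum.Lex.not_inr_le_inl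
        · have h3 : k = toLex (Sum.inr s) := by rw [← h2]; rfl
          rw [h3]
          exact hc s t
    · rw [if_neg h, List.map_cons, List.prod_cons, List.map_cons, List.prod_cons, mul_assoc,
        ih (List.pairwise_cons.1 hl).2]

theorem exists_adapted (c : Coord F L n) {d : ℕ} (bD : Module.Basis (Fin d) F (Der F L)) :
    ∃ b : Module.Basis (Lex (Fin n ⊕ Fin d)) F L,
      ∀ s, b (toLex (Sum.inr s)) = (bD s : L) := by
  let e : L ≃ₗ[F] (Fin n → F) × Der F L :=
    { toFun := fun x => (fun i => c.χ i x, ⟨x - ∑ i, c.χ i x • c.x i, c.span x⟩)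
      map_add' := by
        intro x y
        refine Prod.ext ?_ ?_
        · funext i
          simp
        · apply Subtype.ext
          simp only [map_add, add_smul, Finset.sum_add_distrib, Prod.snd_add, Submodule.coe_add]
          abel
      map_smul' := by
        intro r x
        refine Prod.ext ?_ ?_
        · funext i
          simp
        · apply Subtype.ext
          simp only [map_smul, smul_eq_mul, RingHom.id_apply, Prod.smul_snd, Submodule.coe_smul,
            smul_sub, Finset.smul_sum, mul_smul]
      invFun := fun p => (∑ i, p.1 i • c.x i) + p.2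
      left_inv := by
        intro x
        simp only
        abel
      right_inv := by
        rintro ⟨v, a⟩
        have h1 : ∀ i, c.χ i ((∑ k, v k • c.x k) + a) = v i := by
          intro i
          rw [map_add, c.χder i a a.2, add_zero, map_sum, Finset.sum_eq_single i]
          · rw [map_smul, c.χx, if_pos rfl, smul_eq_mul, mul_one]
          · intro k _ hk
            rw [map_smul, c.χx, if_neg (Ne.symm hk), smul_zero]
          · intro h
            exact absurd (Finset.mem_univ i) h
        refine Prod.ext ?_ ?_
        · funext i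
          exact h1 i
        · apply Subtype.ext
          simp only [h1]
          abel }
  refine ⟨(((Pi.basisFun F (Fin n)).prod bD).map e.symm).reindex toLex, ?_⟩
  intro s
  rw [Module.Basis.reindex_apply, Module.Basis.map_apply]
  have h2 : ((Pi.basisFun F (Fin n)).prod bD) (toLex.symm (toLex (Sum.inr s))) = (0, bD s) := by
    change ((Pi.basisFun F (Fin n)).prod bD) (Sum.inr s) = (0, bD s)
    exact Prod.ext (Module.Basis.prod_apply_inr_fst _ _ s) (Module.Basis.prod_apply_inr_snd _ _ s)
  rw [h2]
  change (∑ i, (0 : Fin n → F) i • c.x i) + (bD s : L) = _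
  simp

theorem metabelian_emb [FiniteDimensional F L]
    (hmet : ∀ a ∈ Der F L, ∀ b ∈ Der F L, ⁅a, b⁆ = 0) (c : Coord F L n) :
    ∀ a ∈ Der F L, iu a ∈ KI c → a = 0 := by
  classical
  let bD := Module.finBasis F (Der F L)
  set d := Module.finrank F (Der F L) with hd
  obtain ⟨b, hb⟩ := exists_adapted c bD
  obtain ⟨β, hβ⟩ := PBWU.exists_basis F L (Lex (Fin n ⊕ Fin d)) b
  let g : Lex (Fin n ⊕ Fin d) → UniversalEnvelopingAlgebra F L := fun i => iu (b i)
  have hβ' : ∀ l, β l = (l.1.map g).prod := hβ
  have hc : ∀ s t : Fin d, g (toLex (Sum.inr s)) * g (toLex (Sum.inr t)) =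
      g (toLex (Sum.inr t)) * g (toLex (Sum.inr s)) := by
    intro s t
    have h1 : (iu ⁅b (toLex (Sum.inr s)), b (toLex (Sum.inr t))⁆ :
        UniversalEnvelopingAlgebra F L) = 0 := by
      rw [hb, hb, hmet _ (bD s).2 _ (bD t).2, map_zero]
    rw [iu_lie, sub_eq_zero] at h1
    exact h1
  let one : Fin d → {l : List (Lex (Fin n ⊕ Fin d)) // l.Pairwise (· ≤ ·)} := fun s =>
    ⟨[toLex (Sum.inr s)], List.pairwise_singleton _ _⟩
  let nl : {l : List (Lex (Fin n ⊕ Fin d)) // l.Pairwise (· ≤ ·)} := ⟨[], List.Pairwise.nil⟩
  have hrep : ∀ u, β.repr u nl = eps u := by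
    intro u
    have h1 : (β.coord nl) = (eps (F := F) (H := L)).toLinearMap := by
      apply β.ext
      intro l
      rw [Module.Basis.coord_apply, Module.Basis.repr_self, AlgHom.toLinearMap_apply, hβ' l,
        map_list_prod, List.map_map]
      by_cases h : l = nl
      · rw [h, Finsupp.single_eq_same]
        simp [nl]
      · rw [Finsupp.single_apply, if_neg h]
        have h2 : l.1 ≠ [] := fun h3 => h (Subtype.ext h3)
        obtain ⟨i, l', hl'⟩ := List.exists_cons_of_ne_nil h2
        rw [hl', List.map_cons, List.prod_cons]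
        have h3 : (⇑(eps (F := F) (H := L)) ∘ g) i = 0 := eps_iu _
        rw [h3, zero_mul]
    exact LinearMap.congr_fun h1 u
  have hkill1 : ∀ s t, ∀ u, eps u = 0 → β.coord (one s) (u * g (toLex (Sum.inr t))) = 0 := by
    intro s t u hu
    have h1 := β.linearCombination_repr u
    rw [Finsupp.linearCombination_apply, Finsupp.sum] at h1
    rw [← h1, Finset.sum_mul, map_sum]
    refine Finset.sum_eq_zero fun l _ => ?_
    by_cases h : l = nl
    · rw [h, hrep, hu, zero_smul, zero_mul, map_zero]
    · rw [smul_mul_assoc, map_smul, hβ' l, insert_prod g hc t l.1 l.2]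
      have h2 := hβ' ⟨l.1.orderedInsert (· ≤ ·) (toLex (Sum.inr t)),
        List.Pairwise.orderedInsert _ _ l.2⟩
      simp only at h2
      rw [← h2, Module.Basis.coord_apply, Module.Basis.repr_self, Finsupp.single_apply, if_neg,
        smul_zero]
      intro h3
      have h4 := congrArg (fun l => l.1.length) h3
      simp only [one, List.orderedInsert_length, List.length_singleton] at h4
      apply h
      apply Subtype.ext
      exact List.length_eq_zero_iff.1 (by omega)
  have hexp : ∀ a (ha : a ∈ Der F L), a = ∑ t, bD.repr ⟨a, ha⟩ t • b (toLex (Sum.inr t)) := by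
    intro a ha
    have h1 := congrArg Subtype.val (bD.sum_repr ⟨a, ha⟩)
    simp only [Submodule.coe_sum, Submodule.coe_smul] at h1
    simp only [hb]
    exact h1.symm
  have hkill2 : ∀ s, ∀ u, eps u = 0 → ∀ a ∈ Der F L, β.coord (one s) (u * iu a) = 0 := by
    intro s u hu a ha
    rw [hexp a ha, map_sum, Finset.mul_sum, map_sum]
    refine Finset.sum_eq_zero fun t _ => ?_
    rw [map_smul, mul_smul_comm, map_smul]
    have := hkill1 s t u hu
    simp only [g] at this
    rw [this, smul_zero]
  let M : Submodule F (UniversalEnvelopingAlgebra F L) :=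
    Submodule.span F {w | ∃ u, eps u = 0 ∧ ∃ a ∈ Der F L, w = u * iu a}
  have hMl : ∀ r, ∀ w ∈ M, r * w ∈ M := by
    intro r w hw
    induction hw using Submodule.span_induction with
    | mem z hz =>
      obtain ⟨u, hu, a, ha, rfl⟩ := hz
      exact Submodule.subset_span ⟨r * u, by rw [map_mul, hu, mul_zero], a, ha,
        (mul_assoc _ _ _).symm⟩
    | zero => rw [mul_zero]; exact M.zero_mem
    | add a b _ _ ha hb => rw [mul_add]; exact M.add_mem ha hb
    | smul r' a _ ha => rw [mul_smul_comm]; exact M.smul_mem _ ha
  have hJM : ∀ v ∈ JI F L, ∀ u, eps u = 0 → u * v ∈ M := by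
    intro v hv
    induction hv using Submodule.span_induction with
    | mem z hz =>
      obtain ⟨a, ha, rfl⟩ := hz
      intro u hu
      exact Submodule.subset_span ⟨u, hu, a, ha, rfl⟩
    | zero => intro u _; rw [mul_zero]; exact M.zero_mem
    | add a b _ _ ha hb => intro u hu; rw [mul_add]; exact M.add_mem (ha u hu) (hb u hu)
    | smul r v _ ih =>
      intro u hu
      rw [smul_eq_mul, ← mul_assoc]
      exact ih (u * r) (by rw [map_mul, hu, zero_mul])
  have hKM : ∀ w, w ∈ KI c → w ∈ M := by
    intro w hw
    induction hw using Submodule.span_induction with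
    | mem z hz =>
      obtain ⟨u, v, hu, hv, rfl⟩ := hz
      exact hJM v (mem_JI c hv) u hu
    | zero => exact M.zero_mem
    | add a b _ _ ha hb => exact M.add_mem ha hb
    | smul r a _ ha =>
      rw [smul_eq_mul]
      exact hMl r a ha
  have hM0 : ∀ s, ∀ w ∈ M, β.coord (one s) w = 0 := by
    intro s w hw
    induction hw using Submodule.span_induction with
    | mem z hz =>
      obtain ⟨u, hu, a, ha, rfl⟩ := hz
      exact hkill2 s u hu a ha
    | zero => rw [map_zero]
    | add a b _ _ ha hb => rw [map_add, ha, hb, add_zero]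
    | smul r a _ ha => rw [map_smul, ha, smul_zero]
  intro a ha hK
  have h1 : ∀ s, bD.repr ⟨a, ha⟩ s = 0 := by
    intro s
    have h2 := hM0 s _ (hKM _ hK)
    rw [hexp a ha, map_sum, map_sum, Finset.sum_eq_single s] at h2
    · rw [map_smul, map_smul] at h2
      have h3 : (iu (b (toLex (Sum.inr s))) : UniversalEnvelopingAlgebra F L) = β (one s) := by
        rw [hβ' (one s)]
        simp [one, g]
      rw [h3, Module.Basis.coord_apply, Module.Basis.repr_self, Finsupp.single_eq_same,
        smul_eq_mul, mul_one] at h2
      exact h2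
    · intro t _ hts
      rw [map_smul, map_smul]
      have h3 : (iu (b (toLex (Sum.inr t))) : UniversalEnvelopingAlgebra F L) = β (one t) := by
        rw [hβ' (one t)]
        simp [one, g]
      rw [h3, Module.Basis.coord_apply, Module.Basis.repr_self, Finsupp.single_apply, if_neg,
        smul_zero]
      intro h4
      apply hts
      have h5 := congrArg Subtype.val h4
      simp only [one, List.cons.injEq, and_true, EmbeddingLike.apply_eq_iff_eq,
        Sum.inr.injEq] at h5
      exact h5
    · intro h
      exact absurd (Finset.mem_univ s) h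
  rw [hexp a ha]
  exact Finset.sum_eq_zero fun t _ => by rw [h1, zero_smul]

end Pool.Agent.J4.H4.ML
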