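import Pool.Agent.J4.H4.ML.Flow01

/-!
A family of pairs in an algebra with a square-zero kernel.
-/

namespace Pool.Agent.J4.H4.ML

open Matrix Polynomial

variable {F : Type*} [Field F] {Q : Type*} [Ring Q] [Algebra F Q]

/-- `D` satisfies the Leibniz rule. -/
def IsDer (D : Q →ₗ[F] Q) : Prop := ∀ u v, D (u * v) = D u * v + u * D v

theorem IsDer.one {D : Q →ₗ[F] Q} (h : IsDer D) : D 1 = 0 := by
  have := h 1 1
  rw [mul_one, mul_one, one_mul] at this
  simpa using this

theorem IsDer.comm {D : Q →ₗ[F] Q} (h : IsDer D) (u v : Q) :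
    D (u * v - v * u) = (D u * v - v * D u) + (u * D v - D v * u) := by
  rw [map_sub, h, h]
  abel

theorem IsDer.add {D D' : Q →ₗ[F] Q} (h : IsDer D) (h' : IsDer D') : IsDer (D + D') := by
  intro u v
  rw [LinearMap.add_apply, LinearMap.add_apply, LinearMap.add_apply, h, h']
  noncomm_ring

theorem IsDer.smul {D : Q →ₗ[F] Q} (h : IsDer D) (c : F) : IsDer (c • D) := by
  intro u v
  rw [LinearMap.smul_apply, LinearMap.smul_apply, LinearMap.smul_apply, h, smul_add,
    smul_mul_assoc, mul_smul_comm]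

theorem IsDer.zero : IsDer (0 : Q →ₗ[F] Q) := by
  intro u v
  simp

theorem IsDer.sum {ι : Type*} (s : Finset ι) (D : ι → Q →ₗ[F] Q) (h : ∀ i ∈ s, IsDer (D i)) :
    IsDer (∑ i ∈ s, D i) := by
  classical
  induction s using Finset.induction_on with
  | empty => rw [Finset.sum_empty]; exact IsDer.zero
  | insert a s ha ih =>
    rw [Finset.sum_insert ha]
    exact (h a (Finset.mem_insert_self a s)).add
      (ih fun i hi => h i (Finset.mem_insert_of_mem hi))

/-- evaluation at a scalar -/
noncomputable def evq (τ : F) : Q[X] →+* Q :=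
  eval₂RingHom' (RingHom.id Q) (algebraMap F Q τ) fun a => (Algebra.commutes τ a).symm

theorem evq_monomial (τ : F) (k : ℕ) (q : Q) : evq τ (monomial k q) = τ ^ k • q := by
  change eval₂ (RingHom.id Q) (algebraMap F Q τ) (monomial k q) = _
  rw [eval₂_monomial, RingHom.id_apply, ← map_pow, Algebra.smul_def, Algebra.commutes]

theorem evq_C (τ : F) (q : Q) : evq τ (C q) = q := by
  rw [← monomial_zero_left, evq_monomial, pow_zero, one_smul]

/-- coefficientwise application of a linear functional -/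
noncomputable def kext (κ : Q →ₗ[F] F) : Q[X] →ₗ[F] F[X] :=
  Polynomial.lsum fun k => (Polynomial.monomial k : F →ₗ[F] F[X]) ∘ₗ κ

theorem kext_monomial (κ : Q →ₗ[F] F) (k : ℕ) (q : Q) :
    kext κ (monomial k q) = monomial k (κ q) := by
  change Polynomial.sum (monomial k q) _ = _
  rw [Polynomial.sum_monomial_index]
  · rfl
  · simp

theorem eval_kext (κ : Q →ₗ[F] F) (τ : F) (p : Q[X]) : (kext κ p).eval τ = κ (evq τ p) := by
  induction p using Polynomial.induction_on' with
  | add p q hp hq => rw [map_add, eval_add, hp, hq, map_add, map_add]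
  | monomial k q =>
    rw [kext_monomial, eval_monomial, evq_monomial, map_smul, smul_eq_mul, mul_comm]

theorem derivative_kext (κ : Q →ₗ[F] F) (p : Q[X]) :
    derivative (kext κ p) = kext κ (derivative p) := by
  induction p using Polynomial.induction_on' with
  | add p q hp hq => rw [map_add, map_add, hp, hq, map_add, map_add]
  | monomial k q =>
    rw [kext_monomial, derivative_monomial, derivative_monomial, kext_monomial]
    congr 1
    rw [← nsmul_eq_mul', ← nsmul_eq_mul', map_nsmul]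

/-- A polynomial family of linear maps acting on polynomials. -/
noncomputable def dext (m : ℕ) (D : ℕ → Q →ₗ[F] Q) : Q[X] →ₗ[F] Q[X] :=
  Polynomial.lsum fun l => ∑ k ∈ Finset.range m,
    ((Polynomial.monomial (k + l) : Q →ₗ[Q] Q[X]).restrictScalars F) ∘ₗ D k

/-- The value of the family at `τ`. -/
noncomputable def dval (m : ℕ) (D : ℕ → Q →ₗ[F] Q) (τ : F) : Q →ₗ[F] Q :=
  ∑ k ∈ Finset.range m, τ ^ k • D k

theorem evq_dext (m : ℕ) (D : ℕ → Q →ₗ[F] Q) (τ : F) (p : Q[X]) :
    evq τ (dext m D p) = dval m D τ (evq τ p) := by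
  induction p using Polynomial.induction_on' with
  | add p q hp hq => rw [map_add, map_add, hp, hq, map_add, map_add]
  | monomial l q =>
    have h : dext m D (monomial l q) = ∑ k ∈ Finset.range m, monomial (k + l) (D k q) := by
      change Polynomial.sum (monomial l q) _ = _
      rw [Polynomial.sum_monomial_index]
      · simp only [LinearMap.sum_apply, LinearMap.comp_apply, LinearMap.restrictScalars_apply]
      · simp
    rw [h, map_sum, evq_monomial, map_smul, dval, LinearMap.sum_apply, Finset.smul_sum]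
    refine Finset.sum_congr rfl fun k _ => ?_
    rw [evq_monomial, LinearMap.smul_apply, smul_smul, pow_add, mul_comm]

theorem dval_isDer (m : ℕ) (D : ℕ → Q →ₗ[F] Q) (τ : F) (h : ∀ k, IsDer (D k)) :
    IsDer (dval m D τ) :=
  IsDer.sum _ _ fun k _ => (h k).smul _

theorem family [CharZero F] {n : ℕ} (A : Submodule F Q) [FiniteDimensional F A]
    (ε : Q →ₐ[F] F) (hεA : ∀ a ∈ A, ε a = 0) (hA : ∀ (u : Q), ∀ a ∈ A, u * a = ε u • a)
    (hcomm : ∀ u v : Q, u * v - v * u ∈ A) (m : ℕ) (D : ℕ → Q →ₗ[F] Q) (hD : ∀ k, IsDer (D k))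
    (hDA : ∀ k, ∀ a ∈ A, D k a ∈ A) (P : Fin n → Q[X])
    (hP : ∀ i, ∀ τ ≠ (0 : F), dval m D τ (evq τ (P i)) - evq τ (derivative (P i)) ∈ A) :
    ∃ (Θ : Q →ₗ[F] Q) (Λ : Fin n → Q), (∀ a ∈ A, Θ a ∈ A) ∧ (∀ a ∈ A, Θ a = 0 → a = 0) ∧
      (∀ i, Λ i ∈ A) ∧
      (∀ i, ∀ a ∈ A, Θ (evq (0 : F) (P i) * a - a * evq (0 : F) (P i)) =
        evq (1 : F) (P i) * Θ a - Θ a * evq (1 : F) (P i)) ∧
      ∀ i j, Θ (evq (0 : F) (P i) * evq (0 : F) (P j) - evq (0 : F) (P j) * evq (0 : F) (P i)) =
        (evq (1 : F) (P i) + Λ i) * (evq (1 : F) (P j) + Λ j) -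
        (evq (1 : F) (P j) + Λ j) * (evq (1 : F) (P i) + Λ i) := by
  classical
  have hAA : ∀ a ∈ A, ∀ b ∈ A, a * b = 0 := by
    intro a ha b hb
    rw [hA a b hb, hεA a ha, zero_smul]
  have hcommA : ∀ a ∈ A, ∀ b ∈ A, a * b - b * a = 0 := by
    intro a ha b hb
    rw [hAA a ha b hb, hAA b hb a ha, sub_zero]
  set d := Module.finrank F A with hd
  let bA : Module.Basis (Fin d) F A := Module.finBasis F A
  obtain ⟨g, hg⟩ := LinearMap.exists_leftInverse_of_injective A.subtype (by
    rw [Submodule.ker_subtype])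
  have hg' : ∀ a : A, g a = a := fun a => LinearMap.congr_fun hg a
  let κ : Fin d → Q →ₗ[F] F := fun s => bA.coord s ∘ₗ g
  let b : Fin d → Q := fun s => (bA s : Q)
  have hb : ∀ s, b s ∈ A := fun s => (bA s).2
  have hκb : ∀ a ∈ A, ∑ s, κ s a • b s = a := by
    intro a ha
    have h1 := bA.sum_repr ⟨a, ha⟩
    have h2 := congrArg (Subtype.val) h1
    rw [← Submodule.subtype_apply, map_sum] at h2
    simp only [map_smul, Submodule.subtype_apply] at h2
    calc _ = ∑ s, (bA.repr ⟨a, ha⟩) s • (bA s : Q) := by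
          refine Finset.sum_congr rfl fun s _ => ?_
          change (bA.repr (g a)) s • (bA s : Q) = _
          rw [show g a = ⟨a, ha⟩ from hg' ⟨a, ha⟩]
      _ = a := h2
  have hκb' : ∀ s t, κ s (b t) = if s = t then 1 else 0 := by
    intro s t
    change bA.repr (g (b t)) s = _
    rw [show g (b t) = bA t from hg' (bA t), Module.Basis.repr_self, Finsupp.single_apply]
    simp only [eq_comm]
  have hexp : ∀ (T : Q →ₗ[F] Q) (s : Fin d), ∀ a ∈ A, ∑ k, κ s (T (b k)) * κ k a = κ s (T a) := by
    intro T s a ha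
    conv_rhs => rw [← hκb a ha]
    rw [map_sum, map_sum]
    refine Finset.sum_congr rfl fun k _ => ?_
    rw [map_smul, map_smul, smul_eq_mul, mul_comm]
  have hκ0 : ∀ a ∈ A, (∀ s, κ s a = 0) → a = 0 := by
    intro a ha h
    rw [← hκb a ha]
    exact Finset.sum_eq_zero fun s _ => by rw [h s, zero_smul]
  -- inner derivation as a linear map
  let adL : Q → Q →ₗ[F] Q := fun u => LinearMap.mulLeft F u - LinearMap.mulRight F u
  have hadL : ∀ u v, adL u v = u * v - v * u := by
    intro u v
    simp only [adL, LinearMap.sub_apply, LinearMap.mulLeft_apply, LinearMap.mulRight_apply]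
  let ρ : Fin n → Matrix (Fin d) (Fin d) F[X] := fun i => Matrix.of fun s r =>
    kext (κ s) (P i * C (b r) - C (b r) * P i)
  let c : Fin n → Fin n → Fin d → F[X] := fun i j s => kext (κ s) (P i * P j - P j * P i)
  let N : Matrix (Fin d) (Fin d) F[X] := Matrix.of fun s r => kext (κ s) (dext m D (C (b r)))
  let μ : Fin n → Fin d → F[X] := fun i s => kext (κ s) (dext m D (P i) - derivative (P i))
  have hρe : ∀ (i : Fin n) (τ : F) (s r : Fin d), (ρ i s r).eval τ =
      κ s (adL (evq τ (P i)) (b r)) := by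
    intro i τ s r
    simp only [ρ, Matrix.of_apply]
    rw [eval_kext, map_sub, map_mul, map_mul, evq_C, hadL]
  have hce : ∀ (i j : Fin n) (τ : F) (s : Fin d), (c i j s).eval τ =
      κ s (adL (evq τ (P i)) (evq τ (P j))) := by
    intro i j τ s
    simp only [c]
    rw [eval_kext, map_sub, map_mul, map_mul, hadL]
  have hNe : ∀ (τ : F) (s r : Fin d), (N s r).eval τ = κ s (dval m D τ (b r)) := by
    intro τ s r
    simp only [N, Matrix.of_apply]
    rw [eval_kext, evq_dext, evq_C]
  have hμe : ∀ (i : Fin n) (τ : F) (s : Fin d), (μ i s).eval τ =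
      κ s (dval m D τ (evq τ (P i)) - evq τ (derivative (P i))) := by
    intro i τ s
    simp only [μ]
    rw [eval_kext, map_sub, evq_dext]
  have hfun : ∀ p q : F[X], (∀ τ : F, τ ≠ 0 → p.eval τ = q.eval τ) → p = q := by
    intro p q h
    apply Polynomial.eq_of_infinite_eval_eq
    refine Set.Infinite.mono (s := {τ : F | τ ≠ 0}) (fun τ hτ => h τ hτ) ?_
    exact (Set.finite_singleton (0 : F)).infinite_compl
  have hDτA : ∀ (τ : F), ∀ a ∈ A, dval m D τ a ∈ A := by
    intro τ a ha
    rw [dval, LinearMap.sum_apply]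
    refine Submodule.sum_mem _ fun k _ => ?_
    rw [LinearMap.smul_apply]
    exact Submodule.smul_mem _ _ (hDA k a ha)
  have hadA : ∀ u v, adL u v ∈ A := fun u v => by rw [hadL]; exact hcomm u v
  obtain ⟨θ, l, hθ, h1, h2⟩ := flow01 ρ c N μ (by
    intro i
    ext1 s r
    apply hfun
    intro τ hτ
    rw [Matrix.map_apply, Matrix.sub_apply, eval_sub, Matrix.mul_apply, Matrix.mul_apply,
      eval_finsetSum, eval_finsetSum]
    simp only [eval_mul, hρe, hNe]
    rw [hexp _ s _ (hadA _ _), hexp _ s _ (hDτA _ _ (hb r)), ← map_sub]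
    simp only [ρ, Matrix.of_apply]
    rw [derivative_kext, eval_kext, derivative_sub, derivative_mul, derivative_mul, derivative_C]
    simp only [mul_zero, zero_mul, add_zero, zero_add, map_sub, map_mul, evq_C]
    have hder := dval_isDer m D τ hD
    rw [← map_sub, ← map_sub]
    congr 1
    rw [hadL, hadL, hder.comm]
    have h3 := hcommA _ (hP i τ hτ) _ (hb r)
    rw [sub_mul, mul_sub] at h3
    rw [sub_sub_sub_comm, sub_eq_zero] at h3
    rw [add_sub_cancel_right, ← h3]) (by
    intro i j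
    funext s
    apply hfun
    intro τ hτ
    simp only [Pi.sub_apply, Pi.add_apply, eval_sub, eval_add, mulVec, dotProduct,
      eval_finsetSum, eval_mul, hρe, hNe, hce, hμe]
    rw [hexp _ s _ (hadA _ _), hexp _ s _ (hP i τ hτ), hexp _ s _ (hP j τ hτ)]
    simp only [c]
    rw [derivative_kext, eval_kext, derivative_sub, derivative_mul, derivative_mul]
    have hder := dval_isDer m D τ hD
    rw [← map_add (κ s), ← map_sub (κ s)]
    congr 1
    simp only [hadL]
    rw [hder.comm]
    simp only [map_sub, map_add, map_mul]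
    noncomm_ring)
  -- the linear map
  let e : (Fin d → F) →ₗ[F] Q := Fintype.linearCombination F b
  have he : ∀ v, e v = ∑ s, v s • b s := fun v => Fintype.linearCombination_apply F b v
  have heA : ∀ v, e v ∈ A := by
    intro v
    rw [he]
    exact Submodule.sum_mem _ fun s _ => Submodule.smul_mem _ _ (hb s)
  let K : Q →ₗ[F] (Fin d → F) := LinearMap.pi κ
  have hK : ∀ u s, K u s = κ s u := fun u s => rfl
  have heK : ∀ a ∈ A, e (K a) = a := by
    intro a ha
    rw [he]
    exact hκb a ha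
  have hKe : ∀ v, K (e v) = v := by
    intro v
    funext s
    rw [hK, he, map_sum]
    simp only [map_smul, hκb', smul_eq_mul, mul_ite, mul_one, mul_zero]
    rw [Finset.sum_ite_eq]
    simp
  have hKad : ∀ (i : Fin n) (τ : F), ∀ a ∈ A, K (adL (evq τ (P i)) a) =
      (ρ i).map (eval τ) *ᵥ K a := by
    intro i τ a ha
    funext s
    simp only [mulVec, dotProduct, Matrix.map_apply, hρe]
    rw [hK]
    exact (hexp (adL (evq τ (P i))) s a ha).symm
  have hKc : ∀ (i j : Fin n) (τ : F), K (adL (evq τ (P i)) (evq τ (P j))) =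
      fun s => (c i j s).eval τ := by
    intro i j τ
    funext s
    rw [hce, hK]
  have hinj : ∀ u ∈ A, ∀ v ∈ A, K u = K v → u = v := by
    intro u hu v hv h
    rw [← heK u hu, ← heK v hv, h]
  refine ⟨e ∘ₗ θ.mulVecLin ∘ₗ K, fun i => e (l i), ?_, ?_, ?_, ?_, ?_⟩
  · intro a _
    exact heA _
  · intro a ha h0
    have h3 := congrArg K h0
    rw [LinearMap.comp_apply, LinearMap.comp_apply, hKe, map_zero, Matrix.mulVecLin_apply] at h3
    have h4 : θ⁻¹ *ᵥ (θ *ᵥ K a) = K a := by
      rw [mulVec_mulVec, Matrix.nonsing_inv_mul θ hθ, one_mulVec]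
    rw [h3, mulVec_zero] at h4
    rw [← heK a ha, ← h4, map_zero]
  · intro i
    exact heA _
  · intro i a ha
    simp only [LinearMap.comp_apply, Matrix.mulVecLin_apply]
    rw [← hadL, ← hadL]
    apply hinj _ (heA _) _ (hadA _ _)
    rw [hKe, hKad _ _ _ ha, hKad _ _ _ (heA _), hKe, mulVec_mulVec, mulVec_mulVec, h1]
  · intro i j
    simp only [LinearMap.comp_apply, Matrix.mulVecLin_apply]
    have e1 : (evq (1 : F) (P i) + e (l i)) * (evq (1 : F) (P j) + e (l j)) -
        (evq (1 : F) (P j) + e (l j)) * (evq (1 : F) (P i) + e (l i)) =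
        adL (evq (1 : F) (P i)) (evq (1 : F) (P j)) + adL (evq (1 : F) (P i)) (e (l j)) -
        adL (evq (1 : F) (P j)) (e (l i)) := by
      have h5 := hcommA _ (heA (l i)) _ (heA (l j))
      rw [hadL, hadL, hadL]
      have h6 : (evq (1 : F) (P i) + e (l i)) * (evq (1 : F) (P j) + e (l j)) -
        (evq (1 : F) (P j) + e (l j)) * (evq (1 : F) (P i) + e (l i)) =
        (evq (1 : F) (P i) * evq (1 : F) (P j) - evq (1 : F) (P j) * evq (1 : F) (P i)) +
        (evq (1 : F) (P i) * e (l j) - e (l j) * evq (1 : F) (P i)) -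
        (evq (1 : F) (P j) * e (l i) - e (l i) * evq (1 : F) (P j)) +
        (e (l i) * e (l j) - e (l j) * e (l i)) := by
        noncomm_ring
      rw [h6, h5, add_zero]
    rw [e1, ← hadL]
    apply hinj _ (heA _) _ ?_
    · rw [hKe, map_sub, map_add, hKc, hKc, hKad _ _ _ (heA _), hKad _ _ _ (heA _), hKe, hKe, h2]
    · exact Submodule.sub_mem _ (Submodule.add_mem _ (hadA _ _) (hadA _ _)) (hadA _ _)

end Pool.Agent.J4.H4.ML
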