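import Pool.Agent.J4.H4.ML.Ode

/-!
Flow of a family of structure constants: all but finitely many members are isomorphic to the
member at zero.
-/

namespace Pool.Agent.J4.H4.ML

open Matrix Polynomial

section desc

/-- a functional preserving non-degeneracy -/
theorem exists_functional {K K' : Type*} [Field K] [Infinite K] [Field K'] [Algebra K K'] {d : ℕ}
    (z : K') (θ : Matrix (Fin d) (Fin d) K') (h : z * θ.det ≠ 0) :
    ∃ p : K' →ₗ[K] K, p z * (θ.map p).det ≠ 0 := by
  classical
  let b := Module.Basis.ofVectorSpace K K'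
  set ι := Module.Basis.ofVectorSpaceIndex K K' with hι
  let s : Finset ι := (b.repr z).support ∪
    Finset.univ.biUnion fun ij : Fin d × Fin d => (b.repr (θ ij.1 ij.2)).support
  have hrep : ∀ x : K', (b.repr x).support ⊆ s → ∑ α ∈ s, b.repr x α • b α = x := by
    intro x hx
    conv_rhs => rw [← b.linearCombination_repr x]
    rw [Finsupp.linearCombination_apply, Finsupp.sum]
    symm
    refine Finset.sum_subset hx ?_
    intro α _ hα
    rw [Finsupp.notMem_support_iff.1 hα, zero_smul]
  have hz : (b.repr z).support ⊆ s := Finset.subset_union_left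
  have hθ : ∀ i j, (b.repr (θ i j)).support ⊆ s := by
    intro i j
    refine Finset.Subset.trans ?_ Finset.subset_union_right
    exact Finset.subset_biUnion_of_mem
      (fun ij : Fin d × Fin d => (b.repr (θ ij.1 ij.2)).support) (Finset.mem_univ (i, j))
  let Lx : K' → MvPolynomial ι K := fun x => ∑ α ∈ s, MvPolynomial.C (b.repr x α) *
    MvPolynomial.X α
  have hae : ∀ x : K', (b.repr x).support ⊆ s → MvPolynomial.aeval b (Lx x) = x := by
    intro x hx
    simp only [Lx, map_sum, map_mul, MvPolynomial.aeval_C, MvPolynomial.aeval_X]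
    conv_rhs => rw [← hrep x hx]
    refine Finset.sum_congr rfl fun α _ => ?_
    rw [Algebra.smul_def]
  by_contra hcon
  push Not at hcon
  have hP : Lx z * (Matrix.of fun i j => Lx (θ i j)).det = 0 := by
    apply MvPolynomial.funext
    intro y
    let p : K' →ₗ[K] K := ∑ α ∈ s, y α • b.coord α
    have hp : ∀ x, MvPolynomial.eval y (Lx x) = p x := by
      intro x
      simp only [Lx, p, map_sum, map_mul, MvPolynomial.eval_C, MvPolynomial.eval_X,
        LinearMap.sum_apply, LinearMap.smul_apply, Module.Basis.coord_apply, smul_eq_mul]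
      refine Finset.sum_congr rfl fun α _ => ?_
      rw [mul_comm]
    rw [map_mul, hp, map_zero, RingHom.map_det]
    have : (MvPolynomial.eval y).mapMatrix (Matrix.of fun i j => Lx (θ i j)) = θ.map p := by
      ext1 i j
      rw [RingHom.mapMatrix_apply, Matrix.map_apply, Matrix.map_apply, Matrix.of_apply, hp]
    rw [this]
    exact hcon p
  apply h
  have h2 := congrArg (MvPolynomial.aeval b) hP
  rw [map_mul, hae z hz, map_zero, AlgHom.map_det] at h2
  have : (MvPolynomial.aeval b).mapMatrix (Matrix.of fun i j => Lx (θ i j)) = θ := by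
    ext1 i j
    rw [AlgHom.mapMatrix_apply, Matrix.map_apply, Matrix.of_apply, hae _ (hθ i j)]
  rwa [this] at h2

variable {R : Type*} [CommRing R] {n d : ℕ}

/-- The linear system. -/
def Sol (ρ ρ0 : Fin n → Matrix (Fin d) (Fin d) R) (c c0 : Fin n → Fin n → Fin d → R)
    (B : Type*) [AddCommGroup B] [Module R B]
    (z : B) (θ : Matrix (Fin d) (Fin d) B) (l : Fin n → Fin d → B) : Prop :=
  (∀ i s t, ∑ k, ρ0 i k t • θ s k = ∑ k, ρ i s k • θ k t) ∧
  ∀ i j s, ∑ k, c0 i j k • θ s k = c i j s • z + ∑ k, ρ i s k • l j k - ∑ k, ρ j s k • l i k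

theorem Sol.map {ρ ρ0 : Fin n → Matrix (Fin d) (Fin d) R} {c c0 : Fin n → Fin n → Fin d → R}
    {B B' : Type*} [AddCommGroup B] [Module R B] [AddCommGroup B'] [Module R B']
    {z : B} {θ : Matrix (Fin d) (Fin d) B} {l : Fin n → Fin d → B} (h : Sol ρ ρ0 c c0 B z θ l)
    (p : B →ₗ[R] B') : Sol ρ ρ0 c c0 B' (p z) (θ.map p) (fun i s => p (l i s)) := by
  constructor
  · intro i s t
    have := congrArg p (h.1 i s t)
    simpa only [map_sum, map_smul, Matrix.map_apply] using this
  · intro i j s
    have := congrArg p (h.2 i j s)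
    simpa only [map_sum, map_smul, map_add, map_sub, Matrix.map_apply] using this

theorem Sol.of_map {ρ ρ0 : Fin n → Matrix (Fin d) (Fin d) R} {c c0 : Fin n → Fin n → Fin d → R}
    {B B' : Type*} [AddCommGroup B] [Module R B] [AddCommGroup B'] [Module R B']
    {z : B} {θ : Matrix (Fin d) (Fin d) B} {l : Fin n → Fin d → B}
    (p : B →ₗ[R] B') (hp : Function.Injective p)
    (h : Sol ρ ρ0 c c0 B' (p z) (θ.map p) (fun i s => p (l i s))) : Sol ρ ρ0 c c0 B z θ l := by
  constructor
  · intro i s t
    apply hp
    have := h.1 i s t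
    simpa only [map_sum, map_smul, Matrix.map_apply] using this
  · intro i j s
    apply hp
    have := h.2 i j s
    simpa only [map_sum, map_smul, map_add, map_sub, Matrix.map_apply] using this

end desc

section frac

variable {F : Type*} [Field F]

/-- descent from power series to polynomials -/
theorem descend [CharZero F] {n d : ℕ} (ρ ρ0 : Fin n → Matrix (Fin d) (Fin d) F[X])
    (c c0 : Fin n → Fin n → Fin d → F[X])
    (z : PowerSeries F) (θ : Matrix (Fin d) (Fin d) (PowerSeries F))
    (l : Fin n → Fin d → PowerSeries F)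
    (h : Sol ρ ρ0 c c0 (PowerSeries F) z θ l) (hz : z * θ.det ≠ 0) :
    ∃ (z' : F[X]) (θ' : Matrix (Fin d) (Fin d) F[X]) (l' : Fin n → Fin d → F[X]),
      Sol ρ ρ0 c c0 F[X] z' θ' l' ∧ z' * θ'.det ≠ 0 := by
  let K := FractionRing F[X]
  let K' := FractionRing (PowerSeries F)
  have hinj : Function.Injective (algebraMap F[X] K') := by
    rw [IsScalarTower.algebraMap_eq F[X] (PowerSeries F) K']
    exact (IsFractionRing.injective (PowerSeries F) K').comp fun x y hxy =>
      Polynomial.coe_injective F hxy
  let _ : Algebra K K' := (IsFractionRing.lift hinj : K →+* K').toAlgebra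
  have : IsScalarTower F[X] K K' := IsScalarTower.of_algebraMap_eq fun x =>
    (IsFractionRing.lift_algebraMap hinj x).symm
  have : Infinite K := Infinite.of_injective _ (IsFractionRing.injective F[X] K)
  -- move to K'
  have h1 := h.map (IsScalarTower.toAlgHom F[X] (PowerSeries F) K').toLinearMap
  have hi2 : Function.Injective (algebraMap (PowerSeries F) K') :=
    IsFractionRing.injective (PowerSeries F) K'
  have hz1 : algebraMap (PowerSeries F) K' z * (θ.map (algebraMap (PowerSeries F) K')).det ≠ 0 := by
    have : (θ.map (algebraMap (PowerSeries F) K')).det = algebraMap (PowerSeries F) K' θ.det := by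
      rw [RingHom.map_det]
      rfl
    rw [this, ← map_mul]
    exact (map_ne_zero_iff _ hi2).2 hz
  obtain ⟨p, hp⟩ := exists_functional (K := K) _ _ hz1
  have h2 := h1.map (p.restrictScalars F[X])
  set zK : K := p (algebraMap (PowerSeries F) K' z) with hzK
  set θK : Matrix (Fin d) (Fin d) K := (θ.map (algebraMap (PowerSeries F) K')).map p with hθK
  set lK : Fin n → Fin d → K := fun i s => p (algebraMap (PowerSeries F) K' (l i s)) with hlK
  have h3 : Sol ρ ρ0 c c0 K zK θK lK := h2
  -- clear denominators
  let g : Unit ⊕ ((Fin d × Fin d) ⊕ (Fin n × Fin d)) → K :=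
    Sum.elim (fun _ => zK) (Sum.elim (fun x => θK x.1 x.2) (fun x => lK x.1 x.2))
  obtain ⟨b, hb⟩ := IsLocalization.exist_integer_multiples_of_finite (nonZeroDivisors F[X]) g
  have hb0 : (b : F[X]) ≠ 0 := nonZeroDivisors.coe_ne_zero b
  obtain ⟨z', hz'⟩ := hb (Sum.inl ())
  choose θ' hθ' using fun i j => hb (Sum.inr (Sum.inl (i, j)))
  choose l' hl' using fun i j => hb (Sum.inr (Sum.inr (i, j)))
  simp only [g, Sum.elim_inl, Sum.elim_inr] at hz' hθ' hl'
  have h4 := h3.map (LinearMap.lsmul F[X] K (b : F[X]))
  refine ⟨z', Matrix.of θ', l', ?_, ?_⟩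
  · apply Sol.of_map (Algebra.linearMap F[X] K) (IsFractionRing.injective F[X] K)
    have e1 : Algebra.linearMap F[X] K z' = LinearMap.lsmul F[X] K (b : F[X]) zK := by
      rw [Algebra.linearMap_apply, hz', LinearMap.lsmul_apply]
    have e2 : (Matrix.of θ').map (Algebra.linearMap F[X] K) =
        θK.map (LinearMap.lsmul F[X] K (b : F[X])) := by
      ext1 i j
      rw [Matrix.map_apply, Matrix.map_apply, Matrix.of_apply, Algebra.linearMap_apply, hθ',
        LinearMap.lsmul_apply]
    have e3 : (fun i s => Algebra.linearMap F[X] K (l' i s)) =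
        (fun i s => LinearMap.lsmul F[X] K (b : F[X]) (lK i s)) := by
      funext i s
      rw [Algebra.linearMap_apply, hl', LinearMap.lsmul_apply]
    rw [e1, e2, e3]
    exact h4
  · intro h0
    have h5 := congrArg (algebraMap F[X] K) h0
    rw [map_mul, map_zero, hz', RingHom.map_det] at h5
    have e2 : (algebraMap F[X] K).mapMatrix (Matrix.of θ') = (algebraMap F[X] K b) • θK := by
      ext1 i j
      rw [RingHom.mapMatrix_apply, Matrix.map_apply, Matrix.smul_apply, Matrix.of_apply, hθ',
        Algebra.smul_def, smul_eq_mul]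
    rw [e2, Matrix.det_smul, Algebra.smul_def] at h5
    have hbK : algebraMap F[X] K b ≠ 0 :=
      (map_ne_zero_iff _ (IsFractionRing.injective F[X] K)).2 hb0
    rcases mul_eq_zero.1 h5 with h6 | h6
    · rcases mul_eq_zero.1 h6 with h7 | h7
      · exact hbK h7
      · exact hp (by rw [h7, zero_mul])
    · rcases mul_eq_zero.1 h6 with h7 | h7
      · exact pow_ne_zero _ hbK h7
      · exact hp (by rw [h7, mul_zero])

/-- Flow: the members of the family are isomorphic to the member at `0`, outside a finite set. -/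
theorem flow [CharZero F] {n d : ℕ}
    (ρ : Fin n → Matrix (Fin d) (Fin d) F[X]) (c : Fin n → Fin n → Fin d → F[X])
    (N : Matrix (Fin d) (Fin d) F[X]) (μ : Fin n → Fin d → F[X])
    (hρ : ∀ i, (ρ i).map derivative = N * ρ i - ρ i * N)
    (hc : ∀ i j, (fun s => derivative (c i j s)) = N *ᵥ c i j + ρ j *ᵥ μ i - ρ i *ᵥ μ j) :
    ∃ p : F[X], p ≠ 0 ∧ ∀ τ, p.eval τ ≠ 0 →
      ∃ (θ : Matrix (Fin d) (Fin d) F) (l : Fin n → Fin d → F), IsUnit θ.det ∧
      (∀ i, θ * (ρ i).map (eval 0) = (ρ i).map (eval τ) * θ) ∧
      ∀ i j, θ *ᵥ (fun s => (c i j s).eval 0) =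
        (fun s => (c i j s).eval τ) + (ρ i).map (eval τ) *ᵥ l j - (ρ j).map (eval τ) *ᵥ l i := by
  let κ : F[X] →+* PowerSeries F := Polynomial.coeToPowerSeries.ringHom
  have hκ : ∀ f : F[X], κ f = (f : PowerSeries F) := fun f => rfl
  have hd : ∀ f : F[X], PowerSeries.derivative F (κ f) = κ (derivative f) := by
    intro f
    rw [hκ, hκ, PowerSeries.derivative_coe]
  have hmv : ∀ (M : Matrix (Fin d) (Fin d) F[X]) (v : Fin d → F[X]),
      (fun s => κ ((M *ᵥ v) s)) = M.map κ *ᵥ fun s => κ (v s) := by
    intro M v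
    funext s
    simp only [mulVec, dotProduct, map_sum, map_mul, Matrix.map_apply]
  have hc0 : ∀ f : F[X], PowerSeries.constantCoeff (κ f) = f.eval 0 := by
    intro f
    rw [hκ, ← PowerSeries.coeff_zero_eq_constantCoeff_apply, Polynomial.coeff_coe,
      Polynomial.coeff_zero_eq_eval_zero]
  have hCC : ∀ a : F, (PowerSeries.C a : PowerSeries F) = κ (C a) := by
    intro a
    rw [hκ, Polynomial.coe_C]
  obtain ⟨θ, l, h1, h2, h3⟩ := flow_ps (fun i => (ρ i).map κ) (fun i j s => κ (c i j s))
    (N.map κ) (fun i s => κ (μ i s)) (by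
      intro i
      have := congrArg (fun M : Matrix (Fin d) (Fin d) F[X] => M.map κ) (hρ i)
      rw [Matrix.map_sub _ (fun a b => map_sub κ a b), Matrix.map_mul, Matrix.map_mul] at this
      rw [← this]
      ext1 s t
      simp only [Matrix.map_apply]
      exact hd _) (by
      intro i j
      funext s
      have := congrArg κ (congrFun (hc i j) s)
      rw [hd, this]
      simp only [Pi.sub_apply, Pi.add_apply, map_sub, map_add]
      rw [congrFun (hmv N (c i j)) s, congrFun (hmv (ρ j) (μ i)) s,
        congrFun (hmv (ρ i) (μ j)) s])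
  have hdet : θ.det ≠ 0 := by
    intro h0
    have h4 := congrArg (PowerSeries.constantCoeff (R := F)) h0
    rw [RingHom.map_det, RingHom.mapMatrix_apply, h1, Matrix.det_one, map_zero] at h4
    exact one_ne_zero h4
  have hsol : Sol ρ (fun i => (ρ i).map fun f => C (f.eval 0)) c
      (fun i j s => C ((c i j s).eval 0)) (PowerSeries F) 1 θ l := by
    constructor
    · intro i s t
      have := congrFun (congrFun (h2 i) s) t
      rw [Matrix.mul_apply, Matrix.mul_apply] at this
      simp only [Matrix.map_apply, hc0, hCC] at this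
      simp only [Matrix.map_apply]
      calc _ = ∑ k, θ s k * κ (C (eval 0 (ρ i k t))) := by
            refine Finset.sum_congr rfl fun k _ => ?_
            rw [Algebra.smul_def, mul_comm]; rfl
        _ = _ := this
        _ = _ := by
            refine Finset.sum_congr rfl fun k _ => ?_
            rw [Algebra.smul_def]; rfl
    · intro i j s
      have := congrFun (h3 i j) s
      simp only [mulVec, dotProduct, Pi.sub_apply, Pi.add_apply, hc0, hCC, Matrix.map_apply] at this
      calc _ = ∑ k, θ s k * κ (C (eval 0 (c i j k))) := by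
            refine Finset.sum_congr rfl fun k _ => ?_
            rw [Algebra.smul_def, mul_comm]; rfl
        _ = _ := this
        _ = _ := by
            congr 1
            · congr 1
              rw [Algebra.smul_def, mul_one]; rfl
  obtain ⟨z', θ', l', hs, hne⟩ := descend ρ _ c _ 1 θ l hsol (by rwa [one_mul])
  refine ⟨z' * θ'.det, hne, ?_⟩
  intro τ hτ
  rw [eval_mul] at hτ
  have hzτ : z'.eval τ ≠ 0 := left_ne_zero_of_mul hτ
  have hdτ : (θ'.det).eval τ ≠ 0 := right_ne_zero_of_mul hτ
  refine ⟨(z'.eval τ)⁻¹ • θ'.map (eval τ), fun i s => (z'.eval τ)⁻¹ * (l' i s).eval τ, ?_, ?_, ?_⟩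
  · rw [Matrix.det_smul]
    have : (θ'.map (eval τ)).det = (θ'.det).eval τ := by
      have := RingHom.map_det (evalRingHom τ) θ'
      rw [RingHom.mapMatrix_apply] at this
      exact this.symm
    rw [this]
    exact (mul_ne_zero (pow_ne_zero _ (inv_ne_zero hzτ)) hdτ).isUnit
  · intro i
    ext1 s t
    have := congrArg (eval τ) (hs.1 i s t)
    simp only [smul_eq_mul, Matrix.map_apply, eval_finsetSum, eval_mul, eval_C] at this
    rw [Matrix.mul_apply, Matrix.mul_apply]
    simp only [Matrix.map_apply, Matrix.smul_apply, smul_eq_mul]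
    calc _ = (eval τ z')⁻¹ * ∑ k, eval 0 (ρ i k t) * eval τ (θ' s k) := by
          rw [Finset.mul_sum]
          refine Finset.sum_congr rfl fun k _ => ?_
          ring
      _ = _ := by
          rw [this, Finset.mul_sum]
          refine Finset.sum_congr rfl fun k _ => ?_
          ring
  · intro i j
    funext s
    have := congrArg (eval τ) (hs.2 i j s)
    simp only [smul_eq_mul, eval_finsetSum, eval_mul, eval_C, eval_add, eval_sub] at this
    simp only [mulVec, dotProduct, Pi.sub_apply, Pi.add_apply, Matrix.map_apply,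
      Matrix.smul_apply, smul_eq_mul]
    calc _ = (eval τ z')⁻¹ * ∑ k, eval 0 (c i j k) * eval τ (θ' s k) := by
          rw [Finset.mul_sum]
          refine Finset.sum_congr rfl fun k _ => ?_
          ring
      _ = _ := by
          rw [this, mul_sub, mul_add, Finset.mul_sum, Finset.mul_sum]
          congr 1
          · congr 1
            · field_simp
            · refine Finset.sum_congr rfl fun k _ => ?_
              ring
          · refine Finset.sum_congr rfl fun k _ => ?_
            ring

end frac

end Pool.Agent.J4.H4.ML
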