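import Pool.Agent.J4.H4.ML.Flow

/-!
The members of the family at `0` and at `1` are isomorphic.
-/

namespace Pool.Agent.J4.H4.ML

open Matrix Polynomial

variable {F : Type*} [Field F]

theorem flow01 [CharZero F] {n d : ℕ}
    (ρ : Fin n → Matrix (Fin d) (Fin d) F[X]) (c : Fin n → Fin n → Fin d → F[X])
    (N : Matrix (Fin d) (Fin d) F[X]) (μ : Fin n → Fin d → F[X])
    (hρ : ∀ i, (ρ i).map derivative = N * ρ i - ρ i * N)
    (hc : ∀ i j, (fun s => derivative (c i j s)) = N *ᵥ c i j + ρ j *ᵥ μ i - ρ i *ᵥ μ j) :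
    ∃ (θ : Matrix (Fin d) (Fin d) F) (l : Fin n → Fin d → F), IsUnit θ.det ∧
      (∀ i, θ * (ρ i).map (eval 0) = (ρ i).map (eval 1) * θ) ∧
      ∀ i j, θ *ᵥ (fun s => (c i j s).eval 0) =
        (fun s => (c i j s).eval 1) + (ρ i).map (eval 1) *ᵥ l j - (ρ j).map (eval 1) *ᵥ l i := by
  let r : F[X] →+* F[X] := Polynomial.compRingHom (1 - X)
  have hr : ∀ f : F[X], derivative (r f) = - r (derivative f) := by
    intro f
    change derivative (f.comp (1 - X)) = - (derivative f).comp (1 - X)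
    rw [derivative_comp]
    simp
  have hre : ∀ (f : F[X]) (τ : F), (r f).eval τ = f.eval (1 - τ) := by
    intro f τ
    change (f.comp (1 - X)).eval τ = _
    rw [eval_comp]
    simp
  obtain ⟨p, hp, h1⟩ := flow ρ c N μ hρ hc
  obtain ⟨q, hq, h2⟩ := flow (fun i => (ρ i).map r) (fun i j s => r (c i j s)) (-(N.map r))
    (fun i s => - r (μ i s)) (by
      intro i
      have e : ((ρ i).map r).map derivative = -(((ρ i).map derivative).map r) := by
        ext1 s t
        simp only [Matrix.map_apply, Matrix.neg_apply]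
        exact hr _
      rw [e, hρ, Matrix.map_sub _ (fun a b => map_sub r a b), Matrix.map_mul, Matrix.map_mul]
      noncomm_ring) (by
      intro i j
      have hmv : ∀ (M : Matrix (Fin d) (Fin d) F[X]) (v : Fin d → F[X]) (s : Fin d),
          r ((M *ᵥ v) s) = (M.map r *ᵥ fun s => r (v s)) s := by
        intro M v s
        simp only [mulVec, dotProduct, map_sum, map_mul, Matrix.map_apply]
      funext s
      have := congrArg r (congrFun (hc i j) s)
      rw [hr, this]
      simp only [Pi.sub_apply, Pi.add_apply, map_sub, map_add]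
      rw [hmv, hmv, hmv]
      have e1 : (fun s => - r (μ i s)) = - (fun s => r (μ i s)) := rfl
      have e2 : (fun s => - r (μ j s)) = - (fun s => r (μ j s)) := rfl
      rw [e1, e2, neg_mulVec, mulVec_neg, mulVec_neg]
      simp only [Pi.neg_apply]
      ring)
  obtain ⟨τ, hτ⟩ : ∃ τ : F, (p * r q).eval τ ≠ 0 := by
    by_contra hcon
    push Not at hcon
    have hz : p * r q = 0 := Polynomial.funext fun x => by rw [hcon x, eval_zero]
    rcases mul_eq_zero.1 hz with h | h
    · exact hp h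
    · apply hq
      apply Polynomial.funext
      intro x
      have := congrArg (eval (1 - x)) h
      rw [hre, sub_sub_cancel] at this
      rw [this, eval_zero, eval_zero]
  rw [eval_mul, hre] at hτ
  obtain ⟨θ1, l1, hu1, ha1, hb1⟩ := h1 τ (left_ne_zero_of_mul hτ)
  obtain ⟨θ2, l2, hu2, ha2, hb2⟩ := h2 (1 - τ) (right_ne_zero_of_mul hτ)
  simp only [hre, sub_zero, sub_sub_cancel] at ha2 hb2
  have hmap : ∀ (M : Matrix (Fin d) (Fin d) F[X]) (σ : F),
      (M.map r).map (eval σ) = M.map (eval (1 - σ)) := by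
    intro M σ
    ext1 s t
    simp only [Matrix.map_apply]
    exact hre _ _
  simp only [hmap, sub_zero, sub_sub_cancel] at ha2 hb2
  have hi : θ2⁻¹ * θ2 = 1 := Matrix.nonsing_inv_mul θ2 hu2
  have hi' : θ2 * θ2⁻¹ = 1 := Matrix.mul_nonsing_inv θ2 hu2
  have hcomm : ∀ i, θ2⁻¹ * (ρ i).map (eval τ) = (ρ i).map (eval 1) * θ2⁻¹ := by
    intro i
    calc θ2⁻¹ * (ρ i).map (eval τ) = θ2⁻¹ * ((ρ i).map (eval τ) * θ2) * θ2⁻¹ := by
          rw [mul_assoc, mul_assoc, hi', mul_one]
      _ = _ := by rw [← ha2 i, ← mul_assoc, hi, one_mul]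
  refine ⟨θ2⁻¹ * θ1, fun i => θ2⁻¹ *ᵥ (l1 i - l2 i), ?_, ?_, ?_⟩
  · rw [Matrix.det_mul]
    exact (Matrix.isUnit_nonsing_inv_det _ hu2).mul hu1
  · intro i
    rw [mul_assoc, ha1, ← mul_assoc, hcomm, mul_assoc]
  · intro i j
    rw [← mulVec_mulVec, hb1]
    have e := hb2 i j
    have e' : (fun s => eval τ (c i j s)) = θ2 *ᵥ (fun s => eval 1 (c i j s)) -
        (ρ i).map (eval τ) *ᵥ l2 j + (ρ j).map (eval τ) *ᵥ l2 i := by
      rw [e]
      abel
    rw [e']
    simp only [mulVec_sub, mulVec_add, mulVec_mulVec, hi, one_mulVec, hcomm]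
    abel

end Pool.Agent.J4.H4.ML
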