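import Pool.Agent.J4.H4.ML.Uea
import Pool.Agent.J4.H4.ML.PBWU

/-!
Growth: if the enveloping algebra of `H` embeds into the enveloping algebra of a finite-dimensional
Lie algebra `L`, then `dim H ≤ dim L`.
-/

namespace Pool.Agent.J4.H4.ML

variable {F : Type*} [Field F] {L : Type*} [LieRing L] [LieAlgebra F L]
  {H : Type*} [LieRing H] [LieAlgebra F H]

/-- words of length at most `k` -/
def VV {I : Type*} (b : Module.Basis I F L) (k : ℕ) :
    Submodule F (UniversalEnvelopingAlgebra F L) :=
  Submodule.span F {w | ∃ l : List I, l.length ≤ k ∧ w = (l.map fun i => iu (b i)).prod}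

theorem VV_mono {I : Type*} (b : Module.Basis I F L) {k l : ℕ} (h : k ≤ l) : VV b k ≤ VV b l := by
  apply Submodule.span_mono
  rintro w ⟨m, hm, rfl⟩
  exact ⟨m, hm.trans h, rfl⟩

theorem VV_mul {I : Type*} (b : Module.Basis I F L) {k l : ℕ} {u v} (hu : u ∈ VV b k)
    (hv : v ∈ VV b l) : u * v ∈ VV b (k + l) := by
  induction hu using Submodule.span_induction with
  | mem z hz =>
    obtain ⟨m, hm, rfl⟩ := hz
    induction hv using Submodule.span_induction with
    | mem z hz =>
      obtain ⟨m', hm', rfl⟩ := hz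
      refine Submodule.subset_span ⟨m ++ m', ?_, ?_⟩
      · rw [List.length_append]; omega
      · rw [List.map_append, List.prod_append]
    | zero => rw [mul_zero]; exact Submodule.zero_mem _
    | add a b _ _ ha hb => rw [mul_add]; exact Submodule.add_mem _ ha hb
    | smul r a _ ha => rw [mul_smul_comm]; exact Submodule.smul_mem _ _ ha
  | zero => rw [zero_mul]; exact Submodule.zero_mem _
  | add a b _ _ ha hb => rw [add_mul]; exact Submodule.add_mem _ ha hb
  | smul r a _ ha => rw [smul_mul_assoc]; exact Submodule.smul_mem _ _ ha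

theorem iu_mem_VV {I : Type*} (b : Module.Basis I F L) (x : L) : iu x ∈ VV b 1 := by
  have h := b.linearCombination_repr x
  rw [Finsupp.linearCombination_apply, Finsupp.sum] at h
  rw [← h, map_sum]
  refine Submodule.sum_mem _ fun i _ => ?_
  rw [map_smul]
  exact Submodule.smul_mem _ _ (Submodule.subset_span ⟨[i], by simp, by simp⟩)

theorem one_mem_VV {I : Type*} (b : Module.Basis I F L) (k : ℕ) : 1 ∈ VV b k :=
  Submodule.subset_span ⟨[], by simp, by simp⟩

theorem exists_mem_VV {I : Type*} (b : Module.Basis I F L) (u : UniversalEnvelopingAlgebra F L) :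
    ∃ k, u ∈ VV b k := by
  induction u using uea_induction with
  | h0 r =>
    refine ⟨0, ?_⟩
    rw [Algebra.algebraMap_eq_smul_one]
    exact Submodule.smul_mem _ _ (one_mem_VV b 0)
  | h1 x => exact ⟨1, iu_mem_VV b x⟩
  | hadd u v hu hv =>
    obtain ⟨k, hk⟩ := hu
    obtain ⟨l, hl⟩ := hv
    exact ⟨k + l, Submodule.add_mem _ (VV_mono b (Nat.le_add_right _ _) hk)
      (VV_mono b (Nat.le_add_left _ _) hl)⟩
  | hmul u v hu hv =>
    obtain ⟨k, hk⟩ := hu
    obtain ⟨l, hl⟩ := hv
    exact ⟨k + l, VV_mul b hk hl⟩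

/-- the multiset with given multiplicities -/
def msum {ι : Type*} [Fintype ι] {I : Type*} (x : ι → I) (e : ι → ℕ) : Multiset I :=
  ∑ i, Multiset.replicate (e i) (x i)

theorem VV_le {N : ℕ} (b : Module.Basis (Fin N) F L) (k : ℕ) :
    VV b k ≤ Submodule.span F (Set.range fun e : Fin N → Fin (k + 1) =>
      (((msum (fun i => i) fun i => (e i : ℕ)).sort (· ≤ ·)).map fun i => iu (b i)).prod) := by
  classical
  let g : Fin N → UniversalEnvelopingAlgebra F L := fun i => iu (b i)
  have hcomm : ∀ β γ, g β * g γ - g γ * g β ∈ Submodule.span F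
      {z | ∃ δ, (fun _ : Fin N => 1) δ ≤ (fun _ : Fin N => 1) β + (fun _ : Fin N => 1) γ ∧
        z = g δ} := by
    intro β γ
    have h1 : g β * g γ - g γ * g β = iu ⁅b β, b γ⁆ := (iu_lie _ _).symm
    rw [h1]
    have h := b.linearCombination_repr ⁅b β, b γ⁆
    rw [Finsupp.linearCombination_apply, Finsupp.sum] at h
    rw [← h, map_sum]
    refine Submodule.sum_mem _ fun i _ => ?_
    rw [map_smul]
    exact Submodule.smul_mem _ _ (Submodule.subset_span ⟨i, by simp, rfl⟩)
  rw [VV, Submodule.span_le]
  rintro w ⟨l, hl, rfl⟩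
  have h1 := PBWU.t_SORT F (UniversalEnvelopingAlgebra F L) (Fin N) g (fun _ => 1) hcomm l
  refine Submodule.span_le.2 ?_ h1
  rintro w ⟨m, hm, hml, rfl⟩
  have hwl : ∀ l : List (Fin N), PBWU.wl (fun _ => 1) l = l.length := by
    intro l
    simp [PBWU.wl]
  rw [hwl, hwl] at hml
  have hcount : ∀ i, m.count i < k + 1 := by
    intro i
    have := List.count_le_length (a := i) (l := m)
    omega
  refine Submodule.subset_span ⟨fun i => ⟨m.count i, hcount i⟩, ?_⟩
  have h2 : (msum (fun i => i) fun i => m.count i) = (m : Multiset (Fin N)) := by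
    rw [msum]
    ext a
    rw [Multiset.count_sum']
    simp only [Multiset.count_replicate, Multiset.coe_count]
    rw [Finset.sum_ite_eq' Finset.univ a]
    simp
  simp only [h2]
  have h3 : ((m : Multiset (Fin N)).sort (· ≤ ·)) = m := by
    have h4 : ((m : Multiset (Fin N)).sort (· ≤ ·)).Perm m := by
      rw [← Multiset.coe_eq_coe, Multiset.sort_eq]
    exact h4.eq_of_pairwise' (Multiset.pairwise_sort _ _) hm
  rw [h3]

theorem finrank_VV {N : ℕ} (b : Module.Basis (Fin N) F L) (k : ℕ) :
    Module.finrank F (VV b k) ≤ (k + 1) ^ N ∧ FiniteDimensional F (VV b k) := by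
  have hfd : FiniteDimensional F (Submodule.span F (Set.range fun e : Fin N → Fin (k + 1) =>
      (((msum (fun i => i) fun i => (e i : ℕ)).sort (· ≤ ·)).map fun i =>
        (iu (b i) : UniversalEnvelopingAlgebra F L)).prod)) :=
    FiniteDimensional.span_of_finite F (Set.finite_range _)
  constructor
  · refine (Submodule.finrank_mono (VV_le b k)).trans ?_
    have h := finrank_range_le_card (R := F) (fun e : Fin N → Fin (k + 1) =>
      (((msum (fun i => i) fun i => (e i : ℕ)).sort (· ≤ ·)).map fun i =>
        (iu (b i) : UniversalEnvelopingAlgebra F L)).prod)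
    rw [Fintype.card_pi_const, Fintype.card_fin] at h
    exact h
  · exact Submodule.finiteDimensional_of_le (VV_le b k)

theorem arith (t N r : ℕ) (h : ∀ m : ℕ, (m + 1) ^ t ≤ (r * (m * t) + 1) ^ N) : t ≤ N := by
  by_contra hcon
  push Not at hcon
  set C := r * t + 1 with hC
  have h1 : ∀ m : ℕ, m + 1 ≤ C ^ N := by
    intro m
    have h2 : (m + 1) ^ (N + 1) ≤ (m + 1) ^ t := Nat.pow_le_pow_right (Nat.succ_pos m) hcon
    have h3 : r * (m * t) + 1 ≤ C * (m + 1) := by
      rw [hC]
      nlinarith [Nat.zero_le (r * t), Nat.zero_le m]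
    have h4 : (m + 1) ^ (N + 1) ≤ C ^ N * (m + 1) ^ N := by
      rw [← mul_pow]
      exact (h2.trans (h m)).trans (Nat.pow_le_pow_left h3 N)
    rw [pow_succ, mul_comm] at h4
    exact Nat.le_of_mul_le_mul_right h4 (pow_pos (Nat.succ_pos m) N)
  have := h1 (C ^ N)
  omega

theorem card_le_of_inj [FiniteDimensional F L] {I : Type*} [LinearOrder I]
    (bH : Module.Basis I F H)
    (φ : UniversalEnvelopingAlgebra F H →ₐ[F] UniversalEnvelopingAlgebra F L)
    (hφ : Function.Injective φ) (s : Finset I) : s.card ≤ Module.finrank F L := by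
  classical
  let b := Module.finBasis F L
  obtain ⟨r, hr⟩ : ∃ r, ∀ i : s, φ (iu (bH i)) ∈ VV b r := by
    choose k hk using fun i : s => exists_mem_VV b (φ (iu (bH i)))
    refine ⟨Finset.univ.sup k, fun i => VV_mono b ?_ (hk i)⟩
    exact Finset.le_sup (f := k) (Finset.mem_univ i)
  obtain ⟨β, hβ⟩ := PBWU.exists_basis F H I bH
  apply arith s.card _ r
  intro m
  let lst : (s → Fin (m + 1)) → {l : List I // l.Pairwise (· ≤ ·)} := fun e =>
    ⟨(msum (fun i : s => (i : I)) fun i => (e i : ℕ)).sort (· ≤ ·), Multiset.pairwise_sort _ _⟩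
  have hinj : Function.Injective lst := by
    intro e e' h
    have h1 : (msum (fun i : s => (i : I)) fun i => (e i : ℕ)) =
        (msum (fun i : s => (i : I)) fun i => (e' i : ℕ)) := by
      have h2 := congrArg (fun l : {l : List I // l.Pairwise (· ≤ ·)} => (l.1 : Multiset I)) h
      simpa only [lst, Multiset.sort_eq] using h2
    have hcount : ∀ (e : s → Fin (m + 1)) (i : s),
        Multiset.count (i : I) (msum (fun i : s => (i : I)) fun i => (e i : ℕ)) = e i := by
      intro e i
      rw [msum, Multiset.count_sum', Finset.sum_eq_single i]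
      · rw [Multiset.count_replicate_self]
      · intro j _ hj
        rw [Multiset.count_replicate, if_neg]
        intro h3
        exact hj (Subtype.ext h3)
      · intro h3
        exact absurd (Finset.mem_univ i) h3
    funext i
    apply Fin.ext
    rw [← hcount e i, ← hcount e' i, h1]
  have hlen : ∀ e, (lst e).1.length ≤ m * s.card := by
    intro e
    simp only [lst]
    rw [← Multiset.coe_card, Multiset.sort_eq, msum, Multiset.card_sum]
    simp only [Multiset.card_replicate]
    calc ∑ i : s, (e i : ℕ) ≤ ∑ _i : s, m := Finset.sum_le_sum fun i _ => Nat.lt_succ_iff.1 (e i).2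
      _ = m * s.card := by rw [Finset.sum_const, Finset.card_univ, Fintype.card_coe, smul_eq_mul,
        mul_comm]
  have hmem : ∀ e, φ (β (lst e)) ∈ VV b (r * (m * s.card)) := by
    intro e
    have hl : ∀ l : List I, (∀ i ∈ l, i ∈ s) →
        φ ((l.map fun i => UniversalEnvelopingAlgebra.ι F (bH i)).prod) ∈ VV b (r * l.length) := by
      intro l
      induction l with
      | nil =>
        intro _
        rw [List.map_nil, List.prod_nil, map_one]
        exact one_mem_VV b _
      | cons i l ih =>
        intro h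
        rw [List.map_cons, List.prod_cons, map_mul, List.length_cons, Nat.mul_succ, add_comm]
        exact VV_mul b (hr ⟨i, h i List.mem_cons_self⟩)
          (ih fun k hk => h k (List.mem_cons_of_mem _ hk))
    rw [hβ]
    refine VV_mono b (Nat.mul_le_mul_left r (hlen e)) (hl _ ?_)
    intro i hi
    simp only [lst, Multiset.mem_sort, msum, Multiset.mem_sum] at hi
    obtain ⟨j, _, hj⟩ := hi
    rw [Multiset.eq_of_mem_replicate hj]
    exact j.2
  have hli : LinearIndependent F (fun e => φ (β (lst e))) := by
    have h1 : LinearIndependent F (fun e => β (lst e)) := β.linearIndependent.comp lst hinj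
    exact h1.map' φ.toLinearMap (LinearMap.ker_eq_bot.2 hφ)
  have hfd := (finrank_VV b (r * (m * s.card))).2
  have h1 := finrank_span_eq_card hli
  rw [Fintype.card_fun, Fintype.card_coe, Fintype.card_fin] at h1
  rw [← h1]
  refine le_trans ?_ (finrank_VV b (r * (m * s.card))).1
  apply Submodule.finrank_mono
  rw [Submodule.span_le]
  rintro _ ⟨e, rfl⟩
  exact hmem e

theorem finrank_le_of_inj [FiniteDimensional F L]
    (φ : UniversalEnvelopingAlgebra F H →ₐ[F] UniversalEnvelopingAlgebra F L)
    (hφ : Function.Injective φ) :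
    FiniteDimensional F H ∧ Module.finrank F H ≤ Module.finrank F L := by
  classical
  let bH := Module.Basis.ofVectorSpace F H
  let _ : LinearOrder (Module.Basis.ofVectorSpaceIndex F H) :=
    IsWellOrder.linearOrder WellOrderingRel
  have h := card_le_of_inj bH φ hφ
  have hfin : Finite (Module.Basis.ofVectorSpaceIndex F H) := by
    by_contra hinf
    rw [not_finite_iff_infinite] at hinf
    obtain ⟨s, hs⟩ := Infinite.exists_subset_card_eq (Module.Basis.ofVectorSpaceIndex F H)
      (Module.finrank F L + 1)
    have := h s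
    omega
  have := Fintype.ofFinite (Module.Basis.ofVectorSpaceIndex F H)
  refine ⟨Module.Finite.of_basis bH, ?_⟩
  rw [Module.finrank_eq_card_basis bH, ← Finset.card_univ]
  exact h Finset.univ

end Pool.Agent.J4.H4.ML
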