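import Pool.Agent.J4.H4.ML.Kid

/-!
Isomorphism of the Lie algebras.
-/

namespace Pool.Agent.J4.H4.ML

open MvPolynomial

variable {F : Type*} [Field F] {H : Type*} [LieRing H] [LieAlgebra F H]
  {L : Type*} [LieRing L] [LieAlgebra F L] {n m : ℕ}

section PP

theorem IsDer.commutator {Q : Type*} [Ring Q] [Algebra F Q] {D D' : Q →ₗ[F] Q} (h : IsDer D)
    (h' : IsDer D') : IsDer (D ∘ₗ D' - D' ∘ₗ D) := by
  intro u v
  simp only [LinearMap.sub_apply, LinearMap.comp_apply]
  rw [h, h', map_add, map_add, h, h, h', h']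
  noncomm_ring

theorem IsDer.sub {Q : Type*} [Ring Q] [Algebra F Q] {D D' : Q →ₗ[F] Q} (h : IsDer D)
    (h' : IsDer D') : IsDer (D - D') := by
  intro u v
  simp only [LinearMap.sub_apply]
  rw [h, h']
  noncomm_ring

/-- The vector fields induced by derivations of the enveloping algebra. -/
def PP (c : Coord F H n) : Set (Fin n → MvPolynomial (Fin n) F) :=
  {γ | ∃ D : UniversalEnvelopingAlgebra F H →ₗ[F] UniversalEnvelopingAlgebra F H,
    IsDer D ∧ ∀ i, γ i = ab c (D (iu (c.x i)))}

theorem exists_trans (c : Coord F H n) :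
    ∃ T : Fin n → UniversalEnvelopingAlgebra F H →ₗ[F] UniversalEnvelopingAlgebra F H,
      (∀ j, IsDer (T j)) ∧ (∀ j x, T j (iu x) = algebraMap F _ (c.χ j x)) ∧
      (∀ j u, ab c (T j u) = pderiv j (ab c u)) := by
  choose T hT hT' using fun j => exists_translation (c.χ j) (fun u v => c.χlie j u v)
  refine ⟨T, hT, hT', ?_⟩
  intro j u
  rw [der_ab c (T j) (hT j), Finset.sum_eq_single j]
  · rw [hT', c.χx, if_pos rfl, map_one, map_one, one_mul]
  · intro i _ hi
    rw [hT', c.χx, if_neg (Ne.symm hi), map_zero, map_zero, zero_mul]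
  · intro h
    exact absurd (Finset.mem_univ j) h

theorem PP_pderiv (c : Coord F H n) : ∀ γ ∈ PP c, ∀ j, (fun i => pderiv j (γ i)) ∈ PP c := by
  rintro γ ⟨D, hD, hγ⟩ j
  obtain ⟨T, hT, hT', hT''⟩ := exists_trans c
  refine ⟨T j ∘ₗ D - D ∘ₗ T j, (hT j).commutator hD, ?_⟩
  intro i
  simp only [LinearMap.sub_apply, LinearMap.comp_apply]
  rw [map_sub, hT'', hT', Algebra.algebraMap_eq_smul_one, map_smul, hD.one, smul_zero, map_zero,
    sub_zero, hγ]

theorem PP_liftable (c : Coord F H n) : ∀ γ ∈ PP c,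
    (fun i => γ i - homogeneousComponent 0 (γ i)) ∈
      liftable (qab c) (qab_surjective c) (qmul_zero c) := by
  rintro γ ⟨D, hD, hγ⟩
  obtain ⟨T, hT, hT', hT''⟩ := exists_trans c
  let D' : UniversalEnvelopingAlgebra F H →ₗ[F] UniversalEnvelopingAlgebra F H :=
    D - ∑ j, eps (D (iu (c.x j))) • T j
  have hD' : IsDer D' := hD.sub (IsDer.sum _ _ fun j _ => (hT j).smul _)
  have hval : ∀ i, ab c (D' (iu (c.x i))) = γ i - homogeneousComponent 0 (γ i) := by
    intro i
    simp only [D', LinearMap.sub_apply, LinearMap.sum_apply, LinearMap.smul_apply]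
    rw [map_sub, map_sum, hγ]
    congr 1
    rw [← eps_eq, Finset.sum_eq_single i]
    · rw [map_smul, hT', c.χx, if_pos rfl, map_one, map_one, MvPolynomial.smul_eq_C_mul, mul_one]
    · intro j _ hj
      rw [map_smul, hT', c.χx, if_neg hj, map_zero, map_zero, smul_zero]
    · intro h
      exact absurd (Finset.mem_univ i) h
  have h00 : ∀ i, homogeneousComponent 0 (γ i - homogeneousComponent 0 (γ i)) = 0 := by
    intro i
    rw [map_sub, homogeneousComponent_of_mem (homogeneousComponent_mem 0 (γ i)), if_pos rfl,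
      sub_self]
  have h0 : ∀ u, eps (D' u) = 0 := by
    intro u
    rw [eps_eq_zero_iff c, der_ab c D' hD', map_sum]
    refine Finset.sum_eq_zero fun i _ => ?_
    rw [hval, hc_mul, Finset.Nat.antidiagonal_zero, Finset.sum_singleton, h00, zero_mul]
  obtain ⟨D'', hD''⟩ := der_descend c D' hD' h0
  refine ⟨h00, D'', ?_⟩
  have e : (fun i => γ i - homogeneousComponent 0 (γ i)) = fun i => ab c (D' (iu (c.x i))) :=
    funext fun i => (hval i).symm
  rw [e]
  exact hD''

end PP

section jac

theorem jac (cL : Coord F L n) (cH : Coord F H m)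
    (φ : UniversalEnvelopingAlgebra F L ≃ₐ[F] UniversalEnvelopingAlgebra F H) :
    ∃ G : Matrix (Fin m) (Fin n) (MvPolynomial (Fin m) F),
      (Matrix.of fun i j => pderiv j (ab cH (φ (iu (cL.x i))))) * G = 1 ∧
      ∀ j, (fun i => G i j) ∈ PP cH := by
  obtain ⟨T, hT, hT', hT''⟩ := exists_trans cL
  let R : Fin n → UniversalEnvelopingAlgebra F H →ₗ[F] UniversalEnvelopingAlgebra F H :=
    fun j => φ.toLinearMap ∘ₗ T j ∘ₗ φ.symm.toLinearMap
  have hRa : ∀ j u, R j u = φ (T j (φ.symm u)) := fun j u => rfl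
  have hR : ∀ j, IsDer (R j) := by
    intro j u v
    rw [hRa, hRa, hRa, map_mul, hT, map_add, map_mul, map_mul, φ.apply_symm_apply,
      φ.apply_symm_apply]
  refine ⟨Matrix.of fun i j => ab cH (R j (iu (cH.x i))), ?_, ?_⟩
  · ext1 i j
    rw [Matrix.mul_apply]
    simp only [Matrix.of_apply]
    have h1 := der_ab cH (R j) (hR j) (φ (iu (cL.x i)))
    rw [hRa, φ.symm_apply_apply, hT', AlgEquiv.commutes, AlgHom.commutes, cL.χx] at h1
    rw [Matrix.one_apply]
    calc _ = ∑ k, ab cH (R j (iu (cH.x k))) * pderiv k (ab cH (φ (iu (cL.x i)))) := by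
          refine Finset.sum_congr rfl fun k _ => ?_
          rw [mul_comm]
      _ = _ := by
          rw [← h1]
          by_cases h : i = j
          · rw [if_pos h, if_pos h.symm, map_one]
          · rw [if_neg h, if_neg (Ne.symm h), map_zero]
  · intro j
    exact ⟨R j, hR j, fun i => rfl⟩

theorem le_of_jac (cL : Coord F L n) (cH : Coord F H m)
    (φ : UniversalEnvelopingAlgebra F L ≃ₐ[F] UniversalEnvelopingAlgebra F H) : n ≤ m := by
  obtain ⟨G, hG, _⟩ := jac cL cH φ
  set E := (Matrix.of fun i j => pderiv j (ab cH (φ (iu (cL.x i))))) with hE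
  apply le_of_fin_surjective (MvPolynomial (Fin m) F) E.mulVecLin
  intro v
  refine ⟨G.mulVec v, ?_⟩
  rw [Matrix.mulVecLin_apply, Matrix.mulVec_mulVec, hG, Matrix.one_mulVec]

end jac

section bil

variable {Q : Type*} [Ring Q] [Algebra F Q]

theorem bracket_expand (u v : Q) (x y : Fin n → F) (P : Fin n → Q) :
    (u + ∑ i, x i • P i) * (v + ∑ i, y i • P i) - (v + ∑ i, y i • P i) * (u + ∑ i, x i • P i) =
    (u * v - v * u) - ∑ j, y j • (P j * u - u * P j) + ∑ i, x i • (P i * v - v * P i) +
      ∑ i, ∑ j, (x i * y j) • (P i * P j - P j * P i) := by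
  have e1 : ∑ j, y j • (P j * u - u * P j) = (∑ i, y i • P i) * u - u * (∑ i, y i • P i) := by
    rw [Finset.sum_mul, Finset.mul_sum, ← Finset.sum_sub_distrib]
    refine Finset.sum_congr rfl fun i _ => ?_
    rw [smul_mul_assoc, mul_smul_comm, smul_sub]
  have e2 : ∑ j, x j • (P j * v - v * P j) = (∑ i, x i • P i) * v - v * (∑ i, x i • P i) := by
    rw [Finset.sum_mul, Finset.mul_sum, ← Finset.sum_sub_distrib]
    refine Finset.sum_congr rfl fun i _ => ?_
    rw [smul_mul_assoc, mul_smul_comm, smul_sub]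
  have e3 : ∑ i, ∑ j, (x i * y j) • (P i * P j - P j * P i) =
      (∑ i, x i • P i) * (∑ i, y i • P i) - (∑ i, y i • P i) * (∑ i, x i • P i) := by
    rw [Finset.sum_mul_sum, Finset.sum_mul_sum]
    rw [Finset.sum_comm (f := fun i j => y i • P i * x j • P j), ← Finset.sum_sub_distrib]
    refine Finset.sum_congr rfl fun i _ => ?_
    rw [← Finset.sum_sub_distrib]
    refine Finset.sum_congr rfl fun j _ => ?_
    rw [smul_sub, smul_mul_smul_comm, smul_mul_smul_comm, mul_comm (y j)]
  rw [e1, e2, e3]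
  noncomm_ring

end bil

theorem iso_of [CharZero F] [FiniteDimensional F L] [FiniteDimensional F H]
    (cL : Coord F L n) (cH : Coord F H n)
    (φ : UniversalEnvelopingAlgebra F L ≃ₐ[F] UniversalEnvelopingAlgebra F H)
    (hφ : ∀ x : L, eps (φ (iu x)) = 0)
    (hdim : Module.finrank F H ≤ Module.finrank F L)
    (hdimD : Module.finrank F (Der F H) ≤ Module.finrank F (Der F L))
    (hpbw : ∀ a ∈ Der F L, iu a ∈ KI cL → a = 0) : Nonempty (L ≃ₗ⁅F⁆ H) := by
  classical
  have heps : ∀ u, eps (φ u) = eps u := by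
    have h1 : (eps (F := F) (H := H)).comp φ.toAlgHom = eps := by
      apply hom_ext'
      intro x
      rw [eps_iu]
      exact hφ x
    exact fun u => AlgHom.congr_fun h1 u
  have heps' : ∀ u, eps (φ.symm u) = eps u := by
    intro u
    rw [← heps, φ.apply_symm_apply]
  have hab' : ∀ u, ab cH u = 0 → ab cL (φ.symm u) = 0 := fun u hu =>
    ab_universal cH ((ab cL).comp φ.symm.toAlgHom) hu
  have hK : ∀ w, w ∈ KI cH → φ.symm w ∈ KI cL := by
    intro w hw
    induction hw using Submodule.span_induction with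
    | mem z hz =>
      obtain ⟨u, v, hu, hv, rfl⟩ := hz
      rw [map_mul]
      exact Submodule.subset_span ⟨_, _, by rw [heps', hu], hab' v hv, rfl⟩
    | zero => rw [map_zero]; exact (KI cL).zero_mem
    | add a b _ _ ha hb => rw [map_add]; exact (KI cL).add_mem ha hb
    | smul r a _ ha =>
      rw [smul_eq_mul, map_mul]
      exact (KI cL).mul_mem_left _ ha
  -- the map `j : L → Q`
  let j : L →ₗ[F] QA cH := (mq cH).toLinearMap ∘ₗ φ.toLinearMap ∘ₗ iu
  have hja : ∀ x, j x = mq cH (φ (iu x)) := fun x => rfl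
  have hjlie : ∀ x y, j ⁅x, y⁆ = j x * j y - j y * j x := by
    intro x y
    rw [hja, iu_lie, map_sub, map_mul, map_mul, map_sub, map_mul, map_mul]
    rfl
  have hcomm : ∀ u v : QA cH, u * v - v * u ∈ AQ cH := by
    intro u v
    rw [mem_AQ_iff, map_sub, map_mul, map_mul, mul_comm, sub_self]
  have hjD : ∀ a ∈ Der F L, j a ∈ AQ cH := by
    intro a ha
    induction ha using Submodule.span_induction with
    | mem z hz =>
      obtain ⟨u, v, rfl⟩ := hz
      rw [hjlie]
      exact hcomm _ _
    | zero => rw [map_zero]; exact (AQ cH).zero_mem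
    | add a b _ _ ha hb => rw [map_add]; exact (AQ cH).add_mem ha hb
    | smul r a _ ha => rw [map_smul]; exact (AQ cH).smul_mem _ ha
  have hjinj : ∀ a ∈ Der F L, j a = 0 → a = 0 := by
    intro a ha h0
    rw [hja, mq_eq_zero] at h0
    have h1 := hK _ h0
    rw [φ.symm_apply_apply] at h1
    exact hpbw a ha h1
  -- dimensions
  have hd1 : Module.finrank F (Der F L) ≤ Module.finrank F (AQ cH) := by
    apply LinearMap.finrank_le_finrank_of_injective (f := (j.restrict hjD))
    rw [injective_iff_map_eq_zero]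
    intro a ha
    apply Subtype.ext
    exact hjinj a a.2 (congrArg Subtype.val ha)
  let iH : H →ₗ[F] QA cH := (mq cH).toLinearMap ∘ₗ iu
  have hiHa : ∀ x, iH x = mq cH (iu x) := fun x => rfl
  have hiHlie : ∀ x y, iH ⁅x, y⁆ = iH x * iH y - iH y * iH x := by
    intro x y
    rw [hiHa, iu_lie, map_sub, map_mul, map_mul]
    rfl
  have hiHinj : Function.Injective iH := by
    rw [injective_iff_map_eq_zero]
    intro x hx
    have h1 : ab cH (iu x) = 0 := by
      rw [← qab_mq, ← hiHa, hx, map_zero]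
    have h2 : ∀ i, cH.χ i x = 0 := by
      intro i
      rw [ab_iu] at h1
      have h3 := congrArg (coeff (Finsupp.single i 1)) h1
      rw [coeff_sum, Finset.sum_eq_single i, coeff_C_mul, coeff_X, if_pos rfl, mul_one,
        coeff_zero] at h3
      · exact h3
      · intro k _ hk
        rw [coeff_C_mul, coeff_X, if_neg, mul_zero]
        intro h4
        exact hk (Finsupp.single_left_injective one_ne_zero h4)
      · intro h
        exact absurd (Finset.mem_univ i) h
    have h3 : x ∈ Der F H := by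
      have := cH.span x
      simpa only [h2, zero_smul, Finset.sum_const_zero, sub_zero] using this
    let t : Der F H →ₗ[F] AQ cH := LinearMap.restrict iH (fun a ha => ⟨a, ha, rfl⟩)
    have ht : Function.Surjective t := by
      rintro ⟨_, a, ha, rfl⟩
      exact ⟨⟨a, ha⟩, rfl⟩
    have hfin : Module.finrank F (Der F H) = Module.finrank F (AQ cH) :=
      le_antisymm (hdimD.trans hd1) (LinearMap.finrank_le_finrank_of_surjective ht)
    have hti : Function.Injective t :=
      (LinearMap.injective_iff_surjective_of_finrank_eq_finrank hfin).2 ht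
    have h5 : t ⟨x, h3⟩ = 0 := Subtype.ext hx
    have h6 := hti (h5.trans (map_zero t).symm)
    exact congrArg Subtype.val h6
  -- the core theorem
  obtain ⟨G, hEG, hG⟩ := jac cL cH φ
  obtain ⟨Ψ, Z, hZ, hΨA, hΨ0, h1, h2⟩ := core (qab cH) (qab_surjective cH) (AQ cH)
    (mem_AQ_iff cH) (qeps cH) (qeps_eq cH) (mul_AQ cH) (qmul_zero cH) (PP cH) (PP_pderiv cH)
    (PP_liftable cH) (fun i => j (cL.x i)) (by
      intro i
      rw [hja, qab_mq, ← eps_eq, heps, eps_iu, map_zero])
    (Matrix.of fun i j => pderiv j (ab cH (φ (iu (cL.x i))))) G (by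
      intro i k
      rw [Matrix.of_apply, hja, qab_mq]) hEG hG
  -- the new homomorphism
  let pr : L →ₗ[F] L := LinearMap.id - ∑ i, (cL.χ i).smulRight (cL.x i)
  have hpr : ∀ x, pr x = x - ∑ i, cL.χ i x • cL.x i := by
    intro x
    simp only [pr, LinearMap.sub_apply, LinearMap.id_apply, LinearMap.sum_apply,
      LinearMap.smulRight_apply]
  have hprD : ∀ x, pr x ∈ Der F L := fun x => by rw [hpr]; exact cL.span x
  let g : L →ₗ[F] QA cH := Ψ ∘ₗ j ∘ₗ pr + ∑ i, (cL.χ i).smulRight (Z i)
  have hg : ∀ x, g x = Ψ (j (pr x)) + ∑ i, cL.χ i x • Z i := by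
    intro x
    simp only [g, LinearMap.add_apply, LinearMap.comp_apply, LinearMap.sum_apply,
      LinearMap.smulRight_apply]
  have hjx : ∀ x, j x = j (pr x) + ∑ i, cL.χ i x • j (cL.x i) := by
    intro x
    rw [hpr, map_sub, map_sum]
    simp only [map_smul]
    abel
  have hAA : ∀ a ∈ AQ cH, ∀ b ∈ AQ cH, a * b - b * a = 0 := by
    intro a ha b hb
    have e1 : ∀ a ∈ AQ cH, qeps cH a = 0 := by
      intro a ha
      apply C_injective (Fin n) F
      rw [qeps_eq, (mem_AQ_iff cH a).1 ha, map_zero, map_zero]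
    rw [mul_AQ cH a b hb, mul_AQ cH b a ha, e1 a ha, e1 b hb, zero_smul, zero_smul, sub_zero]
  have hglie : ∀ x y, g ⁅x, y⁆ = g x * g y - g y * g x := by
    intro x y
    have e0 : ∀ i, cL.χ i ⁅x, y⁆ = 0 := fun i => cL.χlie i x y
    have e1 : pr ⁅x, y⁆ = ⁅x, y⁆ := by
      rw [hpr]
      simp only [e0, zero_smul, Finset.sum_const_zero, sub_zero]
    rw [hg ⁅x, y⁆, e1]
    simp only [e0, zero_smul, Finset.sum_const_zero, add_zero]
    rw [hjlie, hjx x, hjx y, hg x, hg y, bracket_expand, bracket_expand,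
      hAA _ (hjD _ (hprD x)) _ (hjD _ (hprD y)),
      hAA _ (hΨA _ (hjD _ (hprD x))) _ (hΨA _ (hjD _ (hprD y)))]
    simp only [map_add, map_sub, map_sum, map_smul, map_zero]
    have e2 : ∀ i, ∀ a ∈ AQ cH, Ψ (j (cL.x i) * a) - Ψ (a * j (cL.x i)) =
        Z i * Ψ a - Ψ a * Z i := by
      intro i a ha
      rw [← map_sub, h1 i a ha]
    have e3 : ∀ i k, Ψ (j (cL.x i) * j (cL.x k)) - Ψ (j (cL.x k) * j (cL.x i)) =
        Z i * Z k - Z k * Z i := by
      intro i k
      rw [← map_sub, h2 i k]
    simp only [e3]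
    congr 1
    congr 1
    · congr 1
      refine Finset.sum_congr rfl fun i _ => ?_
      rw [e2 i _ (hjD _ (hprD x))]
    · refine Finset.sum_congr rfl fun i _ => ?_
      rw [e2 i _ (hjD _ (hprD y))]
  -- injectivity of `g`
  have hlin : ∀ p : MvPolynomial (Fin n) F, homogeneousComponent 1 p =
      ∑ k, C (coeff 0 (pderiv k p)) * X k := by
    intro p
    have e1 := euler_hc 1 p
    rw [one_smul] at e1
    rw [← e1]
    refine Finset.sum_congr rfl fun k _ => ?_
    have e2 := hc_pderiv 0 k p
    rw [zero_add] at e2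
    rw [← e2, homogeneousComponent_zero, mul_comm]
  have hginj : Function.Injective g := by
    rw [injective_iff_map_eq_zero]
    intro x hx
    have e1 : ∑ i, cL.χ i x • homogeneousComponent 1 (qab cH (j (cL.x i))) = 0 := by
      have e2 := congrArg (qab cH) hx
      rw [hg, map_add, (mem_AQ_iff cH _).1 (hΨA _ (hjD _ (hprD x))), zero_add, map_sum,
        map_zero] at e2
      simpa only [map_smul, hZ] using e2
    have e2 : ∀ k, ∑ i, cL.χ i x * coeff 0 (pderiv k (qab cH (j (cL.x i)))) = 0 := by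
      intro k
      have e3 := congrArg (pderiv k) e1
      rw [map_sum, map_zero] at e3
      have e4 := congrArg (coeff 0) e3
      rw [coeff_sum, coeff_zero] at e4
      rw [← e4]
      refine Finset.sum_congr rfl fun i _ => ?_
      rw [(pderiv k).map_smul, coeff_smul, smul_eq_mul]
      congr 1
      have e5 := hc_pderiv 0 k (qab cH (j (cL.x i)))
      rw [zero_add] at e5
      rw [← e5, homogeneousComponent_zero, coeff_C, if_pos rfl]
    have e6 : ∀ l, cL.χ l x = 0 := by
      intro l
      have e7 : ∑ k, (∑ i, cL.χ i x * coeff 0 (pderiv k (qab cH (j (cL.x i))))) *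
          coeff 0 (G k l) = 0 := by
        refine Finset.sum_eq_zero fun k _ => ?_
        rw [e2, zero_mul]
      have e8 : ∀ i, ∑ k, coeff 0 (pderiv k (qab cH (j (cL.x i)))) * coeff 0 (G k l) =
          if i = l then 1 else 0 := by
        intro i
        have e9 := congrFun (congrFun hEG i) l
        rw [Matrix.mul_apply, Matrix.one_apply] at e9
        simp only [Matrix.of_apply] at e9
        have e10 := congrArg (constantCoeff (σ := Fin n) (R := F)) e9
        rw [map_sum] at e10
        simp only [map_mul, constantCoeff_eq] at e10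
        simp only [hja, qab_mq]
        rw [e10]
        by_cases h : i = l
        · rw [if_pos h, if_pos h, coeff_zero_one]
        · rw [if_neg h, if_neg h, coeff_zero]
      simp only [Finset.sum_mul] at e7
      rw [Finset.sum_comm] at e7
      simp only [mul_assoc, ← Finset.mul_sum, e8, mul_ite, mul_one, mul_zero] at e7
      rw [Finset.sum_ite_eq' Finset.univ l] at e7
      simpa using e7
    have e7 : pr x = x := by
      rw [hpr]
      simp only [e6, zero_smul, Finset.sum_const_zero, sub_zero]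
    rw [hg, e7] at hx
    simp only [e6, zero_smul, Finset.sum_const_zero, add_zero] at hx
    have e8 : x ∈ Der F L := by rw [← e7]; exact hprD x
    exact hjinj x e8 (hΨ0 _ (hjD _ e8) hx)
  -- the range of `g`
  have hrA : ∀ a ∈ AQ cH, a ∈ LinearMap.range iH := by
    rintro _ ⟨a, _, rfl⟩
    exact ⟨a, rfl⟩
  have hrZ : ∀ i, Z i ∈ LinearMap.range iH := by
    intro i
    have e1 : Z i - ∑ k, coeff 0 (pderiv k (qab cH (j (cL.x i)))) • iH (cH.x k) ∈ AQ cH := by
      rw [mem_AQ_iff, map_sub, hZ, map_sum, hlin]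
      simp only [map_smul, hiHa, qab_mq, ab_x, MvPolynomial.smul_eq_C_mul]
      exact sub_self _
    have e3 : ∑ k, coeff 0 (pderiv k (qab cH (j (cL.x i)))) • iH (cH.x k) ∈
        LinearMap.range iH :=
      Submodule.sum_mem _ fun k _ => Submodule.smul_mem _ _ ⟨cH.x k, rfl⟩
    have e2 := (LinearMap.range iH).add_mem (hrA _ e1) e3
    rwa [sub_add_cancel] at e2
  have hrg : ∀ x, g x ∈ LinearMap.range iH := by
    intro x
    rw [hg]
    refine (LinearMap.range iH).add_mem (hrA _ (hΨA _ (hjD _ (hprD x)))) ?_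
    exact Submodule.sum_mem _ fun i _ => Submodule.smul_mem _ _ (hrZ i)
  let f : L →ₗ[F] H := (LinearEquiv.ofInjective iH hiHinj).symm.toLinearMap ∘ₗ
    g.codRestrict (LinearMap.range iH) hrg
  have hf : ∀ x, iH (f x) = g x := by
    intro x
    have e := (LinearEquiv.ofInjective iH hiHinj).apply_symm_apply
      (g.codRestrict (LinearMap.range iH) hrg x)
    exact congrArg Subtype.val e
  have hflie : ∀ x y, f ⁅x, y⁆ = ⁅f x, f y⁆ := by
    intro x y
    apply hiHinj
    rw [hf, hglie, hiHlie, hf, hf]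
  have hfinj : Function.Injective f := by
    intro x y hxy
    apply hginj
    rw [← hf, ← hf, hxy]
  have hdim' : Module.finrank F L = Module.finrank F H :=
    le_antisymm (LinearMap.finrank_le_finrank_of_injective hfinj) hdim
  have hfbij : Function.Bijective f :=
    ⟨hfinj, (LinearMap.injective_iff_surjective_of_finrank_eq_finrank hdim').1 hfinj⟩
  exact ⟨{ LinearEquiv.ofBijective f hfbij with
    map_lie' := fun {x y} => hflie x y }⟩

end Pool.Agent.J4.H4.ML
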