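import Pool.Agent.J4.H4.ML.Uea

/-!
The ideal `ω J` of the enveloping algebra, and the quotient by it.
-/

namespace Pool.Agent.J4.H4.ML

open MvPolynomial

variable {F : Type*} [Field F] {H : Type*} [LieRing H] [LieAlgebra F H] {n : ℕ}

section J

variable (F H)

/-- The left ideal generated by the derived algebra. -/
def JI : Ideal (UniversalEnvelopingAlgebra F H) := Ideal.span {w | ∃ a ∈ Der F H, w = iu a}

variable {F H}

theorem JI_mul (b : UniversalEnvelopingAlgebra F H) : ∀ w ∈ JI F H, w * b ∈ JI F H := by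
  induction b using uea_induction with
  | h0 r =>
    intro w hw
    rw [← Algebra.commutes]
    exact (JI F H).mul_mem_left _ hw
  | h1 x =>
    intro w hw
    induction hw using Submodule.span_induction with
    | mem z hz =>
      obtain ⟨a, ha, rfl⟩ := hz
      have h1 : (iu a * iu x : UniversalEnvelopingAlgebra F H) = iu x * iu a + iu ⁅a, x⁆ := by
        rw [iu_lie]
        abel
      rw [h1]
      exact (JI F H).add_mem ((JI F H).mul_mem_left _ (Submodule.subset_span ⟨a, ha, rfl⟩))
        (Submodule.subset_span ⟨_, lie_mem_der a x, rfl⟩)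
    | zero => rw [zero_mul]; exact (JI F H).zero_mem
    | add a b _ _ ha hb => rw [add_mul]; exact (JI F H).add_mem ha hb
    | smul r a _ ha =>
      rw [smul_eq_mul, mul_assoc]
      exact (JI F H).mul_mem_left _ ha
  | hadd u v hu hv =>
    intro w hw
    rw [mul_add]
    exact (JI F H).add_mem (hu w hw) (hv w hw)
  | hmul u v hu hv =>
    intro w hw
    rw [← mul_assoc]
    exact hv _ (hu w hw)

instance : (JI F H).IsTwoSided := ⟨fun b h => JI_mul b _ h⟩

theorem JI_comm (u v : UniversalEnvelopingAlgebra F H) : u * v - v * u ∈ JI F H := by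
  have h1 : ∀ (x : H) (u : UniversalEnvelopingAlgebra F H), u * iu x - iu x * u ∈ JI F H := by
    intro x u
    induction u using uea_induction with
    | h0 r => rw [Algebra.commutes, sub_self]; exact (JI F H).zero_mem
    | h1 y =>
      rw [← iu_lie]
      exact Submodule.subset_span ⟨_, lie_mem_der y x, rfl⟩
    | hadd u v hu hv =>
      have e : (u + v) * iu x - iu x * (u + v) = (u * iu x - iu x * u) + (v * iu x - iu x * v) := by
        noncomm_ring
      rw [e]
      exact (JI F H).add_mem hu hv
    | hmul u v hu hv =>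
      have e : (u * v) * iu x - iu x * (u * v) = u * (v * iu x - iu x * v) +
          (u * iu x - iu x * u) * v := by
        noncomm_ring
      rw [e]
      exact (JI F H).add_mem ((JI F H).mul_mem_left _ hv) (JI_mul _ _ hu)
  induction v using uea_induction with
  | h0 r => rw [Algebra.commutes, sub_self]; exact (JI F H).zero_mem
  | h1 x => exact h1 x u
  | hadd v w hv hw =>
    have e : u * (v + w) - (v + w) * u = (u * v - v * u) + (u * w - w * u) := by noncomm_ring
    rw [e]
    exact (JI F H).add_mem hv hw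
  | hmul v w hv hw =>
    have e : u * (v * w) - (v * w) * u = (u * v - v * u) * w + v * (u * w - w * u) := by
      noncomm_ring
    rw [e]
    exact (JI F H).add_mem (JI_mul _ _ hv) ((JI F H).mul_mem_left _ hw)

theorem mem_JI (c : Coord F H n) {w : UniversalEnvelopingAlgebra F H} (hw : ab c w = 0) :
    w ∈ JI F H := by
  let _ : CommRing (UniversalEnvelopingAlgebra F H ⧸ JI F H) :=
    { (inferInstance : Ring (UniversalEnvelopingAlgebra F H ⧸ JI F H)) with
      mul_comm := by
        intro a b
        obtain ⟨a, rfl⟩ := Ideal.Quotient.mk_surjective a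
        obtain ⟨b, rfl⟩ := Ideal.Quotient.mk_surjective b
        rw [← map_mul, ← map_mul]
        exact Ideal.Quotient.eq.2 (JI_comm a b) }
  have h := ab_universal c (Ideal.Quotient.mkₐ F (JI F H)) hw
  exact Ideal.Quotient.eq_zero_iff_mem.1 h

end J

theorem exists_eps : ∃ ε : UniversalEnvelopingAlgebra F H →ₐ[F] F, ∀ x : H, ε (iu x) = 0 := by
  obtain ⟨ε, h⟩ := exists_lift (F := F) (H := H) (B := F) 0 (by
    intro x y
    simp)
  exact ⟨ε, h⟩

/-- The augmentation. -/
noncomputable def eps : UniversalEnvelopingAlgebra F H →ₐ[F] F := exists_eps.choose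

theorem eps_iu (x : H) : eps (F := F) (iu x) = 0 := exists_eps.choose_spec x

theorem eps_eq (c : Coord F H n) (u : UniversalEnvelopingAlgebra F H) :
    C (eps u) = homogeneousComponent 0 (ab c u) := by
  induction u using uea_induction with
  | h0 r =>
    rw [AlgHom.commutes, AlgHom.commutes]
    change C r = homogeneousComponent 0 (C r)
    rw [homogeneousComponent_of_mem (isHomogeneous_C (Fin n) r), if_pos rfl]
  | h1 x =>
    rw [eps_iu, map_zero, ab_iu, map_sum]
    symm
    refine Finset.sum_eq_zero fun i _ => ?_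
    rw [homogeneousComponent_C_mul, homogeneousComponent_of_mem (isHomogeneous_X F i),
      if_neg (by norm_num), mul_zero]
  | hadd u v hu hv => rw [map_add, map_add, hu, hv, map_add, map_add]
  | hmul u v hu hv =>
    rw [map_mul, map_mul, hu, hv, map_mul, hc_mul, Finset.Nat.antidiagonal_zero,
      Finset.sum_singleton]

theorem eps_eq_zero_iff (c : Coord F H n) (u : UniversalEnvelopingAlgebra F H) :
    eps u = 0 ↔ homogeneousComponent 0 (ab c u) = 0 := by
  rw [← eps_eq, map_eq_zero_iff _ (C_injective (Fin n) F)]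

section K

/-- The ideal `ω J`. -/
def KI (c : Coord F H n) : Ideal (UniversalEnvelopingAlgebra F H) :=
  Ideal.span {w | ∃ u v, eps u = 0 ∧ ab c v = 0 ∧ w = u * v}

theorem KI_mul (c : Coord F H n) (b : UniversalEnvelopingAlgebra F H) :
    ∀ w ∈ KI c, w * b ∈ KI c := by
  intro w hw
  induction hw using Submodule.span_induction with
  | mem z hz =>
    obtain ⟨u, v, hu, hv, rfl⟩ := hz
    exact Submodule.subset_span ⟨u, v * b, hu, by rw [map_mul, hv, zero_mul], mul_assoc _ _ _⟩
  | zero => rw [zero_mul]; exact (KI c).zero_mem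
  | add a b _ _ ha hb => rw [add_mul]; exact (KI c).add_mem ha hb
  | smul r a _ ha =>
    rw [smul_eq_mul, mul_assoc]
    exact (KI c).mul_mem_left _ ha

instance (c : Coord F H n) : (KI c).IsTwoSided := ⟨fun b h => KI_mul c b _ h⟩

theorem ab_KI (c : Coord F H n) {w} (hw : w ∈ KI c) : ab c w = 0 := by
  induction hw using Submodule.span_induction with
  | mem z hz =>
    obtain ⟨u, v, hu, hv, rfl⟩ := hz
    rw [map_mul, hv, mul_zero]
  | zero => rw [map_zero]
  | add a b _ _ ha hb => rw [map_add, ha, hb, add_zero]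
  | smul r a _ ha => rw [smul_eq_mul, map_mul, ha, mul_zero]

theorem exists_der_sub (c : Coord F H n) {w : UniversalEnvelopingAlgebra F H} (hw : ab c w = 0) :
    ∃ a ∈ Der F H, w - iu a ∈ KI c := by
  have h := mem_JI c hw
  clear hw
  induction h using Submodule.span_induction with
  | mem z hz =>
    obtain ⟨a, ha, rfl⟩ := hz
    exact ⟨a, ha, by rw [sub_self]; exact (KI c).zero_mem⟩
  | zero => exact ⟨0, (Der F H).zero_mem, by rw [map_zero, sub_zero]; exact (KI c).zero_mem⟩
  | add u v _ _ hu hv =>
    obtain ⟨a, ha, h1⟩ := hu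
    obtain ⟨b, hb, h2⟩ := hv
    refine ⟨a + b, (Der F H).add_mem ha hb, ?_⟩
    rw [map_add, add_sub_add_comm]
    exact (KI c).add_mem h1 h2
  | smul r u _ hu =>
    obtain ⟨a, ha, h1⟩ := hu
    refine ⟨eps r • a, (Der F H).smul_mem _ ha, ?_⟩
    have e : r • u - iu (eps r • a) = r * (u - iu a) + (r - algebraMap F _ (eps r)) * iu a := by
      rw [smul_eq_mul, map_smul, Algebra.smul_def]
      noncomm_ring
    rw [e]
    refine (KI c).add_mem ((KI c).mul_mem_left _ h1) (Submodule.subset_span ⟨_, iu a, ?_,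
      ab_der c ha, rfl⟩)
    rw [map_sub, AlgHom.commutes]
    exact sub_self _

theorem der_KI (c : Coord F H n) (D : UniversalEnvelopingAlgebra F H →ₗ[F] _) (hD : IsDer D)
    (h0 : ∀ u, eps (D u) = 0) {w} (hw : w ∈ KI c) : D w ∈ KI c := by
  have h1 : ∀ v, ab c v = 0 → ab c (D v) = 0 := by
    intro v hv
    rw [der_ab c D hD, hv]
    exact Finset.sum_eq_zero fun i _ => by rw [map_zero, mul_zero]
  induction hw using Submodule.span_induction with
  | mem z hz =>
    obtain ⟨u, v, hu, hv, rfl⟩ := hz
    rw [hD]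
    exact (KI c).add_mem (Submodule.subset_span ⟨_, _, h0 u, hv, rfl⟩)
      (Submodule.subset_span ⟨_, _, hu, h1 v hv, rfl⟩)
  | zero => rw [map_zero]; exact (KI c).zero_mem
  | add a b _ _ ha hb => rw [map_add]; exact (KI c).add_mem ha hb
  | smul r a ha ha' =>
    rw [smul_eq_mul, hD]
    exact (KI c).add_mem ((KI c).mul_mem_left _ ha) ((KI c).mul_mem_left _ ha')

/-- The quotient algebra. -/
abbrev QA (c : Coord F H n) : Type _ := UniversalEnvelopingAlgebra F H ⧸ KI c

/-- The quotient map. -/
noncomputable def mq (c : Coord F H n) : UniversalEnvelopingAlgebra F H →ₐ[F] QA c :=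
  Ideal.Quotient.mkₐ F (KI c)

theorem mq_surjective (c : Coord F H n) : Function.Surjective (mq c) :=
  Ideal.Quotient.mkₐ_surjective F (KI c)

theorem mq_eq_zero (c : Coord F H n) (u) : mq c u = 0 ↔ u ∈ KI c :=
  Ideal.Quotient.eq_zero_iff_mem

/-- The projection of the quotient onto the abelianisation. -/
noncomputable def qab (c : Coord F H n) : QA c →ₐ[F] MvPolynomial (Fin n) F :=
  Ideal.Quotient.liftₐ (KI c) (ab c) fun _ ha => ab_KI c ha

theorem qab_mq (c : Coord F H n) (u) : qab c (mq c u) = ab c u :=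
  AlgHom.congr_fun (Ideal.Quotient.liftₐ_comp (KI c) (ab c) fun _ ha => ab_KI c ha) u

theorem eps_KI (c : Coord F H n) (a) (ha : a ∈ KI c) : eps a = 0 := by
  rw [eps_eq_zero_iff c, ab_KI c ha, map_zero]

/-- The augmentation of the quotient. -/
noncomputable def qeps (c : Coord F H n) : QA c →ₐ[F] F :=
  Ideal.Quotient.liftₐ (KI c) eps (eps_KI c)

theorem qeps_mq (c : Coord F H n) (u) : qeps c (mq c u) = eps u :=
  AlgHom.congr_fun (Ideal.Quotient.liftₐ_comp (KI c) eps (eps_KI c)) u

/-- The kernel of `qab`, as the image of the derived algebra. -/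
noncomputable def AQ (c : Coord F H n) : Submodule F (QA c) :=
  Submodule.map ((mq c).toLinearMap ∘ₗ iu) (Der F H)

instance (c : Coord F H n) [FiniteDimensional F H] : FiniteDimensional F (AQ c) := by
  unfold AQ
  infer_instance

theorem mem_AQ_iff (c : Coord F H n) (u : QA c) : u ∈ AQ c ↔ qab c u = 0 := by
  constructor
  · rintro ⟨a, ha, rfl⟩
    change qab c (mq c (iu a)) = 0
    rw [qab_mq, ab_der c ha]
  · intro h
    obtain ⟨u, rfl⟩ := mq_surjective c u
    rw [qab_mq] at h
    obtain ⟨a, ha, h1⟩ := exists_der_sub c h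
    refine ⟨a, ha, ?_⟩
    change mq c (iu a) = mq c u
    rw [← mq_eq_zero, map_sub, sub_eq_zero] at h1
    exact h1.symm

theorem mul_AQ (c : Coord F H n) (u a : QA c) (ha : a ∈ AQ c) : u * a = qeps c u • a := by
  obtain ⟨u, rfl⟩ := mq_surjective c u
  obtain ⟨a, ha', rfl⟩ := ha
  change mq c u * mq c (iu a) = qeps c (mq c u) • mq c (iu a)
  rw [qeps_mq, ← map_smul, ← map_mul, ← sub_eq_zero, ← map_sub, mq_eq_zero, Algebra.smul_def,
    ← sub_mul]
  refine Submodule.subset_span ⟨_, _, ?_, ab_der c ha', rfl⟩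
  rw [map_sub, AlgHom.commutes]
  exact sub_self _

theorem qeps_eq (c : Coord F H n) (u : QA c) :
    C (qeps c u) = homogeneousComponent 0 (qab c u) := by
  obtain ⟨u, rfl⟩ := mq_surjective c u
  rw [qeps_mq, qab_mq, eps_eq c]

theorem qmul_zero (c : Coord F H n) (u a : QA c) (hu : homogeneousComponent 0 (qab c u) = 0)
    (ha : qab c a = 0) : u * a = 0 := by
  rw [mul_AQ c u a ((mem_AQ_iff c a).2 ha)]
  have : qeps c u = 0 := by
    apply C_injective (Fin n) F
    rw [qeps_eq, hu, map_zero]
  rw [this, zero_smul]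

theorem qab_surjective (c : Coord F H n) : Function.Surjective (qab c) := by
  intro p
  obtain ⟨u, hu⟩ := ab_surjective c p
  exact ⟨mq c u, by rw [qab_mq, hu]⟩

/-- descent of derivations -/
theorem der_descend (c : Coord F H n) (D : UniversalEnvelopingAlgebra F H →ₗ[F] _) (hD : IsDer D)
    (h0 : ∀ u, eps (D u) = 0) :
    ∃ D' : QA c →ₗ[F] QA c, Lifts (qab c) D' (fun i => ab c (D (iu (c.x i)))) := by
  obtain ⟨s, hs⟩ := LinearMap.exists_rightInverse_of_surjective (mq c).toLinearMap (by
    rw [LinearMap.range_eq_top]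
    exact mq_surjective c)
  have hs' : ∀ u, mq c (s u) = u := fun u => LinearMap.congr_fun hs u
  let D' : QA c →ₗ[F] QA c := (mq c).toLinearMap ∘ₗ D ∘ₗ s
  have hD' : ∀ u, D' (mq c u) = mq c (D u) := by
    intro u
    change mq c (D (s (mq c u))) = mq c (D u)
    rw [← sub_eq_zero, ← map_sub, ← map_sub, mq_eq_zero]
    apply der_KI c D hD h0
    rw [← mq_eq_zero, map_sub, hs', sub_self]
  refine ⟨D', ?_, ?_⟩
  · intro u v
    obtain ⟨u, rfl⟩ := mq_surjective c u
    obtain ⟨v, rfl⟩ := mq_surjective c v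
    rw [← map_mul, hD', hD', hD', hD, map_add, map_mul, map_mul]
  · intro u
    obtain ⟨u, rfl⟩ := mq_surjective c u
    rw [hD', qab_mq, qab_mq, der_ab c D hD]

end K

end Pool.Agent.J4.H4.ML
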