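import Pool.Agent.J4.H4.ML.Iso
import Pool.Agent.J4.H4.ML.Emb
import Pool.Agent.J4.H4.ML.Growth

/-!
Finite-dimensional metabelian Lie algebras over a field of characteristic zero are determined by
their enveloping algebras.
-/

namespace Pool.Agent.J4.H4.ML

variable {F : Type*} [Field F] {L : Type*} [LieRing L] [LieAlgebra F L]
  {H : Type*} [LieRing H] [LieAlgebra F H]

theorem exists_shiftHom (χ : L →ₗ[F] F) (hχ : ∀ u v : L, χ ⁅u, v⁆ = 0) :
    ∃ ψ : UniversalEnvelopingAlgebra F L →ₐ[F] UniversalEnvelopingAlgebra F L,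
      ∀ x, ψ (iu x) = iu x + algebraMap F _ (χ x) := by
  obtain ⟨ψ, hψ⟩ := exists_lift (F := F) (H := L)
    (iu + (Algebra.linearMap F (UniversalEnvelopingAlgebra F L)) ∘ₗ χ) (by
      intro x y
      simp only [LinearMap.add_apply, LinearMap.comp_apply, Algebra.linearMap_apply]
      rw [hχ, map_zero, add_zero, iu_lie]
      have e1 := Algebra.commutes (χ x) (iu y : UniversalEnvelopingAlgebra F L)
      have e2 := Algebra.commutes (χ y) (iu x : UniversalEnvelopingAlgebra F L)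
      have e3 := Algebra.commutes (χ x) (algebraMap F (UniversalEnvelopingAlgebra F L) (χ y))
      simp only [mul_add, add_mul, e1, e2, e3]
      abel)
  exact ⟨ψ, hψ⟩

theorem exists_shiftEquiv (χ : L →ₗ[F] F) (hχ : ∀ u v : L, χ ⁅u, v⁆ = 0) :
    ∃ ψ : UniversalEnvelopingAlgebra F L ≃ₐ[F] UniversalEnvelopingAlgebra F L,
      ∀ x, ψ (iu x) = iu x + algebraMap F _ (χ x) := by
  obtain ⟨ψ, hψ⟩ := exists_shiftHom χ hχ
  obtain ⟨ψ', hψ'⟩ := exists_shiftHom (-χ) (fun u v => by rw [LinearMap.neg_apply, hχ, neg_zero])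
  refine ⟨AlgEquiv.ofAlgHom ψ ψ' ?_ ?_, hψ⟩
  · apply hom_ext'
    intro x
    rw [AlgHom.comp_apply, hψ', map_add, hψ, AlgHom.commutes, LinearMap.neg_apply, map_neg,
      add_neg_cancel_right]
    rfl
  · apply hom_ext'
    intro x
    rw [AlgHom.comp_apply, hψ, map_add, hψ', AlgHom.commutes, LinearMap.neg_apply, map_neg,
      neg_add_cancel_right]
    rfl

theorem main [CharZero F] [FiniteDimensional F L] (hL : ∀ a b c d : L, ⁅⁅a, b⁆, ⁅c, d⁆⁆ = 0)
    (e : UniversalEnvelopingAlgebra F L ≃ₐ[F] UniversalEnvelopingAlgebra F H) :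
    Nonempty (L ≃ₗ⁅F⁆ H) := by
  obtain ⟨hfd, hdim⟩ := finrank_le_of_inj e.symm.toAlgHom e.symm.injective
  have hmet : ∀ a ∈ Der F L, ∀ b ∈ Der F L, ⁅a, b⁆ = 0 := by
    intro a ha b hb
    induction ha using Submodule.span_induction with
    | mem z hz =>
      obtain ⟨u, v, rfl⟩ := hz
      induction hb using Submodule.span_induction with
      | mem z hz =>
        obtain ⟨u', v', rfl⟩ := hz
        exact hL _ _ _ _
      | zero => rw [lie_zero]
      | add a b _ _ ha hb => rw [lie_add, ha, hb, add_zero]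
      | smul r a _ ha => rw [lie_smul, ha, smul_zero]
    | zero => rw [zero_lie]
    | add a b _ _ ha hb => rw [add_lie, ha, hb, add_zero]
    | smul r a _ ha => rw [smul_lie, ha, smul_zero]
  obtain ⟨n, ⟨cL⟩, hn⟩ := exists_coord (F := F) (H := L)
  obtain ⟨m, ⟨cH⟩, hm⟩ := exists_coord (F := F) (H := H)
  have hnm : n = m := le_antisymm (le_of_jac cL cH e) (le_of_jac cH cL e.symm)
  subst hnm
  let χ : L →ₗ[F] F := (eps (F := F) (H := H)).toLinearMap ∘ₗ e.toLinearMap ∘ₗ iu
  have hχ : ∀ u v : L, χ ⁅u, v⁆ = 0 := by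
    intro u v
    change eps (e (iu ⁅u, v⁆)) = 0
    rw [iu_lie, map_sub, map_mul, map_mul, map_sub, map_mul, map_mul, mul_comm, sub_self]
  obtain ⟨ψ, hψ⟩ := exists_shiftEquiv (-χ) (fun u v => by rw [LinearMap.neg_apply, hχ, neg_zero])
  refine iso_of cL cH (ψ.trans e) ?_ hdim (by omega) (metabelian_emb hmet cL)
  intro x
  rw [AlgEquiv.trans_apply, hψ, map_add, map_add, AlgEquiv.commutes, AlgHom.commutes,
    LinearMap.neg_apply]
  change eps (e (iu x)) + -(eps (e (iu x))) = 0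
  rw [add_neg_cancel]

end Pool.Agent.J4.H4.ML
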