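import Mathlib

/-!
Linear differential equations over formal power series in characteristic zero.
-/

namespace Pool.Agent.J4.H4.ML

open PowerSeries Matrix

section ode

variable {F : Type*} [Field F]

/-- The coefficients of the solution of `v' = N v + μ`, `v(0) = v0`. -/
noncomputable def odeCoeff {d : ℕ} (N : Matrix (Fin d) (Fin d) F⟦X⟧) (μ : Fin d → F⟦X⟧)
    (v0 : Fin d → F) : ℕ → Fin d → F
  | 0 => v0
  | (m + 1) => fun i => ((m : F) + 1)⁻¹ *
      (∑ j, ∑ k : Fin (m + 1), odeCoeff N μ v0 k j * coeff (m - k) (N i j) + coeff m (μ i))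
termination_by m => m
decreasing_by exact k.2

theorem ode_exists [CharZero F] {d : ℕ} (N : Matrix (Fin d) (Fin d) F⟦X⟧) (μ : Fin d → F⟦X⟧)
    (v0 : Fin d → F) :
    ∃ v : Fin d → F⟦X⟧, (∀ i, constantCoeff (v i) = v0 i) ∧
      ∀ i, d⁄dX F (v i) = (N *ᵥ v) i + μ i := by
  refine ⟨fun i => PowerSeries.mk fun m => odeCoeff N μ v0 m i, ?_, ?_⟩
  · intro i
    rw [← coeff_zero_eq_constantCoeff_apply, coeff_mk, odeCoeff]
  · intro i
    ext m
    rw [coeff_derivative, coeff_mk, odeCoeff]
    have hm : ((m : F) + 1) ≠ 0 := Nat.cast_add_one_ne_zero m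
    rw [mul_comm, ← mul_assoc, mul_inv_cancel₀ hm, one_mul, map_add]
    congr 1
    rw [mulVec, dotProduct, map_sum]
    refine Finset.sum_congr rfl fun j _ => ?_
    rw [mul_comm (N i j), coeff_mul, Finset.Nat.sum_antidiagonal_eq_sum_range_succ_mk,
      Finset.sum_range]
    refine Finset.sum_congr rfl fun k _ => ?_
    rw [coeff_mk]

theorem ode_unique [CharZero F] {d : ℕ} (N : Matrix (Fin d) (Fin d) F⟦X⟧) (v : Fin d → F⟦X⟧)
    (h0 : ∀ i, constantCoeff (v i) = 0) (h : ∀ i, d⁄dX F (v i) = (N *ᵥ v) i) : v = 0 := by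
  have key : ∀ m, ∀ i, coeff m (v i) = 0 := by
    intro m
    induction m using Nat.strong_induction_on with
    | _ m ih =>
      intro i
      rcases m with _ | m
      · rw [coeff_zero_eq_constantCoeff_apply]; exact h0 i
      · have h1 := congrArg (coeff m) (h i)
        rw [coeff_derivative] at h1
        have h2 : coeff m ((N *ᵥ v) i) = 0 := by
          rw [mulVec, dotProduct, map_sum]
          refine Finset.sum_eq_zero fun j _ => ?_
          rw [coeff_mul]
          refine Finset.sum_eq_zero fun p hp => ?_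
          rw [Finset.HasAntidiagonal.mem_antidiagonal] at hp
          rw [ih p.2 (by omega) j, mul_zero]
        rw [h2] at h1
        rcases mul_eq_zero.1 h1 with h3 | h3
        · exact h3
        · exact absurd h3 (Nat.cast_add_one_ne_zero m)
  funext i
  ext m
  rw [key m i]
  simp

/-- derivative of a matrix-vector product -/
theorem deriv_mulVec {m n : ℕ} (M : Matrix (Fin m) (Fin n) F⟦X⟧) (v : Fin n → F⟦X⟧) (i : Fin m) :
    d⁄dX F ((M *ᵥ v) i) = (M.map (d⁄dX F) *ᵥ v) i + (M *ᵥ fun j => d⁄dX F (v j)) i := by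
  simp only [mulVec, dotProduct, map_sum, Matrix.map_apply, ← Finset.sum_add_distrib]
  refine Finset.sum_congr rfl fun j _ => ?_
  rw [Derivation.leibniz, smul_eq_mul, smul_eq_mul]
  ring

/-- derivative of a matrix product -/
theorem deriv_mul {m n k : ℕ} (M : Matrix (Fin m) (Fin n) F⟦X⟧) (P : Matrix (Fin n) (Fin k) F⟦X⟧) :
    (M * P).map (d⁄dX F) = M.map (d⁄dX F) * P + M * P.map (d⁄dX F) := by
  ext1 i j
  simp only [Matrix.mul_apply, Matrix.map_apply, map_sum, Matrix.add_apply,
    ← Finset.sum_add_distrib]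
  refine Finset.sum_congr rfl fun j _ => ?_
  rw [Derivation.leibniz, smul_eq_mul, smul_eq_mul]
  ring

/-- matrix form of uniqueness -/
theorem ode_unique_mat [CharZero F] {d e : ℕ} (N : Matrix (Fin d) (Fin d) F⟦X⟧)
    (W : Matrix (Fin d) (Fin e) F⟦X⟧)
    (h0 : ∀ i j, constantCoeff (W i j) = 0) (h : W.map (d⁄dX F) = N * W) : W = 0 := by
  ext1 i j
  have := ode_unique N (fun i => W i j) (fun i => h0 i j) (fun i => by
    have := congrFun (congrFun h i) j
    rw [Matrix.map_apply, Matrix.mul_apply] at this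
    exact this)
  exact congrFun this i

theorem ode_exists_mat [CharZero F] {d e : ℕ} (N : Matrix (Fin d) (Fin d) F⟦X⟧)
    (M : Matrix (Fin d) (Fin e) F⟦X⟧) (v0 : Matrix (Fin d) (Fin e) F) :
    ∃ W : Matrix (Fin d) (Fin e) F⟦X⟧, W.map constantCoeff = v0 ∧
      W.map (d⁄dX F) = N * W + M := by
  choose v hv hv' using fun j => ode_exists N (fun i => M i j) (fun i => v0 i j)
  refine ⟨Matrix.of fun i j => v j i, ?_, ?_⟩
  · ext i j
    exact hv j i
  · ext1 i j
    rw [Matrix.map_apply, Matrix.add_apply, Matrix.mul_apply]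
    exact hv' j i

/-- the flow over power series -/
theorem flow_ps [CharZero F] {n d : ℕ} (ρ : Fin n → Matrix (Fin d) (Fin d) F⟦X⟧)
    (c : Fin n → Fin n → Fin d → F⟦X⟧)
    (N : Matrix (Fin d) (Fin d) F⟦X⟧) (μ : Fin n → Fin d → F⟦X⟧)
    (hρ : ∀ i, (ρ i).map (d⁄dX F) = N * ρ i - ρ i * N)
    (hc : ∀ i j, (fun s => d⁄dX F (c i j s)) = N *ᵥ c i j + ρ j *ᵥ μ i - ρ i *ᵥ μ j) :
    ∃ (θ : Matrix (Fin d) (Fin d) F⟦X⟧) (l : Fin n → Fin d → F⟦X⟧),
      θ.map constantCoeff = 1 ∧
      (∀ i, θ * (ρ i).map (fun f => C (constantCoeff f)) = ρ i * θ) ∧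
      ∀ i j, θ *ᵥ (fun s => C (constantCoeff (c i j s))) = c i j + ρ i *ᵥ l j - ρ j *ᵥ l i := by
  obtain ⟨θ, hθ0, hθ⟩ := ode_exists_mat N 0 (1 : Matrix (Fin d) (Fin d) F)
  rw [add_zero] at hθ
  choose l hl0 hl using fun i => ode_exists N (μ i) (fun _ => 0)
  refine ⟨θ, l, hθ0, ?_, ?_⟩
  · intro i
    rw [← sub_eq_zero]
    apply ode_unique_mat N
    · intro s t
      have e1 : (1 : Matrix (Fin d) (Fin d) F) * (ρ i).map constantCoeff =
          (ρ i).map constantCoeff * 1 := by rw [one_mul, mul_one]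
      rw [← hθ0] at e1
      have e2 := congrFun (congrFun e1 s) t
      rw [Matrix.mul_apply, Matrix.mul_apply] at e2
      simp only [Matrix.map_apply] at e2
      rw [Matrix.sub_apply, Matrix.mul_apply, Matrix.mul_apply, map_sub, map_sum, map_sum]
      simp only [map_mul, Matrix.map_apply]
      rw [e2.symm]
      simp
    · have e0 : ((ρ i).map (fun f => C (constantCoeff f))).map (d⁄dX F) = 0 := by
        ext1 s t
        simp only [Matrix.map_apply, derivative_C, Matrix.zero_apply]
      have e1 := deriv_mul θ ((ρ i).map (fun f => C (constantCoeff f)))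
      have e2 := deriv_mul (ρ i) θ
      rw [e0, hθ, mul_zero, add_zero] at e1
      rw [hθ, hρ] at e2
      have e3 : (θ * (ρ i).map (fun f => C (constantCoeff f)) - ρ i * θ).map (d⁄dX F) =
          (θ * (ρ i).map (fun f => C (constantCoeff f))).map (d⁄dX F) -
          (ρ i * θ).map (d⁄dX F) := by
        ext1 s t
        simp only [Matrix.map_apply, Matrix.sub_apply, map_sub]
      rw [e3, e1, e2]
      noncomm_ring
  · intro i j
    rw [← sub_eq_zero]
    apply ode_unique N
    · intro s
      have e1 : (1 : Matrix (Fin d) (Fin d) F) *ᵥ (fun s => constantCoeff (c i j s)) =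
          (fun s => constantCoeff (c i j s)) := by rw [one_mulVec]
      rw [← hθ0] at e1
      have e2 := congrFun e1 s
      simp only [mulVec, dotProduct, Matrix.map_apply] at e2
      simp only [Pi.sub_apply, Pi.add_apply, mulVec, dotProduct, map_sub, map_add, map_sum,
        map_mul, hl0, mul_zero, Finset.sum_const_zero, add_zero, sub_zero, constantCoeff_C]
      rw [e2, sub_self]
    · intro s
      have e1 := deriv_mulVec θ (fun s => C (constantCoeff (c i j s))) s
      have e0 : (fun t => d⁄dX F (C (constantCoeff (c i j t)))) = 0 := by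
        funext t
        rw [derivative_C]
        rfl
      rw [e0, hθ, mulVec_zero, Pi.zero_apply, add_zero] at e1
      have e2 := deriv_mulVec (ρ i) (l j) s
      have e3 := deriv_mulVec (ρ j) (l i) s
      have e4 : (fun t => d⁄dX F (l j t)) = N *ᵥ l j + μ j := funext fun t => hl j t
      have e5 : (fun t => d⁄dX F (l i t)) = N *ᵥ l i + μ i := funext fun t => hl i t
      rw [e4, hρ] at e2
      rw [e5, hρ] at e3
      have e6 := congrFun (hc i j) s
      simp only [Pi.sub_apply, Pi.add_apply, map_sub, map_add]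
      rw [e1, e2, e3, e6]
      simp only [mulVec_sub, mulVec_add, sub_mulVec, Pi.sub_apply, Pi.add_apply, mulVec_mulVec]
      ring

end ode

end Pool.Agent.J4.H4.ML
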