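import Mathlib

/-!
Homogeneous components and the vector field of the path `f (t x) / t`.
-/

namespace Pool.Agent.J4.H4.ML

open MvPolynomial Matrix

variable {F : Type*} [Field F] {n : ℕ}

theorem hc_monomial (k : ℕ) (s : Fin n →₀ ℕ) (a : F) :
    homogeneousComponent k (monomial s a) = if k = s.degree then monomial s a else 0 :=
  homogeneousComponent_of_mem (isHomogeneous_monomial a rfl)

theorem hc_mul (k : ℕ) (p q : MvPolynomial (Fin n) F) :
    homogeneousComponent k (p * q) = ∑ ab ∈ Finset.HasAntidiagonal.antidiagonal k,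
      homogeneousComponent ab.1 p * homogeneousComponent ab.2 q := by
  induction p using MvPolynomial.induction_on' with
  | add p p' hp hp' => simp only [add_mul, map_add, hp, hp', Finset.sum_add_distrib]
  | monomial s a =>
    induction q using MvPolynomial.induction_on' with
    | add q q' hq hq' => simp only [mul_add, map_add, hq, hq', Finset.sum_add_distrib]
    | monomial t b =>
      rw [monomial_mul, hc_monomial]
      simp only [hc_monomial]
      rw [map_add Finsupp.degree]
      by_cases h : k = s.degree + t.degree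
      · rw [if_pos h]
        rw [Finset.sum_eq_single (s.degree, t.degree)]
        · rw [if_pos rfl, if_pos rfl, monomial_mul]
        · rintro ⟨i, j⟩ _ hij
          by_cases h1 : i = s.degree
          · by_cases h2 : j = t.degree
            · exact absurd (by rw [h1, h2]) hij
            · rw [if_neg h2, mul_zero]
          · rw [if_neg h1, zero_mul]
        · intro h1
          exact absurd (Finset.HasAntidiagonal.mem_antidiagonal.2 h.symm) h1
      · rw [if_neg h]
        symm
        refine Finset.sum_eq_zero ?_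
        rintro ⟨i, j⟩ hij
        rw [Finset.HasAntidiagonal.mem_antidiagonal] at hij
        by_cases h1 : i = s.degree
        · by_cases h2 : j = t.degree
          · exact absurd (by rw [← h1, ← h2]; exact hij.symm) h
          · rw [if_neg h2, mul_zero]
        · rw [if_neg h1, zero_mul]

theorem hc_pderiv (k : ℕ) (i : Fin n) (p : MvPolynomial (Fin n) F) :
    homogeneousComponent k (pderiv i p) = pderiv i (homogeneousComponent (k + 1) p) := by
  ext d
  rw [coeff_homogeneousComponent, coeff_pderiv, coeff_pderiv, coeff_homogeneousComponent,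
    map_add Finsupp.degree, Finsupp.degree_single]
  by_cases h : d.degree = k
  · rw [if_pos h, if_pos (by rw [h])]
  · rw [if_neg h, if_neg (by omega), zero_mul]

/-- the substitution `x ↦ τ x` -/
noncomputable def sub (τ : F) : MvPolynomial (Fin n) F →ₐ[F] MvPolynomial (Fin n) F :=
  aeval fun i => C τ * X i

theorem sub_monomial (τ : F) (s : Fin n →₀ ℕ) (a : F) :
    sub τ (monomial s a) = τ ^ s.degree • monomial s a := by
  rw [sub, aeval_monomial, algebraMap_eq]
  have h : (s.prod fun i k => (C τ * X i : MvPolynomial (Fin n) F) ^ k) =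
      C (τ ^ s.degree) * s.prod fun i k => X i ^ k := by
    have h1 : (fun (i : Fin n) (k : ℕ) => (C τ * X i : MvPolynomial (Fin n) F) ^ k) =
        fun i k => (C τ) ^ k * X i ^ k := by
      funext i k
      rw [mul_pow]
    rw [h1, Finsupp.prod_mul]
    congr 1
    rw [Finsupp.prod, Finset.prod_pow_eq_pow_sum, map_pow, Finsupp.degree_apply]
  rw [h, monomial_eq, MvPolynomial.smul_eq_C_mul]
  ring

theorem sub_eq_sum (τ : F) (p : MvPolynomial (Fin n) F) {M : ℕ} (hM : p.totalDegree < M) :
    sub τ p = ∑ k ∈ Finset.range M, τ ^ k • homogeneousComponent k p := by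
  have hcoeff : ∀ (q : MvPolynomial (Fin n) F) (d : Fin n →₀ ℕ),
      coeff d (sub τ q) = τ ^ d.degree * coeff d q := by
    intro q d
    induction q using MvPolynomial.induction_on' with
    | add q q' h h' => rw [map_add, coeff_add, coeff_add, h, h', mul_add]
    | monomial s a =>
      rw [sub_monomial, coeff_smul, coeff_monomial, smul_eq_mul]
      by_cases h : s = d
      · rw [if_pos h, h]
      · rw [if_neg h, mul_zero, mul_zero]
  ext d
  rw [hcoeff, coeff_sum]
  simp only [coeff_smul, coeff_homogeneousComponent, smul_eq_mul]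
  by_cases h : d.degree < M
  · rw [Finset.sum_eq_single d.degree]
    · rw [if_pos rfl]
    · intro k _ hk
      rw [if_neg (Ne.symm hk), mul_zero]
    · intro h1
      exact absurd (Finset.mem_range.2 h) h1
  · have h0 : coeff d p = 0 := by
      apply coeff_eq_zero_of_totalDegree_lt
      rw [← Finsupp.degree_apply]
      omega
    rw [h0, mul_zero]
    symm
    refine Finset.sum_eq_zero fun k _ => ?_
    rw [ite_self, mul_zero]

theorem sum_hc (p : MvPolynomial (Fin n) F) {M : ℕ} (hM : p.totalDegree < M) :
    ∑ k ∈ Finset.range M, homogeneousComponent k p = p := by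
  have h := sub_eq_sum 1 p hM
  simp only [one_pow, one_smul] at h
  rw [← h, sub, map_one]
  simp only [one_mul]
  exact aeval_X_left_apply p

theorem euler_hc (k : ℕ) (p : MvPolynomial (Fin n) F) :
    ∑ i, X i * pderiv i (homogeneousComponent k p) = k • homogeneousComponent k p :=
  (homogeneousComponent_isHomogeneous k p).sum_X_mul_pderiv

theorem pderiv_sub (τ : F) (j : Fin n) (p : MvPolynomial (Fin n) F) :
    pderiv j (sub τ p) = τ • sub τ (pderiv j p) := by
  induction p using MvPolynomial.induction_on with
  | C a =>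
    rw [pderiv_C, map_zero, smul_zero, ← algebraMap_eq, AlgHom.commutes, algebraMap_eq, pderiv_C]
  | add p q hp hq => rw [map_add, map_add, hp, hq, map_add, map_add, smul_add]
  | mul_X p i hp =>
    have hX : sub τ (X i : MvPolynomial (Fin n) F) = C τ * X i := by rw [sub, aeval_X]
    rw [map_mul, pderiv_mul, pderiv_mul, hp, hX, pderiv_C_mul, map_add, map_mul, map_mul, hX]
    by_cases h : i = j
    · subst h
      rw [pderiv_X_self, map_one, MvPolynomial.smul_eq_C_mul, MvPolynomial.smul_eq_C_mul]
      ring
    · rw [pderiv_X_of_ne h, map_zero, MvPolynomial.smul_eq_C_mul, MvPolynomial.smul_eq_C_mul]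
      ring

/-- The flow identity. -/
theorem flow_identity (f h : Fin n → MvPolynomial (Fin n) F) (M : ℕ)
    (hfM : ∀ i, (f i).totalDegree < M + 1) (hhM : ∀ i, (h i).totalDegree < M + 2)
    (hf0 : ∀ i, homogeneousComponent 0 (f i) = 0)
    (hh0 : ∀ i, homogeneousComponent 0 (h i) = 0) (hh1 : ∀ i, homogeneousComponent 1 (h i) = 0)
    (hh : ∀ i, ∑ j, h j * pderiv j (f i) = ∑ j, X j * pderiv j (f i) - f i)
    (τ : F) (hτ : τ ≠ 0) (i : Fin n) :
    ∑ k ∈ Finset.range M, τ ^ k • ∑ j, homogeneousComponent (k + 2) (h j) *
      pderiv j (∑ l ∈ Finset.range M, τ ^ l • homogeneousComponent (l + 1) (f i)) =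
    ∑ l ∈ Finset.range M, ((l : F) * τ ^ (l - 1)) • homogeneousComponent (l + 1) (f i) := by
  have e1 : ∀ j, τ ^ 2 • ∑ k ∈ Finset.range M, τ ^ k • homogeneousComponent (k + 2) (h j) =
      sub τ (h j) := by
    intro j
    rw [sub_eq_sum τ (h j) (hhM j), Finset.sum_range_succ', Finset.sum_range_succ', hh0,
      zero_add, hh1, smul_zero, smul_zero, add_zero, add_zero, Finset.smul_sum]
    refine Finset.sum_congr rfl fun k _ => ?_
    rw [smul_smul, add_assoc, pow_add, mul_comm]
  have e2 : τ • ∑ l ∈ Finset.range M, τ ^ l • homogeneousComponent (l + 1) (f i) =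
      sub τ (f i) := by
    rw [sub_eq_sum τ (f i) (hfM i), Finset.sum_range_succ', hf0, smul_zero, add_zero,
      Finset.smul_sum]
    refine Finset.sum_congr rfl fun k _ => ?_
    rw [smul_smul, pow_succ, mul_comm]
  have hτ3 : τ ^ 3 ≠ 0 := pow_ne_zero _ hτ
  apply (smul_right_injective _ hτ3)
  simp only
  set ft := ∑ l ∈ Finset.range M, τ ^ l • homogeneousComponent (l + 1) (f i) with hft
  have e3 : ∀ j, τ • pderiv j ft = τ • sub τ (pderiv j (f i)) := by
    intro j
    rw [← pderiv_sub, ← e2, (pderiv j).map_smul]
  have e4 : ∑ k ∈ Finset.range M, τ ^ k • ∑ j, homogeneousComponent (k + 2) (h j) *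
      pderiv j ft = ∑ j, (∑ k ∈ Finset.range M, τ ^ k • homogeneousComponent (k + 2) (h j)) *
      pderiv j ft := by
    simp only [Finset.smul_sum, Finset.sum_mul, smul_mul_assoc]
    rw [Finset.sum_comm]
  rw [e4]
  have e5 : τ ^ 3 • ∑ j, (∑ k ∈ Finset.range M, τ ^ k • homogeneousComponent (k + 2) (h j)) *
      pderiv j ft = τ • sub τ (∑ j, h j * pderiv j (f i)) := by
    rw [map_sum, Finset.smul_sum, Finset.smul_sum]
    refine Finset.sum_congr rfl fun j _ => ?_
    rw [map_mul, ← e1 j, pow_succ, smul_mul_assoc, mul_smul, ← mul_smul_comm, e3, mul_smul_comm]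
    rw [smul_comm]
  rw [e5, hh]
  have e6 : ∑ j, X j * pderiv j (f i) = ∑ k ∈ Finset.range (M + 1),
      (k : F) • homogeneousComponent k (f i) := by
    conv_lhs => rw [← sum_hc (f i) (hfM i)]
    simp only [map_sum, Finset.mul_sum]
    rw [Finset.sum_comm]
    refine Finset.sum_congr rfl fun k _ => ?_
    rw [euler_hc, Nat.cast_smul_eq_nsmul]
  have e7 : sub τ (∑ j, X j * pderiv j (f i)) = ∑ k ∈ Finset.range (M + 1),
      ((k : F) * τ ^ k) • homogeneousComponent k (f i) := by
    rw [e6, map_sum]
    refine Finset.sum_congr rfl fun k hk => ?_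
    rw [map_smul, mul_smul]
    congr 1
    have hdeg : (homogeneousComponent k (f i)).totalDegree < M + 1 :=
      lt_of_le_of_lt (homogeneousComponent_isHomogeneous k (f i)).totalDegree_le
        (Finset.mem_range.1 hk)
    rw [sub_eq_sum τ _ hdeg, Finset.sum_eq_single k]
    · rw [homogeneousComponent_of_mem (homogeneousComponent_mem k (f i)), if_pos rfl]
    · intro l _ hl
      rw [homogeneousComponent_of_mem (homogeneousComponent_mem k (f i)), if_neg hl, smul_zero]
    · intro h1
      exact absurd hk h1
  rw [map_sub, e7, sub_eq_sum τ (f i) (hfM i), Finset.sum_range_succ',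
    Finset.sum_range_succ' (fun k => τ ^ k • homogeneousComponent k (f i)), hf0, smul_zero,
    smul_zero, add_zero, add_zero, ← Finset.sum_sub_distrib, Finset.smul_sum, Finset.smul_sum]
  refine Finset.sum_congr rfl fun l _ => ?_
  rw [← sub_smul, smul_smul, smul_smul]
  congr 1
  rcases l with _ | l
  · simp
  · push_cast
    ring

end Pool.Agent.J4.H4.ML
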