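import Pool.Agent.J4.H4.ML.Core

/-!
Basics on enveloping algebras: lifts, the abelianisation, translations.
-/

namespace Pool.Agent.J4.H4.ML

open MvPolynomial

variable {F : Type*} [Field F] {H : Type*} [LieRing H] [LieAlgebra F H]

section basics

attribute [local instance 100] LieRing.ofAssociativeRing

/-- The canonical map of `H` into its enveloping algebra, as a linear map. -/
noncomputable def iu : H →ₗ[F] UniversalEnvelopingAlgebra F H :=
  (UniversalEnvelopingAlgebra.ι F : H →ₗ⁅F⁆ UniversalEnvelopingAlgebra F H)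

theorem iu_lie (x y : H) : (iu ⁅x, y⁆ : UniversalEnvelopingAlgebra F H) =
    iu x * iu y - iu y * iu x := by
  change UniversalEnvelopingAlgebra.ι F ⁅x, y⁆ = _
  rw [LieHom.map_lie, LieRing.of_associative_ring_bracket]
  rfl

theorem exists_lift {B : Type*} [Ring B] [Algebra F B] (g : H →ₗ[F] B)
    (hg : ∀ x y, g ⁅x, y⁆ = g x * g y - g y * g x) :
    ∃ Φ : UniversalEnvelopingAlgebra F H →ₐ[F] B, ∀ x, Φ (iu x) = g x := by
  let g' : H →ₗ⁅F⁆ B :=
    { g with
      map_lie' := by
        intro x y
        rw [LieRing.of_associative_ring_bracket]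
        exact hg x y }
  exact ⟨UniversalEnvelopingAlgebra.lift F g', fun x =>
    UniversalEnvelopingAlgebra.lift_ι_apply F g' x⟩

theorem hom_ext' {B : Type*} [Ring B] [Algebra F B]
    (Φ Ψ : UniversalEnvelopingAlgebra F H →ₐ[F] B) (h : ∀ x : H, Φ (iu x) = Ψ (iu x)) :
    Φ = Ψ := by
  apply UniversalEnvelopingAlgebra.hom_ext
  ext x
  exact h x

end basics

theorem mem_of_iu (S : Subalgebra F (UniversalEnvelopingAlgebra F H))
    (h : ∀ x : H, iu x ∈ S) (u : UniversalEnvelopingAlgebra F H) : u ∈ S := by
  obtain ⟨Φ, hΦ⟩ := exists_lift (B := S) ((iu : H →ₗ[F] _).codRestrict (Subalgebra.toSubmodule S) h)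
    (by
      intro x y
      apply Subtype.ext
      exact iu_lie x y)
  have h1 : S.val.comp Φ = AlgHom.id F _ := by
    apply hom_ext'
    intro x
    rw [AlgHom.comp_apply, hΦ]
    rfl
  have h2 := AlgHom.congr_fun h1 u
  rw [AlgHom.comp_apply, AlgHom.id_apply] at h2
  rw [← h2]
  exact (Φ u).2

/-- induction principle -/
theorem uea_induction (p : UniversalEnvelopingAlgebra F H → Prop)
    (h0 : ∀ c : F, p (algebraMap F _ c)) (h1 : ∀ x : H, p (iu x))
    (hadd : ∀ u v, p u → p v → p (u + v)) (hmul : ∀ u v, p u → p v → p (u * v)) (u) : p u :=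
  mem_of_iu (S :=
    { carrier := {u | p u}
      mul_mem' := fun {a b} ha hb => hmul a b ha hb
      add_mem' := fun {a b} ha hb => hadd a b ha hb
      algebraMap_mem' := h0 }) h1 u

/-- The derived algebra, as a subspace. -/
def Der (F : Type*) [Field F] (H : Type*) [LieRing H] [LieAlgebra F H] : Submodule F H :=
  Submodule.span F {z | ∃ u v : H, ⁅u, v⁆ = z}

theorem lie_mem_der (u v : H) : ⁅u, v⁆ ∈ Der F H := Submodule.subset_span ⟨u, v, rfl⟩

/-- Coordinates on `H` modulo the derived algebra. -/
structure Coord (F : Type*) [Field F] (H : Type*) [LieRing H] [LieAlgebra F H] (n : ℕ) where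
  x : Fin n → H
  χ : Fin n → H →ₗ[F] F
  χx : ∀ i j, χ i (x j) = if i = j then 1 else 0
  χder : ∀ i, ∀ a ∈ Der F H, χ i a = 0
  span : ∀ u, u - ∑ i, χ i u • x i ∈ Der F H

theorem exists_coord [FiniteDimensional F H] :
    ∃ n, Nonempty (Coord F H n) ∧ Module.finrank F (Der F H) + n = Module.finrank F H := by
  classical
  let b := Module.finBasis F (H ⧸ Der F H)
  choose x hx using fun i => Submodule.Quotient.mk_surjective (Der F H) (b i)
  refine ⟨Module.finrank F (H ⧸ Der F H), ⟨⟨x, fun i => b.coord i ∘ₗ (Der F H).mkQ, ?_, ?_, ?_⟩⟩,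
    ?_⟩
  · intro i j
    rw [LinearMap.comp_apply, Submodule.mkQ_apply, hx, Module.Basis.coord_apply,
      Module.Basis.repr_self, Finsupp.single_apply]
    simp only [eq_comm]
  · intro i a ha
    rw [LinearMap.comp_apply, Submodule.mkQ_apply, (Submodule.Quotient.mk_eq_zero _).2 ha,
      map_zero]
  · intro u
    rw [← Submodule.Quotient.mk_eq_zero, Submodule.Quotient.mk_sub, sub_eq_zero,
      ← Submodule.mkQ_apply (Der F H) (∑ i, _), map_sum]
    simp only [map_smul, Submodule.mkQ_apply, hx, LinearMap.comp_apply, Module.Basis.coord_apply]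
    exact (b.sum_repr _).symm
  · rw [add_comm]
    exact Submodule.finrank_quotient_add_finrank (Der F H)

variable {n : ℕ}

theorem Coord.χlie (c : Coord F H n) (i : Fin n) (u v : H) : c.χ i ⁅u, v⁆ = 0 :=
  c.χder i _ (lie_mem_der u v)

theorem exists_ab (c : Coord F H n) :
    ∃ π : UniversalEnvelopingAlgebra F H →ₐ[F] MvPolynomial (Fin n) F,
      ∀ x, π (iu x) = ∑ i, C (c.χ i x) * X i := by
  let g : H →ₗ[F] MvPolynomial (Fin n) F :=
    { toFun := fun x => ∑ i, C (c.χ i x) * X i
      map_add' := by
        intro x y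
        rw [← Finset.sum_add_distrib]
        refine Finset.sum_congr rfl fun i _ => ?_
        rw [map_add, map_add, add_mul]
      map_smul' := by
        intro r x
        rw [RingHom.id_apply, Finset.smul_sum]
        refine Finset.sum_congr rfl fun i _ => ?_
        rw [map_smul, smul_eq_mul, map_mul, MvPolynomial.smul_eq_C_mul, mul_assoc] }
  exact exists_lift g (by
    intro x y
    rw [mul_comm, sub_self]
    change ∑ i, C (c.χ i ⁅x, y⁆) * X i = 0
    exact Finset.sum_eq_zero fun i _ => by rw [c.χlie, map_zero, zero_mul])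

/-- The abelianisation. -/
noncomputable def ab (c : Coord F H n) :
    UniversalEnvelopingAlgebra F H →ₐ[F] MvPolynomial (Fin n) F := (exists_ab c).choose

theorem ab_iu (c : Coord F H n) (x : H) : ab c (iu x) = ∑ i, C (c.χ i x) * X i :=
  (exists_ab c).choose_spec x

theorem ab_x (c : Coord F H n) (j : Fin n) : ab c (iu (c.x j)) = X j := by
  rw [ab_iu, Finset.sum_eq_single j]
  · rw [c.χx, if_pos rfl, map_one, one_mul]
  · intro i _ hi
    rw [c.χx, if_neg hi, map_zero, zero_mul]
  · intro h
    exact absurd (Finset.mem_univ j) h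

theorem ab_der (c : Coord F H n) {a : H} (ha : a ∈ Der F H) : ab c (iu a) = 0 := by
  rw [ab_iu]
  exact Finset.sum_eq_zero fun i _ => by rw [c.χder i a ha, map_zero, zero_mul]

theorem ab_surjective (c : Coord F H n) : Function.Surjective (ab c) := by
  intro p
  induction p using MvPolynomial.induction_on with
  | C a => exact ⟨algebraMap F _ a, by rw [AlgHom.commutes]; rfl⟩
  | add p q hp hq =>
    obtain ⟨u, rfl⟩ := hp
    obtain ⟨v, rfl⟩ := hq
    exact ⟨u + v, map_add _ _ _⟩
  | mul_X p i hp =>
    obtain ⟨u, rfl⟩ := hp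
    exact ⟨u * iu (c.x i), by rw [map_mul, ab_x]⟩

/-- universality of the abelianisation: a homomorphism to a commutative algebra kills the kernel
of `ab`. -/
theorem ab_universal (c : Coord F H n) {B : Type*} [CommRing B] [Algebra F B]
    (g : UniversalEnvelopingAlgebra F H →ₐ[F] B) {u : UniversalEnvelopingAlgebra F H}
    (hu : ab c u = 0) : g u = 0 := by
  have h1 : (aeval (fun i => g (iu (c.x i)))).comp (ab c) = g := by
    apply hom_ext'
    intro x
    rw [AlgHom.comp_apply, ab_iu, map_sum]
    have h2 : ∀ a ∈ Der F H, g (iu a) = 0 := by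
      intro a ha
      induction ha using Submodule.span_induction with
      | mem z hz =>
        obtain ⟨u, v, rfl⟩ := hz
        rw [iu_lie, map_sub, map_mul, map_mul, mul_comm, sub_self]
      | zero => rw [map_zero, map_zero]
      | add a b _ _ ha hb => rw [map_add, map_add, ha, hb, add_zero]
      | smul r a _ ha => rw [map_smul, map_smul, ha, smul_zero]
    have h3 := h2 _ (c.span x)
    rw [map_sub, map_sub, sub_eq_zero] at h3
    rw [h3, map_sum, map_sum]
    refine Finset.sum_congr rfl fun i _ => ?_
    rw [map_mul, aeval_C, aeval_X, map_smul, map_smul, Algebra.smul_def]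
  rw [← h1, AlgHom.comp_apply, hu, map_zero]

/-- A derivation of the enveloping algebra induces a vector field on the abelianisation. -/
theorem der_ab (c : Coord F H n) (D : UniversalEnvelopingAlgebra F H →ₗ[F] _) (hD : IsDer D) (u) :
    ab c (D u) = ∑ i, ab c (D (iu (c.x i))) * pderiv i (ab c u) := by
  have hder : ∀ a ∈ Der F H, ab c (D (iu a)) = 0 := by
    intro a ha
    induction ha using Submodule.span_induction with
    | mem z hz =>
      obtain ⟨u, v, rfl⟩ := hz
      rw [iu_lie, map_sub, hD, hD, map_sub, map_add, map_add, map_mul, map_mul, map_mul, map_mul]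
      ring
    | zero => rw [map_zero, map_zero, map_zero]
    | add a b _ _ ha hb => rw [map_add, map_add, map_add, ha, hb, add_zero]
    | smul r a _ ha => rw [map_smul, map_smul, map_smul, ha, smul_zero]
  induction u using uea_induction with
  | h0 r =>
    have h1 : D (algebraMap F _ r) = 0 := by
      rw [Algebra.algebraMap_eq_smul_one, map_smul, hD.one, smul_zero]
    rw [h1, map_zero]
    symm
    refine Finset.sum_eq_zero fun i _ => ?_
    rw [AlgHom.commutes]
    change _ * pderiv i (C r) = 0
    rw [pderiv_C, mul_zero]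
  | h1 x =>
    have h3 := hder _ (c.span x)
    rw [map_sub, map_sub, map_sub, sub_eq_zero] at h3
    rw [h3, map_sum, map_sum, map_sum]
    refine Finset.sum_congr rfl fun i _ => ?_
    rw [map_smul, map_smul, map_smul, ab_iu, map_sum, Finset.sum_eq_single i]
    · rw [pderiv_C_mul, pderiv_X_self, mul_one, mul_comm, MvPolynomial.smul_eq_C_mul]
    · intro j _ hj
      rw [pderiv_C_mul, pderiv_X_of_ne hj, mul_zero]
    · intro h
      exact absurd (Finset.mem_univ i) h
  | hadd u v hu hv =>
    rw [map_add, map_add, hu, hv, ← Finset.sum_add_distrib]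
    refine Finset.sum_congr rfl fun i _ => ?_
    rw [map_add, map_add, mul_add]
  | hmul u v hu hv =>
    rw [hD, map_add, map_mul, map_mul, hu, hv, Finset.sum_mul, Finset.mul_sum,
      ← Finset.sum_add_distrib]
    refine Finset.sum_congr rfl fun i _ => ?_
    rw [map_mul, pderiv_mul]
    ring

/-- Translations. -/
theorem exists_translation (χ : H →ₗ[F] F) (hχ : ∀ u v : H, χ ⁅u, v⁆ = 0) :
    ∃ T : UniversalEnvelopingAlgebra F H →ₗ[F] UniversalEnvelopingAlgebra F H,
      IsDer T ∧ ∀ x, T (iu x) = algebraMap F _ (χ x) := by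
  let U := UniversalEnvelopingAlgebra F H
  let g : H →ₗ[F] Polynomial U :=
    { toFun := fun x => Polynomial.C (iu x) + Polynomial.monomial 1 (algebraMap F U (χ x))
      map_add' := by
        intro x y
        rw [map_add, map_add, map_add, map_add, map_add]
        abel
      map_smul' := by
        intro r x
        rw [RingHom.id_apply, smul_add, Polynomial.smul_C, Polynomial.smul_monomial,
          (iu : H →ₗ[F] U).map_smul, χ.map_smul, smul_eq_mul, map_mul (algebraMap F U),
          Algebra.smul_def r (algebraMap F U (χ x))] }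
  obtain ⟨Φ, hΦ⟩ := exists_lift g (by
    intro x y
    change Polynomial.C (iu ⁅x, y⁆) + Polynomial.monomial 1 (algebraMap F U (χ ⁅x, y⁆)) =
      (Polynomial.C (iu x) + Polynomial.monomial 1 (algebraMap F U (χ x))) *
      (Polynomial.C (iu y) + Polynomial.monomial 1 (algebraMap F U (χ y))) -
      (Polynomial.C (iu y) + Polynomial.monomial 1 (algebraMap F U (χ y))) *
      (Polynomial.C (iu x) + Polynomial.monomial 1 (algebraMap F U (χ x)))
    rw [hχ, map_zero, map_zero, add_zero, iu_lie, map_sub, map_mul, map_mul]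
    have h1 : ∀ (r : F) (q : Polynomial U), q * Polynomial.monomial 1 (algebraMap F U r) =
        Polynomial.monomial 1 (algebraMap F U r) * q := by
      intro r q
      have h2 : Polynomial.monomial 1 (algebraMap F U r) =
          algebraMap F (Polynomial U) r * Polynomial.X := by
        rw [← Polynomial.C_mul_X_eq_monomial]
        rfl
      rw [h2, ← mul_assoc, ← Algebra.commutes r q, mul_assoc, mul_assoc, Polynomial.X_mul]
    have e1 := h1 (χ y) (Polynomial.C (iu x))
    have e2 := h1 (χ x) (Polynomial.C (iu y))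
    have e3 := h1 (χ y) (Polynomial.monomial 1 (algebraMap F U (χ x)))
    simp only [mul_add, add_mul, e1, e2, e3]
    abel)
  have hc0 : ∀ u, (Φ u).coeff 0 = u := by
    intro u
    induction u using uea_induction with
    | h0 r =>
      rw [AlgHom.commutes]
      change (Polynomial.C (algebraMap F U r)).coeff 0 = _
      rw [Polynomial.coeff_C_zero]
    | h1 x =>
      rw [hΦ]
      change (Polynomial.C (iu x) + Polynomial.monomial 1 (algebraMap F U (χ x))).coeff 0 = _
      rw [Polynomial.coeff_add, Polynomial.coeff_C_zero, Polynomial.coeff_monomial, if_neg (by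
        norm_num), add_zero]
    | hadd u v hu hv => rw [map_add, Polynomial.coeff_add, hu, hv]
    | hmul u v hu hv => rw [map_mul, Polynomial.mul_coeff_zero, hu, hv]
  refine ⟨(Polynomial.lcoeff U 1).restrictScalars F ∘ₗ Φ.toLinearMap, ?_, ?_⟩
  · intro u v
    change (Φ (u * v)).coeff 1 = (Φ u).coeff 1 * v + u * (Φ v).coeff 1
    rw [map_mul, Polynomial.mul_coeff_one, hc0, hc0, add_comm]
  · intro x
    change (Φ (iu x)).coeff 1 = _
    rw [hΦ]
    change (Polynomial.C (iu x) + Polynomial.monomial 1 (algebraMap F U (χ x))).coeff 1 = _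
    rw [Polynomial.coeff_add, Polynomial.coeff_C_of_ne_zero (by norm_num),
      Polynomial.coeff_monomial, if_pos rfl, zero_add]

end Pool.Agent.J4.H4.ML
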